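import Pool.Agent.Y488.TM.Loc

/-!
# Signs at large primes, coordinates that are coprime at the prime only

Adapted from `Pool.Agent.Y488.TM.locm` and `Pool.Agent.Y488.TM.linm`.
-/

set_option autoImplicit false

namespace Pool.Agent.NH93.QT

open Finset Polynomial Pool.Agent.W262.RK Pool.Agent.W262.TW Pool.Agent.Y488.TM
open Pool.Agent.W975.TW (bez hom_map hom_smul hom_one hom_lc)

/-- `locm` for coordinates that are coprime at `p` only -/
theorem locc {K : Type} [Fintype K] [DecidableEq K] (f : K → ℤ[X])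
    (hirr : ∀ k, Irreducible ((f k).map (Int.castRingHom ℚ)))
    (hna : ∀ k l, k ≠ l →
      ¬ Associated ((f k).map (Int.castRingHom ℚ)) ((f l).map (Int.castRingHom ℚ))) :
    ∃ z0 : ℕ, ∀ p : ℕ, p.Prime → z0 < p → ∀ x w : ℤ, ¬ ((p : ℤ) ∣ x ∧ (p : ℤ) ∣ w) → ∀ i,
      (p : ℤ) ∣ hom (f i) x w → (∀ k, k ≠ i → ¬ (p : ℤ) ∣ hom (f k) x w) ∧ ¬ (p : ℤ) ∣ w ∧
        (jacobiSym w p = 1 → ngs (fun k => hom (f k) x w) i p ∈ Th f i p) := by
  classical
  obtain ⟨R, hR0, hR⟩ := exists_R f hirr hna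
  have hlc : ∀ k, (f k).leadingCoeff ≠ 0 := by
    intro k h
    rw [leadingCoeff_eq_zero] at h
    have := (hirr k).ne_zero
    rw [h] at this
    simp at this
  refine ⟨∑ k, (f k).leadingCoeff.natAbs + ∑ k, ∑ l, (R k l).natAbs, ?_⟩
  intro p hp hz x w hxw i hi
  have : Fact p.Prime := ⟨hp⟩
  have hplc : ∀ k, ¬ (p : ℤ) ∣ (f k).leadingCoeff := by
    intro k
    refine not_dvd_big (hlc k) ?_ hz
    refine le_trans ?_ (Nat.le_add_right _ _)
    exact Finset.single_le_sum (f := fun k => (f k).leadingCoeff.natAbs) (fun _ _ => Nat.zero_le _)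
        (mem_univ k)
  have hpR : ∀ k l, ¬ (p : ℤ) ∣ R k l := by
    intro k l
    refine not_dvd_big (hR0 k l) ?_ hz
    refine le_trans ?_ (Nat.le_add_left _ _)
    have h3 : (R k l).natAbs ≤ ∑ l, (R k l).natAbs :=
      Finset.single_le_sum (f := fun l => (R k l).natAbs) (fun _ _ => Nat.zero_le _)
        (mem_univ l)
    exact h3.trans (Finset.single_le_sum (f := fun k => ∑ l, (R k l).natAbs)
      (fun _ _ => Nat.zero_le _) (mem_univ k))
  -- `p` does not divide `w`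
  have hw : ¬ (p : ℤ) ∣ w := by
    intro hd
    have hw0 : (w : ZMod p) = 0 := (ZMod.intCast_zmod_eq_zero_iff_dvd _ p).2 hd
    have h1 : ((hom (f i) x w : ℤ) : ZMod p) = 0 := (ZMod.intCast_zmod_eq_zero_iff_dvd _ p).2 hi
    rw [hom_cast, hw0] at h1
    have h2 := hom_smul (f i) (x : ZMod p) 1 0
    rw [mul_one, mul_zero, hom_lc] at h2
    rw [h2] at h1
    rcases mul_eq_zero.1 h1 with h3 | h3
    · have h4 : (x : ZMod p) = 0 := by
        by_contra h5
        exact pow_ne_zero _ h5 h3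
      have h5 : (p : ℤ) ∣ x := (ZMod.intCast_zmod_eq_zero_iff_dvd _ p).1 h4
      exact hxw ⟨h5, hd⟩
    · exact hplc i ((ZMod.intCast_zmod_eq_zero_iff_dvd _ p).1 h3)
  have hw0 : (w : ZMod p) ≠ 0 := fun h => hw ((ZMod.intCast_zmod_eq_zero_iff_dvd _ p).1 h)
  set θ : ℕ := ((x : ZMod p) * (w : ZMod p)⁻¹).val with hθ
  have hθlt : θ < p := ZMod.val_lt _
  have hθe : (x : ZMod p) = (w : ZMod p) * (((θ : ℕ) : ℤ) : ZMod p) := by
    rw [Int.cast_natCast, hθ, ZMod.natCast_zmod_val]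
    field_simp
  have hiff : ∀ k, (p : ℤ) ∣ hom (f k) x w ↔ (p : ℤ) ∣ (f k).eval (θ : ℤ) := by
    intro k
    rw [← ZMod.intCast_zmod_eq_zero_iff_dvd, ← ZMod.intCast_zmod_eq_zero_iff_dvd,
      hom_eq p (f k) x w θ hθe]
    push_cast
    rw [mul_eq_zero]
    exact ⟨fun h => h.resolve_left (pow_ne_zero _ hw0), Or.inr⟩
  have hcop : ∀ k, k ≠ i → ¬ (p : ℤ) ∣ (f k).eval (θ : ℤ) := by
    intro k hk hd
    obtain ⟨A, B, hAB⟩ := hR k i hk
    have h1 := congrArg (fun q : ℤ[X] => q.eval (θ : ℤ)) hAB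
    simp only [eval_add, eval_mul, eval_C] at h1
    apply hpR k i
    rw [← h1]
    exact dvd_add (Dvd.dvd.mul_left hd _) (Dvd.dvd.mul_left ((hiff i).1 hi) _)
  refine ⟨fun k hk h => hcop k hk ((hiff k).1 h), hw, fun h1 => ?_⟩
  have hTh : ngs (fun k => (f k).eval (θ : ℤ)) i p ∈ Th f i p := by
    unfold Th
    rw [mem_image]
    exact ⟨θ, mem_filter.2 ⟨mem_range.2 hθlt, (hiff i).1 hi⟩, rfl⟩
  have hJ : ∀ k, jacobiSym (hom (f k) x w) p =
      jacobiSym w p ^ (f k).natDegree * jacobiSym ((f k).eval (θ : ℤ)) p := fun k =>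
    jac_eq p (f k) x w θ hθe
  have e : ngs (fun k => hom (f k) x w) i p = ngs (fun k => (f k).eval (θ : ℤ)) i p := by
    unfold ngs
    refine filter_congr fun k _ => ?_
    rw [hJ, h1, one_pow, one_mul]
  rw [e]
  exact hTh

/-- the values at the zeros of the linear `f i`, up to squares -/
noncomputable def cc0 {K : Type} (f : K → ℤ[X]) (i k : K) : ℤ :=
  (f i).coeff 1 ^ (f k).natDegree * val f i k

/-- the patterns at the linear `f i` -/
theorem linc {K : Type} [Fintype K] [DecidableEq K] (f : K → ℤ[X])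
    (hirr : ∀ k, Irreducible ((f k).map (Int.castRingHom ℚ)))
    (hna : ∀ k l, k ≠ l →
      ¬ Associated ((f k).map (Int.castRingHom ℚ)) ((f l).map (Int.castRingHom ℚ))) :
    ∃ z1 : ℕ, ∀ i ∈ Ln f, ∀ p : ℕ, p.Prime → z1 < p → (Th f i p).card ≤ 1 ∧
    ∀ N ∈ Th f i p, ∀ l, l ≠ i →
      (if l ∈ N then (-1 : ℤ) else 1) = jacobiSym (cc0 f i l) p := by
  classical
  obtain ⟨R, hR0, hR⟩ := exists_R f hirr hna
  have hLn : ∀ i ∈ Ln f, (f i).natDegree = 1 := fun i hi => (mem_filter.1 hi).2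
  have hα : ∀ i ∈ Ln f, (f i).coeff 1 ≠ 0 := by
    intro i hi h
    have h1 := hLn i hi
    have h2 : (f i).leadingCoeff = 0 := by rw [leadingCoeff, h1, h]
    rw [leadingCoeff_eq_zero] at h2
    rw [h2] at h1
    simp at h1
  have heval : ∀ i ∈ Ln f, f i = C ((f i).coeff 1) * X + C ((f i).coeff 0) := fun i hi =>
    eq_X_add_C_of_natDegree_le_one (hLn i hi).le
  have hval : ∀ i ∈ Ln f, ∀ k, k ≠ i → val f i k ≠ 0 := by
    intro i hi k hk h0
    set a : ℚ := ((f i).coeff 1 : ℚ) with ha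
    set b : ℚ := ((f i).coeff 0 : ℚ) with hb
    have ha0 : a ≠ 0 := by
      rw [ha]
      exact_mod_cast hα i hi
    have h1 : (hom (f k) (-b) a : ℚ) = 0 := by
      have h2 := hom_map (Int.castRingHom ℚ) (f k) (-(f i).coeff 0) ((f i).coeff 1)
      have h3 : hom (f k) (-(f i).coeff 0) ((f i).coeff 1) = 0 := h0
      rw [h3, map_zero] at h2
      rw [hb, ha]
      simp only [eq_intCast, Int.cast_neg] at h2
      exact h2.symm
    have h2 := hom_smul (f k) a (-b / a) 1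
    have e1 : a * (-b / a) = -b := by field_simp
    rw [e1, mul_one, h1, hom_one] at h2
    have h3 : (f k).eval₂ (Int.castRingHom ℚ) (-b / a) = 0 := by
      rcases mul_eq_zero.1 h2.symm with h | h
      · exact absurd h (pow_ne_zero _ ha0)
      · exact h
    have h4 : (f i).eval₂ (Int.castRingHom ℚ) (-b / a) = 0 := by
      rw [heval i hi]
      simp only [eval₂_add, eval₂_mul, eval₂_C, eval₂_X]
      show a * (-b / a) + b = 0
      rw [e1]
      ring
    obtain ⟨A, B, hAB⟩ := hR k i hk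
    have h5 := congrArg (fun q : ℤ[X] => q.eval₂ (Int.castRingHom ℚ) (-b / a)) hAB
    simp only [eval₂_add, eval₂_mul, eval₂_C] at h5
    rw [h3, h4, mul_zero, mul_zero, add_zero] at h5
    apply hR0 k i
    simpa using h5.symm
  refine ⟨∑ i, ∑ k, (val f i k).natAbs + ∑ i, ((f i).coeff 1).natAbs, ?_⟩
  intro i hi p hp hz
  have : Fact p.Prime := ⟨hp⟩
  have hpα : ¬ (p : ℤ) ∣ (f i).coeff 1 := by
    refine not_dvd_big (hα i hi) ?_ hz
    refine le_trans ?_ (Nat.le_add_left _ _)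
    exact Finset.single_le_sum (f := fun i => ((f i).coeff 1).natAbs) (fun _ _ => Nat.zero_le _)
        (mem_univ i)
  have hpv : ∀ k, k ≠ i → ¬ (p : ℤ) ∣ val f i k := by
    intro k hk
    refine not_dvd_big (hval i hi k hk) ?_ hz
    refine le_trans ?_ (Nat.le_add_right _ _)
    have h3 : (val f i k).natAbs ≤ ∑ k, (val f i k).natAbs :=
      Finset.single_le_sum (f := fun l => (val f i l).natAbs) (fun _ _ => Nat.zero_le _)
        (mem_univ k)
    exact h3.trans (Finset.single_le_sum (f := fun i => ∑ l, (val f i l).natAbs)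
      (fun _ _ => Nat.zero_le _) (mem_univ i))
  have hα0 : (((f i).coeff 1 : ℤ) : ZMod p) ≠ 0 := fun h =>
    hpα ((ZMod.intCast_zmod_eq_zero_iff_dvd _ p).1 h)
  have hroot : ∀ θ : ℕ, (p : ℤ) ∣ (f i).eval (θ : ℤ) →
      ((-(f i).coeff 0 : ℤ) : ZMod p) = (((f i).coeff 1 : ℤ) : ZMod p) * (((θ : ℕ) : ℤ) : ZMod p) := by
    intro θ h
    rw [heval i hi] at h
    simp only [eval_add, eval_mul, eval_C, eval_X] at h
    have h1 := (ZMod.intCast_zmod_eq_zero_iff_dvd _ p).2 h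
    push_cast at h1 ⊢
    linear_combination -h1
  constructor
  · rw [card_le_one]
    intro a ha b hb
    unfold Th at ha hb
    rw [mem_image] at ha hb
    obtain ⟨θ, hθ, rfl⟩ := ha
    obtain ⟨θ', hθ', rfl⟩ := hb
    rw [mem_filter, mem_range] at hθ hθ'
    have h1 := hroot θ hθ.2
    have h2 := hroot θ' hθ'.2
    rw [h1] at h2
    have h3 := mul_left_cancel₀ hα0 h2
    rw [Int.cast_natCast, Int.cast_natCast] at h3
    have h4 := (ZMod.natCast_eq_natCast_iff' θ θ' p).1 h3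
    rw [Nat.mod_eq_of_lt hθ.1, Nat.mod_eq_of_lt hθ'.1] at h4
    rw [h4]
  · intro N hN
    unfold Th at hN
    rw [mem_image] at hN
    obtain ⟨θ, hθ, rfl⟩ := hN
    rw [mem_filter, mem_range] at hθ
    have h1 := hroot θ hθ.2
    have hJα := jac_unit hp hpα
    intro l hl
    have h2 : jacobiSym (val f i l) p =
        jacobiSym ((f i).coeff 1) p ^ (f l).natDegree * jacobiSym ((f l).eval (θ : ℤ)) p :=
      jac_eq p (f l) _ _ θ h1
    have h3 : ¬ (p : ℤ) ∣ (f l).eval (θ : ℤ) := by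
      intro hd
      apply hpv l hl
      have h4 := hom_eq p (f l) _ _ θ h1
      rw [← ZMod.intCast_zmod_eq_zero_iff_dvd]
      show ((hom (f l) (-(f i).coeff 0) ((f i).coeff 1) : ℤ) : ZMod p) = 0
      rw [h4, ZMod.intCast_zmod_eq_zero_iff_dvd]
      exact Dvd.dvd.mul_left hd _
    have h4 := jac_unit hp h3
    have hmem : l ∈ ngs (fun k => (f k).eval (θ : ℤ)) i p ↔
        jacobiSym ((f l).eval (θ : ℤ)) p = -1 := by
      unfold ngs
      simp only [mem_filter, mem_univ, true_and, ne_eq, hl, not_false_eq_true]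
    have h5 : jacobiSym (cc0 f i l) p = jacobiSym ((f l).eval (θ : ℤ)) p := by
      unfold cc0
      rw [jacobiSym.mul_left, jacobiSym.pow_left, h2, ← mul_assoc, ← mul_pow]
      rcases hJα with h6 | h6 <;> rw [h6] <;> simp
    rw [h5]
    rcases h4 with h7 | h7
    · rw [if_neg (by rw [hmem, h7]; norm_num), h7]
    · rw [if_pos (by rw [hmem, h7]), h7]

end Pool.Agent.NH93.QT
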