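import Pool.Agent.NH93.QT.S1
import Pool.Agent.NH93.QT.Loc
import Pool.Agent.Y488.TM.Ant

/-!
# Quadratic twists of `y² = ∏ k, P k (h(x))`, `h` of even degree
-/

set_option autoImplicit false

namespace Pool.Agent.NH93.QT

open Finset Polynomial Pool.Agent.W262.RK Pool.Agent.W262.TW Pool.Agent.W554.TW Pool.Agent.Y488.TM
open Pool.Agent.W975.TW (bez hom_map hom_one hom_lc)

section K

variable {K : Type} [Fintype K] [DecidableEq K]

/-- the vectors -/
def PCo (h : ℤ[X]) (P : K → ℤ[X]) (v : K → ℤ) : Prop :=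
  ∃ x w : ℤ, IsCoprime x w ∧ v = fun k => hom (P k) (hom h x w) (w ^ h.natDegree)

open Classical in
/-- the sign patterns -/
noncomputable def ThC (z1 : ℕ) (h : ℤ[X]) (P : K → ℤ[X]) (k : K) (p : ℕ) :
    Finset (Finset K) :=
  if z1 < p ∧ ∃ θ : ℕ, (p : ℤ) ∣ ((P k).comp h).eval (θ : ℤ) then Th P k p else ∅

lemma ThC_sub (z1 : ℕ) (h : ℤ[X]) (P : K → ℤ[X]) (i : K) (p : ℕ) :
    ThC z1 h P i p ⊆ (univ.erase i).powerset := by
  unfold ThC
  split_ifs
  · exact Th_sub P i p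
  · exact empty_subset _

lemma locC (h : ℤ[X]) (hev : Even h.natDegree) (hpos : 0 < h.natDegree) (P : K → ℤ[X])
    (hirr : ∀ k, Irreducible ((P k).map (Int.castRingHom ℚ)))
    (hna : ∀ k l, k ≠ l →
      ¬ Associated ((P k).map (Int.castRingHom ℚ)) ((P l).map (Int.castRingHom ℚ))) (z1 : ℕ) :
    Loc (PCo h P) (Tog ∅ (ThC z1 h P)) := by
  obtain ⟨z0, hz0⟩ := locc P hirr hna
  have hh0 : h ≠ 0 := by
    rintro rfl
    simp at hpos
  have hlc : h.leadingCoeff ≠ 0 := leadingCoeff_ne_zero.2 hh0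
  refine ⟨max (max z0 z1) h.leadingCoeff.natAbs, ?_⟩
  rintro p hp hz v ⟨x, w, hco, rfl⟩ i hi
  have hp0 : z0 < p := lt_of_le_of_lt ((le_max_left _ _).trans (le_max_left _ _)) hz
  have hp1 : z1 < p := lt_of_le_of_lt ((le_max_right _ _).trans (le_max_left _ _)) hz
  have hp2 : h.leadingCoeff.natAbs < p := lt_of_le_of_lt (le_max_right _ _) hz
  have : Fact p.Prime := ⟨hp⟩
  have hplc : ¬ (p : ℤ) ∣ h.leadingCoeff := not_dvd_big hlc le_rfl hp2
  have hpz := Nat.prime_iff_prime_int.1 hp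
  have hxw : ¬ ((p : ℤ) ∣ hom h x w ∧ (p : ℤ) ∣ w ^ h.natDegree) := by
    rintro ⟨h1, h2⟩
    have h3 : (p : ℤ) ∣ w := hpz.dvd_of_dvd_pow h2
    have h4 : ¬ (p : ℤ) ∣ x := fun h5 => not_dvd_both hp hco h5 h3
    have hw0 : (w : ZMod p) = 0 := (ZMod.intCast_zmod_eq_zero_iff_dvd _ p).2 h3
    have h5 : ((hom h x w : ℤ) : ZMod p) = 0 := (ZMod.intCast_zmod_eq_zero_iff_dvd _ p).2 h1
    rw [hom_cast, hw0] at h5
    have h6 := Pool.Agent.W975.TW.hom_smul h (x : ZMod p) 1 0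
    rw [mul_one, mul_zero, hom_lc, h5] at h6
    rcases mul_eq_zero.1 h6.symm with h7 | h7
    · apply h4
      rw [← ZMod.intCast_zmod_eq_zero_iff_dvd]
      by_contra h8
      exact pow_ne_zero _ h8 h7
    · exact hplc ((ZMod.intCast_zmod_eq_zero_iff_dvd _ p).1 h7)
  obtain ⟨h1, h2, h3⟩ := hz0 p hp hp0 (hom h x w) (w ^ h.natDegree) hxw i hi
  refine ⟨h1, mem_union_left _ ?_⟩
  have hpw : ¬ (p : ℤ) ∣ w := fun h4 => h2 (Dvd.dvd.pow h4 hpos.ne')
  have hsq : jacobiSym (w ^ h.natDegree) p = 1 := by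
    rw [jacobiSym.pow_left]
    rcases jac_unit' hp hpw with h4 | h4 <;> rw [h4]
    · exact one_pow _
    · exact hev.neg_one_pow
  have hmem := h3 hsq
  have hw0 : (w : ZMod p) ≠ 0 := fun h => hpw ((ZMod.intCast_zmod_eq_zero_iff_dvd _ p).1 h)
  -- the root of `P i (h(x))`
  set θ : ℕ := ((x : ZMod p) * (w : ZMod p)⁻¹).val with hθ
  have hθe : (x : ZMod p) = (w : ZMod p) * (((θ : ℕ) : ℤ) : ZMod p) := by
    rw [Int.cast_natCast, hθ, ZMod.natCast_zmod_val]
    field_simp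
  have hroot : (p : ℤ) ∣ ((P i).comp h).eval (θ : ℤ) := by
    have e1 := hom_eq p h x w θ hθe
    have e2 : ((hom h x w : ℤ) : ZMod p) =
        ((w ^ h.natDegree : ℤ) : ZMod p) * ((h.eval (θ : ℤ) : ℤ) : ZMod p) := by
      rw [e1]
      push_cast
      rfl
    have e3 := hom_eq p (P i) (hom h x w) (w ^ h.natDegree) (h.eval (θ : ℤ)) e2
    have e4 : ((hom (P i) (hom h x w) (w ^ h.natDegree) : ℤ) : ZMod p) = 0 :=
      (ZMod.intCast_zmod_eq_zero_iff_dvd _ p).2 hi
    rw [e3] at e4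
    rw [← ZMod.intCast_zmod_eq_zero_iff_dvd, eval_comp]
    push_cast at e4 ⊢
    rcases mul_eq_zero.1 e4 with h4 | h4
    · exact absurd h4 (pow_ne_zero _ (pow_ne_zero _ hw0))
    · exact h4
  unfold ThC
  rw [if_pos ⟨hp1, θ, hroot⟩]
  exact hmem

/-- few squarefree `d` have a point of nonconstant type -/
theorem comp_few (h : ℤ[X]) (hev : Even h.natDegree) (hpos : 0 < h.natDegree) (P : K → ℤ[X])
    (hirr : ∀ k, Irreducible ((P k).map (Int.castRingHom ℚ)))
    (hna : ∀ k l, k ≠ l →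
      ¬ Associated ((P k).map (Int.castRingHom ℚ)) ((P l).map (Int.castRingHom ℚ)))
    (L : Finset K) (hL : L ⊆ Ln P)
    (hL' : ∀ i ∈ Ln P, i ∉ L → Irreducible (((P i).comp h).map (Int.castRingHom ℚ)))
    (hpair : ∀ i ∈ L, ∀ k ∈ L, i ≠ k → ∃ T : Finset K, i ∉ T ∧ k ∉ T ∧
      ¬ IsSquare (∏ l ∈ T, (cc0 P i l * cc0 P k l))) :
    ∃ δ : ℝ, 0 < δ ∧ ∃ C : ℝ, ∀ X : ℕ, 3 ≤ X →
    ({d : ℤ | d.natAbs ≤ X ∧ Squarefree d ∧ BadV (PCo h P) (cc0 P) L ∅ d}.ncard : ℝ) ≤
      C * X * (Real.log X) ^ (-δ) := by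
  classical
  obtain ⟨z1, hz1⟩ := linc P hirr hna
  refine gen (Tog_sub ∅ (ThC z1 h P) (ThC_sub z1 h P)) (locC h hev hpos P hirr hna z1) ?_
  refine meang (ThC z1 h P) (cc0 P) L ∅ (Or.inl rfl) ?_ ?_ ?_ ?_
  · intro i hi k hk hik
    obtain ⟨T, h1, h2, h3⟩ := hpair i hi k hk hik
    exact ⟨T, h1, h2, by simp, h3⟩
  · intro h4
    rw [card_empty] at h4
    omega
  · intro i hi
    have hle : ∀ p, ((ThC z1 h P i p).card : ℝ) ≤ (Th P i p).card := by
      intro p
      unfold ThC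
      split_ifs
      · exact le_rfl
      · simp
    by_cases hdeg : 2 ≤ (P i).natDegree
    · obtain ⟨η, hη, C, hC⟩ := antm K P hirr i hdeg
      refine ⟨η, hη, C, fun z x hx => le_trans (sum_le_sum fun p _ => ?_) (hC z x hx)⟩
      exact div_le_div_of_nonneg_right (hle p) (Nat.cast_nonneg _)
    · have hpos' : 0 < ((P i).map (Int.castRingHom ℚ)).natDegree := (hirr i).natDegree_pos
      have e1 : ((P i).map (Int.castRingHom ℚ)).natDegree = (P i).natDegree :=
        natDegree_map_eq_of_injective (RingHom.injective_int (Int.castRingHom ℚ)) _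
      have hlin : i ∈ Ln P := by
        unfold Ln
        rw [mem_filter]
        exact ⟨mem_univ _, by omega⟩
      have hcirr := hL' i hlin hi
      have hdc : 2 ≤ ((P i).comp h).natDegree := by
        rw [natDegree_comp]
        obtain ⟨m, hm⟩ := hev
        have : (P i).natDegree = 1 := by omega
        rw [this, one_mul]
        omega
      obtain ⟨η, hη, C, hC⟩ := antm Unit (fun _ => (P i).comp h) (fun _ => hcirr) () hdc
      refine ⟨η, hη, C, fun z x hx => le_trans (sum_le_sum fun p hp => ?_) (hC z x hx)⟩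
      refine div_le_div_of_nonneg_right ?_ (Nat.cast_nonneg _)
      have hpp := (PS_prime hp).1
      by_cases hc : z1 < p ∧ ∃ θ : ℕ, (p : ℤ) ∣ ((P i).comp h).eval (θ : ℤ)
      · have h1 : (ThC z1 h P i p).card ≤ 1 := by
          unfold ThC
          rw [if_pos hc]
          exact (hz1 i hlin p hpp hc.1).1
        have h2 : 1 ≤ (Th (fun _ : Unit => (P i).comp h) () p).card := by
          rw [Nat.one_le_iff_ne_zero, Finset.card_ne_zero]
          obtain ⟨θ, hθ⟩ := hc.2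
          unfold Th
          rw [Finset.image_nonempty]
          refine ⟨θ % p, mem_filter.2 ⟨mem_range.2 (Nat.mod_lt _ hpp.pos), ?_⟩⟩
          have h3 : (p : ℤ) ∣ ((θ % p : ℕ) : ℤ) - (θ : ℤ) := by
            push_cast
            rw [← Int.emod_emod_of_dvd (θ : ℤ) (dvd_refl (p : ℤ))]
            exact (Int.emod_emod_of_dvd _ dvd_rfl) ▸ Int.ModEq.dvd (by
              unfold Int.ModEq
              simp)
          have h4 := h3.trans (sub_dvd_eval_sub ((θ % p : ℕ) : ℤ) (θ : ℤ) ((P i).comp h))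
          have h5 := dvd_add h4 hθ
          rwa [sub_add_cancel] at h5
        exact_mod_cast h1.trans h2
      · have h1 : ThC z1 h P i p = ∅ := by
          unfold ThC
          rw [if_neg hc]
        rw [h1]
        simp
  · refine ⟨z1, fun i hi p hp hz => ?_⟩
    obtain ⟨h1, h2⟩ := hz1 i (hL hi) p hp hz
    have hsub : ThC z1 h P i p ⊆ Th P i p := by
      unfold ThC
      split_ifs
      · exact subset_rfl
      · exact empty_subset _
    refine ⟨(card_le_card hsub).trans h1, fun N hN => ⟨1, Or.inl rfl, fun l hl => ?_⟩⟩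
    rw [if_neg (notMem_empty l), one_mul]
    exact h2 N (hsub hN) l hl

end K

end Pool.Agent.NH93.QT
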