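import Pool.Agent.NH93.QT.S1

/-!
# Step 2: `d y² = a b (a - b) (a + b)` with `a² + b² = k w²`
-/

set_option autoImplicit false

namespace Pool.Agent.NH93.QT

open Finset Pool.Agent.W262.RK Pool.Agent.W262.TW Pool.Agent.W554.TW Pool.Agent.Y488.TM

/-- the vectors -/
def P2 (k : ℤ) (v : Fin 4 → ℤ) : Prop := ∃ a b w : ℤ, IsCoprime a b ∧ a ^ 2 + b ^ 2 = k * w ^ 2 ∧
  v = ![a, b, a - b, a + b]

/-- the values at the zeros -/
def c2 : Fin 4 → Fin 4 → ℤ := ![![1, 1, -1, 1], ![1, 1, 1, 1], ![1, 1, 1, 2], ![1, -1, 2, 1]]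

/-- the characters -/
def k2 (k : ℤ) : Fin 4 → ℤ := ![k, k, 2 * k, 2 * k]

/-- the sign patterns -/
def Th2 (k : ℤ) (i : Fin 4) (p : ℕ) : Finset (Finset (Fin 4)) :=
  if jacobiSym (k2 k i) p = 1 then {ngs (c2 i) i p} else ∅

lemma Th2_sub (k : ℤ) (i : Fin 4) (p : ℕ) : Th2 k i p ⊆ (univ.erase i).powerset := by
  intro N hN
  unfold Th2 at hN
  rw [mem_powerset]
  split_ifs at hN
  · rw [mem_singleton] at hN
    rw [hN]
    exact ngs_sub _ _ _
  · simp at hN

lemma c2_unit {p : ℕ} (hp : p.Prime) (h2 : 2 < p) (i l : Fin 4) : ¬ (p : ℤ) ∣ c2 i l := by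
  have h1 : ¬ (p : ℤ) ∣ 1 := by exact_mod_cast nf_nat hp (n := 1) (by norm_num) (by omega)
  have h3 : ¬ (p : ℤ) ∣ 2 := by exact_mod_cast nf_nat hp (n := 2) (by norm_num) h2
  have h4 : ¬ (p : ℤ) ∣ -1 := by rwa [dvd_neg]
  fin_cases i <;> fin_cases l <;> first | exact h1 | exact h3 | exact h4

/-- the four values, pairwise -/
lemma vals {p : ℕ} (hp : p.Prime) (h2 : 2 < p) {a b : ℤ} (hco : IsCoprime a b) :
    ((p : ℤ) ∣ a → ¬ (p : ℤ) ∣ b ∧ ¬ (p : ℤ) ∣ a - b ∧ ¬ (p : ℤ) ∣ a + b) ∧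
    ((p : ℤ) ∣ b → ¬ (p : ℤ) ∣ a ∧ ¬ (p : ℤ) ∣ a - b ∧ ¬ (p : ℤ) ∣ a + b) ∧
    ((p : ℤ) ∣ a - b → ¬ (p : ℤ) ∣ a ∧ ¬ (p : ℤ) ∣ b ∧ ¬ (p : ℤ) ∣ a + b) ∧
    ((p : ℤ) ∣ a + b → ¬ (p : ℤ) ∣ a ∧ ¬ (p : ℤ) ∣ b ∧ ¬ (p : ℤ) ∣ a - b) := by
  have hab : ¬ ((p : ℤ) ∣ a ∧ (p : ℤ) ∣ b) := fun h => not_dvd_both hp hco h.1 h.2
  have key : ∀ x y : ℤ, (p : ℤ) ∣ x → (p : ℤ) ∣ x + y → (p : ℤ) ∣ y := by
    intro x y h h'
    have := dvd_sub h' h
    have e : x + y - x = y := by ring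
    rwa [e] at this
  have key2 : ∀ x y : ℤ, (p : ℤ) ∣ x → (p : ℤ) ∣ x - y → (p : ℤ) ∣ y := by
    intro x y h h'
    have := dvd_sub h h'
    have e : x - (x - y) = y := by ring
    rwa [e] at this
  have key3 : ∀ x y : ℤ, (p : ℤ) ∣ y → (p : ℤ) ∣ x - y → (p : ℤ) ∣ x := by
    intro x y h h'
    have := dvd_add h' h
    have e : x - y + y = x := by ring
    rwa [e] at this
  have key4 : ∀ x y : ℤ, (p : ℤ) ∣ y → (p : ℤ) ∣ x + y → (p : ℤ) ∣ x := by
    intro x y h h'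
    have := dvd_sub h' h
    have e : x + y - y = x := by ring
    rwa [e] at this
  have hboth : ¬ ((p : ℤ) ∣ a - b ∧ (p : ℤ) ∣ a + b) := by
    rintro ⟨h3, h4⟩
    have h5 : (p : ℤ) ∣ 2 * a := by
      have := dvd_add h3 h4
      have e : a - b + (a + b) = 2 * a := by ring
      rwa [e] at this
    have h6 : (p : ℤ) ∣ 2 * b := by
      have := dvd_sub h4 h3
      have e : a + b - (a - b) = 2 * b := by ring
      rwa [e] at this
    exact hab ⟨dvd_of_two hp h2 h5, dvd_of_two hp h2 h6⟩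
  refine ⟨fun h => ⟨fun h' => hab ⟨h, h'⟩, fun h' => hab ⟨h, key2 a b h h'⟩,
    fun h' => hab ⟨h, key a b h h'⟩⟩, fun h => ⟨fun h' => hab ⟨h', h⟩,
    fun h' => hab ⟨key3 a b h h', h⟩, fun h' => hab ⟨key4 a b h h', h⟩⟩,
    fun h => ⟨fun h' => hab ⟨h', key2 a b h' h⟩, fun h' => hab ⟨key3 a b h' h, h'⟩,
      fun h' => hboth ⟨h, h'⟩⟩,
    fun h => ⟨fun h' => hab ⟨h', key a b h' h⟩, fun h' => hab ⟨key4 a b h' h, h'⟩,
      fun h' => hboth ⟨h', h⟩⟩⟩

lemma loc2 (k : ℤ) : Loc (P2 k) (Tog univ (Th2 k)) := by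
  refine ⟨2, ?_⟩
  rintro p hp h2 v ⟨a, b, w, hco, hk, rfl⟩ i hi
  obtain ⟨g0, g1, g2, g3⟩ := vals hp h2 hco
  -- the sign of `k`
  have hw : ∀ x : ℤ, (p : ℤ) ∣ a ^ 2 + b ^ 2 - x ^ 2 → ¬ (p : ℤ) ∣ x → jacobiSym k p = 1 := by
    intro x hx hxp
    have hwp : ¬ (p : ℤ) ∣ w := by
      intro h3
      apply hxp
      have h4 : (p : ℤ) ∣ a ^ 2 + b ^ 2 := by
        rw [hk]
        exact Dvd.dvd.mul_left (Dvd.dvd.pow h3 two_ne_zero) _
      have h5 := dvd_sub h4 hx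
      have e : a ^ 2 + b ^ 2 - (a ^ 2 + b ^ 2 - x ^ 2) = x ^ 2 := by ring
      rw [e] at h5
      exact dvd_of_sq hp h5
    have h3 : jacobiSym (x ^ 2) p = jacobiSym k p := by
      refine jq (t := w) hp ?_ hwp
      rw [← hk]
      have e : x ^ 2 - (a ^ 2 + b ^ 2) = -(a ^ 2 + b ^ 2 - x ^ 2) := by ring
      rw [e]
      exact dvd_neg.2 hx
    rw [← h3, jac_sq hp hxp]
  have hw2 : ∀ x : ℤ, (p : ℤ) ∣ a ^ 2 + b ^ 2 - 2 * x ^ 2 → ¬ (p : ℤ) ∣ x →
      jacobiSym (2 * k) p = 1 := by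
    intro x hx hxp
    have hwp : ¬ (p : ℤ) ∣ w := by
      intro h3
      apply hxp
      have h4 : (p : ℤ) ∣ a ^ 2 + b ^ 2 := by
        rw [hk]
        exact Dvd.dvd.mul_left (Dvd.dvd.pow h3 two_ne_zero) _
      have h5 := dvd_sub h4 hx
      have e : a ^ 2 + b ^ 2 - (a ^ 2 + b ^ 2 - 2 * x ^ 2) = 2 * x ^ 2 := by ring
      rw [e] at h5
      exact dvd_of_sq hp (dvd_of_two hp h2 h5)
    have h3 : jacobiSym (2 * x ^ 2) p = jacobiSym k p := by
      refine jq (t := w) hp ?_ hwp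
      rw [← hk]
      have e : 2 * x ^ 2 - (a ^ 2 + b ^ 2) = -(a ^ 2 + b ^ 2 - 2 * x ^ 2) := by ring
      rw [e]
      exact dvd_neg.2 hx
    have h4 : ¬ (p : ℤ) ∣ 2 := by exact_mod_cast nf_nat hp (n := 2) (by norm_num) h2
    rw [jacobiSym.mul_left, ← h3, jacobiSym.mul_left, jac_sq hp hxp, mul_one]
    rcases jac_unit' hp h4 with h | h <;> rw [h] <;> norm_num
  have fin : ∀ (i : Fin 4) (s : ℤ), ¬ (p : ℤ) ∣ s → jacobiSym (k2 k i) p = 1 →
      (∀ l, l ≠ i → (p : ℤ) ∣ (![a, b, a - b, a + b] : Fin 4 → ℤ) l - s * c2 i l) →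
      ngs (![a, b, a - b, a + b] : Fin 4 → ℤ) i p ∈ Tog univ (Th2 k) i p := by
    intro i s hs hk h
    unfold Tog Th2
    rw [if_pos hk]
    rcases tog_mem hp hs (fun l _ => c2_unit hp h2 i l) h with h1 | h1
    · exact mem_union_left _ (mem_singleton.2 h1)
    · refine mem_union_right _ ?_
      rw [image_singleton, mem_singleton]
      exact h1
  fin_cases i
  · have h3 : (p : ℤ) ∣ a := hi
    obtain ⟨f1, f2, f3⟩ := g0 h3
    refine ⟨?_, fin 0 b f1 (hw b ?_ f1) ?_⟩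
    · intro l hl
      fin_cases l
      · exact absurd rfl hl
      · exact f1
      · exact f2
      · exact f3
    · have e : a ^ 2 + b ^ 2 - b ^ 2 = a ^ 2 := by ring
      rw [e]
      exact Dvd.dvd.pow h3 two_ne_zero
    · intro l hl
      fin_cases l
      · exact absurd rfl hl
      · show (p : ℤ) ∣ b - b * 1
        simp
      · show (p : ℤ) ∣ (a - b) - b * -1
        have e : (a - b) - b * -1 = a := by ring
        rwa [e]
      · show (p : ℤ) ∣ (a + b) - b * 1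
        have e : (a + b) - b * 1 = a := by ring
        rwa [e]
  · have h3 : (p : ℤ) ∣ b := hi
    obtain ⟨f1, f2, f3⟩ := g1 h3
    refine ⟨?_, fin 1 a f1 (hw a ?_ f1) ?_⟩
    · intro l hl
      fin_cases l
      · exact f1
      · exact absurd rfl hl
      · exact f2
      · exact f3
    · have e : a ^ 2 + b ^ 2 - a ^ 2 = b ^ 2 := by ring
      rw [e]
      exact Dvd.dvd.pow h3 two_ne_zero
    · intro l hl
      fin_cases l
      · show (p : ℤ) ∣ a - a * 1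
        simp
      · exact absurd rfl hl
      · show (p : ℤ) ∣ (a - b) - a * 1
        have e : (a - b) - a * 1 = -b := by ring
        rw [e]
        exact dvd_neg.2 h3
      · show (p : ℤ) ∣ (a + b) - a * 1
        have e : (a + b) - a * 1 = b := by ring
        rwa [e]
  · have h3 : (p : ℤ) ∣ a - b := hi
    obtain ⟨f1, f2, f3⟩ := g2 h3
    refine ⟨?_, fin 2 a f1 (hw2 a ?_ f1) ?_⟩
    · intro l hl
      fin_cases l
      · exact f1
      · exact f2
      · exact absurd rfl hl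
      · exact f3
    · have e : a ^ 2 + b ^ 2 - 2 * a ^ 2 = (a - b) * -(a + b) := by ring
      rw [e]
      exact Dvd.dvd.mul_right h3 _
    · intro l hl
      fin_cases l
      · show (p : ℤ) ∣ a - a * 1
        simp
      · show (p : ℤ) ∣ b - a * 1
        have e : b - a * 1 = -(a - b) := by ring
        rw [e]
        exact dvd_neg.2 h3
      · exact absurd rfl hl
      · show (p : ℤ) ∣ (a + b) - a * 2
        have e : (a + b) - a * 2 = -(a - b) := by ring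
        rw [e]
        exact dvd_neg.2 h3
  · have h3 : (p : ℤ) ∣ a + b := hi
    obtain ⟨f1, f2, f3⟩ := g3 h3
    refine ⟨?_, fin 3 a f1 (hw2 a ?_ f1) ?_⟩
    · intro l hl
      fin_cases l
      · exact f1
      · exact f2
      · exact f3
      · exact absurd rfl hl
    · have e : a ^ 2 + b ^ 2 - 2 * a ^ 2 = (a + b) * -(a - b) := by ring
      rw [e]
      exact Dvd.dvd.mul_right h3 _
    · intro l hl
      fin_cases l
      · show (p : ℤ) ∣ a - a * 1
        simp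
      · show (p : ℤ) ∣ b - a * -1
        have e : b - a * -1 = a + b := by ring
        rwa [e]
      · show (p : ℤ) ∣ (a - b) - a * 2
        have e : (a - b) - a * 2 = -(a + b) := by ring
        rw [e]
        exact dvd_neg.2 h3
      · exact absurd rfl hl

lemma Th2_half {k : ℤ} {i : Fin 4} (h : ¬ IsSquare (k2 k i)) :
    ∃ η : ℝ, 0 < η ∧ ∃ C : ℝ, ∀ z x : ℕ, 3 ≤ x →
      ∑ p ∈ PS z x, ((Th2 k i p).card : ℝ) / p ≤ (1 - η) * Real.log (Real.log x) + C := by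
  obtain ⟨C, hC⟩ := half h
  refine ⟨1 / 2, by norm_num, C, fun z x hx => ?_⟩
  refine le_trans (sum_le_sum fun p _ => ?_) (hC z x hx)
  refine div_le_div_of_nonneg_right ?_ (Nat.cast_nonneg _)
  unfold Th2
  split_ifs
  · simp
  · simp

lemma not_sq_two_mul {k : ℤ} (hk : Odd k) : ¬ IsSquare (2 * k) := by
  rintro ⟨r, hr⟩
  obtain ⟨j, rfl⟩ := hk
  have h1 : Even (r * r) := ⟨2 * j + 1, by rw [← hr]; ring⟩
  have h2 : Even r := by
    rcases Int.even_mul.1 h1 with h | h <;> exact h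
  obtain ⟨s, rfl⟩ := h2
  have : 2 * (2 * j + 1) = 4 * (s * s) := by rw [hr]; ring
  omega

lemma mean2 {k : ℤ} (hk : Odd k) (hns : ¬ IsSquare k) : Mean (Tog univ (Th2 k)) c2 ∅ univ := by
  refine meang (Th2 k) c2 ∅ univ (Or.inr (by simp)) ?_ ?_ ?_ ?_
  · intro i hi
    exact absurd hi (notMem_empty i)
  · intro _ h
    exact absurd (h (mem_univ 0)) (notMem_empty _)
  · intro i _
    apply Th2_half
    fin_cases i
    · exact hns
    · exact hns
    · exact not_sq_two_mul hk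
    · exact not_sq_two_mul hk
  · exact ⟨0, fun i hi => absurd hi (notMem_empty i)⟩

lemma mean3 : Mean (Tog univ (Th2 1)) c2 {0, 1} univ := by
  refine meang (Th2 1) c2 {0, 1} univ (Or.inr (by simp)) ?_ ?_ ?_ ?_
  · intro i hi k hk hik
    refine ⟨{2, 3}, ?_, ?_, ?_, ?_⟩
    · rw [mem_insert, mem_singleton] at hi
      rcases hi with rfl | rfl <;> decide
    · rw [mem_insert, mem_singleton] at hk
      rcases hk with rfl | rfl <;> decide
    · rw [inter_univ]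
      exact ⟨1, by decide⟩
    · have h1 : ∏ l ∈ ({2, 3} : Finset (Fin 4)), (c2 i l * c2 k l) = -1 := by
        rw [prod_pair (by decide)]
        rw [mem_insert, mem_singleton] at hi hk
        rcases hi with rfl | rfl <;> rcases hk with rfl | rfl
        · exact absurd rfl hik
        · decide
        · decide
        · exact absurd rfl hik
      rw [h1]
      exact not_sq_neg (by norm_num)
  · intro _ h
    have := h (mem_univ 2)
    revert this
    decide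
  · intro i hi
    apply Th2_half
    fin_cases i
    · exact absurd (by decide) hi
    · exact absurd (by decide) hi
    · exact not_sq_two_mul odd_one
    · exact not_sq_two_mul odd_one
  · refine ⟨2, fun i hi p hp h2 => ?_⟩
    have e1 : k2 1 i = 1 := by
      rw [mem_insert, mem_singleton] at hi
      rcases hi with rfl | rfl <;> rfl
    have e2 : Th2 1 i p = {ngs (c2 i) i p} := by
      unfold Th2
      rw [e1, if_pos (jacobiSym.one_left p)]
    rw [e2, card_singleton]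
    refine ⟨le_rfl, fun N hN => ⟨1, Or.inl rfl, fun l hl => ?_⟩⟩
    rw [mem_singleton] at hN
    subst hN
    rw [if_pos (mem_univ l), one_mul]
    have h4 : l ∈ ngs (c2 i) i p ↔ jacobiSym (c2 i l) p = -1 := by
      unfold ngs
      simp [hl]
    rcases jac_unit' hp (c2_unit hp h2 i l) with h | h
    · rw [if_neg (by rw [h4, h]; norm_num), h]
    · rw [if_pos (by rw [h4, h]), h]

/-- few `d` with a point, for nonsquare `k` -/
theorem step2 {k : ℤ} (hk : Odd k) (hns : ¬ IsSquare k) :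
    ∃ δ : ℝ, 0 < δ ∧ ∃ C : ℝ, ∀ X : ℕ, 3 ≤ X →
    ({d : ℤ | d.natAbs ≤ X ∧ Squarefree d ∧ ∃ a b w y : ℤ, IsCoprime a b ∧ y ≠ 0 ∧
      a ^ 2 + b ^ 2 = k * w ^ 2 ∧ d * y ^ 2 = a * b * (a - b) * (a + b)}.ncard : ℝ) ≤
      C * X * (Real.log X) ^ (-δ) := by
  obtain ⟨δ, hδ, C, hC⟩ := gen (P := P2 k) (Θ := Tog univ (Th2 k)) (c := c2) (L := ∅)
    (O := univ) (Tog_sub univ (Th2 k) (Th2_sub k)) (loc2 k) (mean2 hk hns)
  refine ⟨δ, hδ, C, fun X hX => le_trans ?_ (hC X hX)⟩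
  refine Nat.cast_le.2 (Set.ncard_le_ncard ?_ (Pool.Agent.TH213.SP.fin_le X _))
  rintro d ⟨h1, h2, a, b, w, y, hco, hy, hw, hd⟩
  refine ⟨h1, h2, ![a, b, a - b, a + b], y, ⟨a, b, w, hco, hw, rfl⟩, hy, ?_, ?_⟩
  · rw [hd, Fin.prod_univ_four]
    rfl
  · intro i hi
    exact absurd hi (notMem_empty i)

/-- few `d` with a point of nonconstant type, for `k = 1` -/
theorem step3 : ∃ δ : ℝ, 0 < δ ∧ ∃ C : ℝ, ∀ X : ℕ, 3 ≤ X →
    ({d : ℤ | d.natAbs ≤ X ∧ Squarefree d ∧ ∃ a b w y : ℤ, IsCoprime a b ∧ y ≠ 0 ∧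
      a ^ 2 + b ^ 2 = w ^ 2 ∧ d * y ^ 2 = a * b * (a - b) * (a + b) ∧
      ¬ (IsSquare (b * (b - a)) ∧ IsSquare (b * (b + a))) ∧
      ¬ (IsSquare (a * (a - b)) ∧ IsSquare (a * (a + b)))}.ncard : ℝ) ≤
      C * X * (Real.log X) ^ (-δ) := by
  obtain ⟨δ, hδ, C, hC⟩ := gen (P := P2 1) (Θ := Tog univ (Th2 1)) (c := c2) (L := {0, 1})
    (O := univ) (Tog_sub univ (Th2 1) (Th2_sub 1)) (loc2 1) mean3
  refine ⟨δ, hδ, C, fun X hX => le_trans ?_ (hC X hX)⟩
  refine Nat.cast_le.2 (Set.ncard_le_ncard ?_ (Pool.Agent.TH213.SP.fin_le X _))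
  rintro d ⟨h1, h2, a, b, w, y, hco, hy, hw, hd, hn0, hn1⟩
  refine ⟨h1, h2, ![a, b, a - b, a + b], y, ⟨a, b, w, hco, by rw [hw]; ring, rfl⟩, hy, ?_, ?_⟩
  · rw [hd, Fin.prod_univ_four]
    rfl
  · intro i hi
    rw [mem_insert, mem_singleton] at hi
    rcases hi with rfl | rfl
    · rw [not_and_or] at hn0
      rcases hn0 with h | h
      · refine ⟨{1, 2}, by decide, ⟨1, by decide⟩, ?_⟩
        rw [prod_pair (by decide)]
        have e : (![a, b, a - b, a + b] : Fin 4 → ℤ) 1 * c2 0 1 *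
            ((![a, b, a - b, a + b] : Fin 4 → ℤ) 2 * c2 0 2) = b * (b - a) := by
          show b * 1 * ((a - b) * -1) = b * (b - a)
          ring
        rw [e]
        exact h
      · refine ⟨{1, 3}, by decide, ⟨1, by decide⟩, ?_⟩
        rw [prod_pair (by decide)]
        have e : (![a, b, a - b, a + b] : Fin 4 → ℤ) 1 * c2 0 1 *
            ((![a, b, a - b, a + b] : Fin 4 → ℤ) 3 * c2 0 3) = b * (b + a) := by
          show b * 1 * ((a + b) * 1) = b * (b + a)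
          ring
        rw [e]
        exact h
    · rw [not_and_or] at hn1
      rcases hn1 with h | h
      · refine ⟨{0, 2}, by decide, ⟨1, by decide⟩, ?_⟩
        rw [prod_pair (by decide)]
        have e : (![a, b, a - b, a + b] : Fin 4 → ℤ) 0 * c2 1 0 *
            ((![a, b, a - b, a + b] : Fin 4 → ℤ) 2 * c2 1 2) = a * (a - b) := by
          show a * 1 * ((a - b) * 1) = a * (a - b)
          ring
        rw [e]
        exact h
      · refine ⟨{0, 3}, by decide, ⟨1, by decide⟩, ?_⟩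
        rw [prod_pair (by decide)]
        have e : (![a, b, a - b, a + b] : Fin 4 → ℤ) 0 * c2 1 0 *
            ((![a, b, a - b, a + b] : Fin 4 → ℤ) 3 * c2 1 3) = a * (a + b) := by
          show a * 1 * ((a + b) * 1) = a * (a + b)
          ring
        rw [e]
        exact h

end Pool.Agent.NH93.QT
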