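import Pool.Agent.NH93.QT.CompMain
import Pool.Agent.NH93.QT.S2

/-!
# Finitely many points of constant type, and the curves `d y² = x^n - 1`
-/

set_option autoImplicit false

namespace Pool.Agent.NH93.QT

open Finset Polynomial Pool.Agent.W262.RK Pool.Agent.W262.TW Pool.Agent.W554.TW Pool.Agent.Y488.TM

lemma few_finite {S : Set ℤ} (hS : S.Finite) : Few S := by
  refine ⟨1, one_pos, S.ncard, fun X hX => ?_⟩
  have h1 : ({d : ℤ | d.natAbs ≤ X ∧ d ∈ S}.ncard : ℝ) ≤ S.ncard :=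
    Nat.cast_le.2 (Set.ncard_le_ncard (fun d hd => hd.2) hS)
  have hl := one_le_log hX
  have hX3 : (3 : ℝ) ≤ X := by exact_mod_cast hX
  have h2 : Real.log X ≤ X := (Real.log_le_sub_one_of_pos (by linarith)).trans (by linarith)
  have h3 : 1 ≤ (X : ℝ) * (Real.log X) ^ (-(1 : ℝ)) := by
    rw [Real.rpow_neg_one, ← div_eq_mul_inv, le_div_iff₀ (by linarith), one_mul]
    exact h2
  calc _ ≤ (S.ncard : ℝ) * 1 := by rw [mul_one]; exact h1
    _ ≤ S.ncard * (X * (Real.log X) ^ (-(1 : ℝ))) :=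
        mul_le_mul_of_nonneg_left h3 (Nat.cast_nonneg _)
    _ = _ := by ring

section K

variable {K : Type} [Fintype K] [DecidableEq K]

/-- if only finitely many rational numbers are of constant type -/
theorem compM2 [Nonempty K] (h : ℤ[X]) (P : K → ℤ[X]) (L : Finset K) (H : HypC h P L)
    (hF : {t : ℚ | (∀ k, FF h P k t 1 ≠ 0) ∧ CoC h P L t 1}.Finite) :
    Few {d : ℤ | Squarefree d ∧ ∃ x w y : ℚ, PtC h P d x w y} := by
  obtain ⟨m, hm⟩ := H.even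
  set n := ∑ k, (P k).natDegree with hn
  have hsm : ∀ c x w : ℚ, ∏ k, FF h P k (c * x) (c * w) =
      ((c ^ m) ^ n) ^ 2 * ∏ k, FF h P k x w := by
    intro c x w
    simp_rw [FF_smul]
    rw [prod_mul_distrib, prod_pow_eq_pow_sum, hm, pow_add]
    ring
  have hsub : ∀ x w : ℚ, {d : ℤ | Squarefree d ∧ ∃ y, PtC h P d x w y}.Subsingleton := by
    rintro x w d ⟨h1, y, hy, h2⟩ d' ⟨h3, y', hy', h4⟩
    exact Pool.Agent.TH213.SP.eq_of h1 h3 hy hy' (h2.trans h4.symm)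
  have hfin : ((⋃ t ∈ {t : ℚ | (∀ k, FF h P k t 1 ≠ 0) ∧ CoC h P L t 1},
      {d : ℤ | Squarefree d ∧ ∃ y, PtC h P d t 1 y}) ∪
      {d : ℤ | Squarefree d ∧ ∃ y, PtC h P d 1 0 y}).Finite := by
    apply Set.Finite.union
    · exact hF.biUnion fun t _ => (hsub t 1).finite
    · exact (hsub 1 0).finite
  refine ((compM h P L H).union (few_finite hfin)).mono ?_
  rintro d ⟨hd, x, w, y, hy, hxy⟩
  by_cases hc : CoC h P L x w
  swap
  · exact Or.inl ⟨hd, x, w, y, ⟨hy, hxy⟩, hc⟩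
  right
  have hd0 : (d : ℚ) ≠ 0 := by exact_mod_cast hd.ne_zero
  have hprod : ∏ k, FF h P k x w ≠ 0 := by
    rw [← hxy]
    exact mul_ne_zero hd0 (pow_ne_zero 2 hy)
  by_cases hw : w = 0
  · right
    subst hw
    have hx : x ≠ 0 := by
      rintro rfl
      obtain ⟨k⟩ := ‹Nonempty K›
      apply hprod
      refine prod_eq_zero (mem_univ k) ?_
      have h2 := FF_smul h P k 0 0 0
      have h3 : 0 < (P k).natDegree := by
        have e1 : ((P k).map (Int.castRingHom ℚ)).natDegree = (P k).natDegree :=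
          natDegree_map_eq_of_injective (RingHom.injective_int (Int.castRingHom ℚ)) _
        have e2 : 0 < ((P k).map (Int.castRingHom ℚ)).natDegree := (H.irr k).natDegree_pos
        omega
      rw [zero_mul, zero_pow H.pos.ne', zero_pow h3.ne', zero_mul] at h2
      exact h2
    have hxn : (x ^ m) ^ n ≠ 0 := pow_ne_zero n (pow_ne_zero m hx)
    refine ⟨hd, y / (x ^ m) ^ n, div_ne_zero hy hxn, ?_⟩
    have h2 : ∏ k, FF h P k x 0 = ((x ^ m) ^ n) ^ 2 * ∏ k, FF h P k (1 : ℚ) 0 := by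
      have h1 := hsm x 1 0
      rw [mul_one, mul_zero] at h1
      exact h1
    rw [h2] at hxy
    rw [div_pow]
    field_simp
    linear_combination hxy
  · left
    have hwn : (w ^ m) ^ n ≠ 0 := pow_ne_zero n (pow_ne_zero m hw)
    have e1 : w * (x / w) = x := by field_simp
    have h2 : ∏ k, FF h P k x w = ((w ^ m) ^ n) ^ 2 * ∏ k, FF h P k (x / w) 1 := by
      have h1 := hsm w (x / w) 1
      rw [e1, mul_one] at h1
      exact h1
    rw [Set.mem_iUnion₂]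
    refine ⟨x / w, ⟨fun k hk => ?_, ?_⟩, hd, y / (w ^ m) ^ n, div_ne_zero hy hwn, ?_⟩
    · apply hprod
      rw [h2, prod_eq_zero (mem_univ k) hk, mul_zero]
    · obtain ⟨i, hi, hc⟩ := hc
      refine ⟨i, hi, fun k hk => ?_⟩
      have h3 := hc k hk
      have h4 := FF_smul h P k w (x / w) 1
      rw [e1, mul_one] at h4
      have e : FF h P k x w * aeval (rt (P i)) (P k) =
          ((w ^ m) ^ (P k).natDegree) ^ 2 * (FF h P k (x / w) 1 * aeval (rt (P i)) (P k)) := by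
        rw [h4, hm, pow_add]
        ring
      rw [e, isSquare_mul_sq (pow_ne_zero _ (pow_ne_zero _ hw))] at h3
      exact h3
    · rw [h2] at hxy
      rw [div_pow]
      field_simp
      linear_combination hxy

end K

/-! ### the curves `d y² = x^n - 1` -/

lemma core6 {d t r y : ℤ} (hd : Squarefree d) (hco : IsCoprime t r) (hy : y ≠ 0)
    (h : d * y ^ 2 = t ^ 6 - r ^ 6) : ¬ IsSquare (3 * (t ^ 4 + t ^ 2 * r ^ 2 + r ^ 4)) := by
  rintro ⟨s, hs⟩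
  have h3 : (3 : ℤ) ∣ s := by
    have h4 : (3 : ℤ) ∣ s * s := ⟨_, hs.symm⟩
    rcases Int.prime_three.dvd_or_dvd h4 with h | h <;> exact h
  obtain ⟨z, rfl⟩ := h3
  have h4 : t ^ 4 + t ^ 2 * r ^ 2 + r ^ 4 = 3 * z ^ 2 := by linarith [hs, sq z]
  have h5 := sextic_const hco h4
  have h6 : d * y ^ 2 = 0 := by
    rw [h]
    have e : t ^ 6 - r ^ 6 = (t ^ 2) ^ 3 - (r ^ 2) ^ 3 := by ring
    rw [e, h5]
    ring
  exact mul_ne_zero hd.ne_zero (pow_ne_zero 2 hy) h6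

lemma core8 {d t r y : ℤ} (hd : Squarefree d) (hco : IsCoprime t r) (hy : y ≠ 0)
    (h : d * y ^ 2 = t ^ 8 - r ^ 8) : ¬ IsSquare (2 * ((t ^ 2) ^ 2 + (r ^ 2) ^ 2)) := by
  rintro ⟨s, hs⟩
  have hse : Even s := by
    have h1 : Even (s * s) := ⟨(t ^ 2) ^ 2 + (r ^ 2) ^ 2, by rw [← hs]; ring⟩
    rcases Int.even_mul.1 h1 with h | h <;> exact h
  obtain ⟨v, rfl⟩ := hse
  have hv : t ^ 4 + r ^ 4 = 2 * v ^ 2 := by
    have e : 2 * (t ^ 4 + r ^ 4) = 4 * v ^ 2 := by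
      calc 2 * (t ^ 4 + r ^ 4) = 2 * ((t ^ 2) ^ 2 + (r ^ 2) ^ 2) := by ring
        _ = _ := by rw [hs]; ring
    linarith
  have htr : Even (t ^ 4 - r ^ 4) := by
    refine ⟨v ^ 2 - r ^ 4, ?_⟩
    linarith
  obtain ⟨z, hz⟩ := htr
  have h1 : v ^ 4 - (t * r) ^ 4 = z ^ 2 := by
    have h2 : 4 * (v ^ 4 - (t * r) ^ 4) = 4 * z ^ 2 := by
      have e1 : (t ^ 4 + r ^ 4) ^ 2 = 4 * v ^ 4 := by rw [hv]; ring
      have e2 : (t ^ 4 - r ^ 4) ^ 2 = 4 * z ^ 2 := by rw [hz]; ring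
      linear_combination e2 - e1
    linarith
  have hne : t ^ 8 - r ^ 8 ≠ 0 := by
    rw [← h]
    exact mul_ne_zero hd.ne_zero (pow_ne_zero 2 hy)
  rcases _root_.cub_fermat_sub v (t * r) z h1 with h2 | h2
  · -- `t r = 0`, then `1 = 2 v²`
    have h3 : ∀ a b : ℤ, IsCoprime a b → a = 0 → a ^ 4 + b ^ 4 = 2 * v ^ 2 → False := by
      rintro a b hab rfl hab2
      have hb : IsUnit b := isCoprime_zero_left.1 hab
      rcases Int.isUnit_iff.1 hb with rfl | rfl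
      · norm_num at hab2
        omega
      · norm_num at hab2
        omega
    rcases mul_eq_zero.1 h2 with h4 | h4
    · exact h3 t r hco h4 hv
    · exact h3 r t hco.symm h4 (by rw [add_comm]; exact hv)
  · rw [h2] at hz
    apply hne
    have : t ^ 8 - r ^ 8 = (t ^ 4 - r ^ 4) * (t ^ 4 + r ^ 4) := by ring
    rw [this, hz]
    ring

/-- integral form of a point on `d y² = x^(2m) - 1` -/
lemma integralX {d : ℤ} {m : ℕ} (hd : Squarefree d) {x y : ℚ} (hy : y ≠ 0)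
    (h : (d : ℚ) * y ^ 2 = x ^ (2 * m) - 1) : ∃ t r y₁ : ℤ, IsCoprime t r ∧ y₁ ≠ 0 ∧
      d * y₁ ^ 2 = t ^ (2 * m) - r ^ (2 * m) := by
  have hxy : ¬ (x = 0 ∧ (1 : ℚ) = 0) := fun h => one_ne_zero h.2
  obtain ⟨t, r, c, hc, hx, h1, hco⟩ := coprime_coords hxy
  have hcm : c ^ m ≠ 0 := pow_ne_zero m hc
  have h2 : (d : ℚ) * (y / c ^ m) ^ 2 = ((t ^ (2 * m) - r ^ (2 * m) : ℤ) : ℚ) := by
    have e1 : (1 : ℚ) = (c * r) ^ (2 * m) := by rw [← h1, one_pow]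
    have e2 : (d : ℚ) * y ^ 2 = (c * t) ^ (2 * m) - (c * r) ^ (2 * m) := by
      rw [h, hx, ← e1]
    rw [mul_pow, mul_pow] at e2
    push_cast
    rw [div_pow, ← pow_mul, mul_comm m 2]
    have hcm2 : c ^ (2 * m) ≠ 0 := pow_ne_zero _ hc
    field_simp
    linear_combination e2
  obtain ⟨y₁, hy₁⟩ := Pool.Agent.TH213.SP.int_of hd h2
  refine ⟨t, r, y₁, hco, ?_, ?_⟩
  · rintro rfl
    rw [Int.cast_zero, div_eq_zero_iff] at hy₁
    exact hy₁.elim hy hcm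
  · rw [hy₁] at h2
    exact_mod_cast h2

/-- the twists of `y² = x^n - 1`, `6 ∣ n` or `8 ∣ n` -/
theorem few_cyc : Few {d : ℤ | Squarefree d ∧ ∃ n : ℕ, (6 ∣ n ∨ 8 ∣ n) ∧
    ∃ x y : ℚ, y ≠ 0 ∧ (d : ℚ) * y ^ 2 = x ^ n - 1} := by
  have h1 : Few {d : ℤ | Squarefree d ∧ ∃ t r y : ℤ, IsCoprime t r ∧ y ≠ 0 ∧
      d * y ^ 2 = t ^ 4 - r ^ 4 ∧ ¬ IsSquare (2 * (t ^ 2 + r ^ 2))} := step1
  refine (h1.union step6).mono ?_
  rintro d ⟨hd, n, hn, x, y, hy, hxy⟩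
  rcases hn with ⟨k, rfl⟩ | ⟨k, rfl⟩
  · right
    have h2 : (d : ℚ) * y ^ 2 = (x ^ k) ^ (2 * 3) - 1 := by
      rw [hxy, ← pow_mul, mul_comm k]
    obtain ⟨t, r, y₁, hco, hy1, h3⟩ := integralX hd hy h2
    exact ⟨hd, t, r, y₁, hco, hy1, h3, core6 hd hco hy1 h3⟩
  · left
    have h2 : (d : ℚ) * y ^ 2 = (x ^ k) ^ (2 * 4) - 1 := by
      rw [hxy, ← pow_mul, mul_comm k]
    obtain ⟨t, r, y₁, hco, hy1, h3⟩ := integralX hd hy h2
    refine ⟨hd, t ^ 2, r ^ 2, y₁, hco.pow, hy1, ?_, core8 hd hco hy1 h3⟩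
    rw [h3]
    ring

end Pool.Agent.NH93.QT
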