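import Pool.Agent.NH93.QT.S6
import Pool.Agent.Y488.TM.Main

/-!
# Rational points of the quadratic twists of `y² = ∏ k, P k (h(x))`, `h` of even degree
-/

set_option autoImplicit false

namespace Pool.Agent.NH93.QT

open Finset Polynomial Pool.Agent.W262.RK Pool.Agent.W262.TW Pool.Agent.W554.TW Pool.Agent.Y488.TM

section K

variable {K : Type} [Fintype K]

/-- the value of `P k (h(x))` at `(x : w)`, homogenised -/
noncomputable def FF (h : ℤ[X]) (P : K → ℤ[X]) (k : K) (x w : ℚ) : ℚ :=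
  hom (P k) (hom h x w) (w ^ h.natDegree)

/-- the zero of a linear polynomial -/
noncomputable def rt (f : ℤ[X]) : ℚ := -(f.coeff 0 : ℚ) / (f.coeff 1 : ℚ)

/-- a rational point with `y ≠ 0` -/
def PtC (h : ℤ[X]) (P : K → ℤ[X]) (d : ℤ) (x w y : ℚ) : Prop :=
  y ≠ 0 ∧ (d : ℚ) * y ^ 2 = ∏ k, FF h P k x w

/-- constant type -/
def CoC (h : ℤ[X]) (P : K → ℤ[X]) (L : Finset K) (x w : ℚ) : Prop :=
  ∃ i ∈ L, ∀ k, k ≠ i → IsSquare (FF h P k x w * aeval (rt (P i)) (P k))

/-- the hypotheses -/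
structure HypC (h : ℤ[X]) (P : K → ℤ[X]) (L : Finset K) : Prop where
  even : Even h.natDegree
  pos : 0 < h.natDegree
  irr : ∀ k, Irreducible ((P k).map (Int.castRingHom ℚ))
  ass : ∀ k l, k ≠ l →
    ¬ Associated ((P k).map (Int.castRingHom ℚ)) ((P l).map (Int.castRingHom ℚ))
  lin : ∀ i ∈ L, (P i).natDegree = 1
  nonlin : ∀ i, i ∉ L → 2 ≤ (P i).natDegree ∨
    Irreducible (((P i).comp h).map (Int.castRingHom ℚ))
  pair : ∀ i ∈ L, ∀ k ∈ L, i ≠ k → ∃ l, l ≠ i ∧ l ≠ k ∧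
    ¬ IsSquare (aeval (rt (P i)) (P l) * aeval (rt (P k)) (P l))

omit [Fintype K] in
lemma FF_smul (h : ℤ[X]) (P : K → ℤ[X]) (k : K) (c x w : ℚ) :
    FF h P k (c * x) (c * w) = (c ^ h.natDegree) ^ (P k).natDegree * FF h P k x w := by
  unfold FF
  rw [Pool.Agent.Y488.TM.hom_smul, mul_pow, Pool.Agent.Y488.TM.hom_smul]

omit [Fintype K] in
lemma FF_cast (h : ℤ[X]) (P : K → ℤ[X]) (k : K) (x w : ℤ) :
    FF h P k (x : ℚ) (w : ℚ) = ((hom (P k) (hom h x w) (w ^ h.natDegree) : ℤ) : ℚ) := by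
  unfold FF
  rw [homQ, ← Int.cast_pow, homQ]

omit [Fintype K] in
/-- `cc0 P i k` is the square class of `P k` at the zero of `P i` -/
lemma cc0_eq (P : K → ℤ[X]) {i : K} (hi : (P i).natDegree = 1) (k : K) :
    ((cc0 P i k : ℤ) : ℚ) =
      (((P i).coeff 1 : ℚ) ^ (P k).natDegree) ^ 2 * aeval (rt (P i)) (P k) := by
  have hα : ((P i).coeff 1 : ℚ) ≠ 0 := by
    have h2 : (P i).leadingCoeff ≠ 0 := by
      rw [Ne, leadingCoeff_eq_zero]
      rintro h0
      rw [h0] at hi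
      simp at hi
    rw [leadingCoeff, hi] at h2
    exact_mod_cast h2
  unfold cc0 Pool.Agent.Y488.TM.val
  rw [Int.cast_mul, Int.cast_pow, ← homQ]
  have h1 : (((-(P i).coeff 0 : ℤ)) : ℚ) = ((P i).coeff 1 : ℚ) * rt (P i) := by
    unfold rt
    push_cast
    field_simp
  have h2 : (((P i).coeff 1 : ℤ) : ℚ) = ((P i).coeff 1 : ℚ) * 1 := by rw [mul_one]
  rw [h1]
  nth_rewrite 3 [h2]
  rw [Pool.Agent.Y488.TM.hom_smul, Pool.Agent.W975.TW.hom_one, aeval_def]
  have h3 : (P k).eval₂ (Int.castRingHom ℚ) (rt (P i)) =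
      (P k).eval₂ (algebraMap ℤ ℚ) (rt (P i)) := by
    congr 1
  rw [h3]
  ring

lemma isSquare_mul_sq {c a : ℚ} (hc : c ≠ 0) : IsSquare (c ^ 2 * a) ↔ IsSquare a := by
  constructor
  · rintro ⟨r, hr⟩
    refine ⟨r / c, ?_⟩
    field_simp
    linear_combination hr
  · rintro ⟨r, rfl⟩
    exact ⟨c * r, by ring⟩

variable [DecidableEq K]

/-- few squarefree `d` have a point of nonconstant type -/
theorem compM (h : ℤ[X]) (P : K → ℤ[X]) (L : Finset K) (H : HypC h P L) :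
    Few {d : ℤ | Squarefree d ∧ ∃ x w y : ℚ, PtC h P d x w y ∧ ¬ CoC h P L x w} := by
  classical
  have hα : ∀ i ∈ L, ((P i).coeff 1 : ℚ) ≠ 0 := by
    intro i hi
    have hd := H.lin i hi
    have h2 : (P i).leadingCoeff ≠ 0 := by
      rw [Ne, leadingCoeff_eq_zero]
      rintro h0
      rw [h0] at hd
      simp at hd
    rw [leadingCoeff, hd] at h2
    exact_mod_cast h2
  have hmain := comp_few h H.even H.pos P H.irr H.ass L
    (by
      intro i hi
      unfold Ln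
      rw [mem_filter]
      exact ⟨mem_univ _, H.lin i hi⟩)
    (by
      intro i hi hiL
      unfold Ln at hi
      rw [mem_filter] at hi
      rcases H.nonlin i hiL with h1 | h1
      · omega
      · exact h1)
    (by
      intro i hi k hk hik
      obtain ⟨l, h1, h2, h3⟩ := H.pair i hi k hk hik
      refine ⟨{l}, by rw [mem_singleton]; exact h1.symm, by rw [mem_singleton]; exact h2.symm, ?_⟩
      rw [prod_singleton]
      intro h4
      apply h3
      rw [← Rat.isSquare_intCast_iff, Int.cast_mul, cc0_eq P (H.lin i hi), cc0_eq P (H.lin k hk)]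
        at h4
      have e : (((P i).coeff 1 : ℚ) ^ (P l).natDegree) ^ 2 * aeval (rt (P i)) (P l) *
          ((((P k).coeff 1 : ℚ) ^ (P l).natDegree) ^ 2 * aeval (rt (P k)) (P l)) =
          ((((P i).coeff 1 : ℚ) ^ (P l).natDegree) * (((P k).coeff 1 : ℚ) ^ (P l).natDegree)) ^ 2 *
          (aeval (rt (P i)) (P l) * aeval (rt (P k)) (P l)) := by ring
      rw [e, isSquare_mul_sq] at h4
      · exact h4
      · exact mul_ne_zero (pow_ne_zero _ (hα i hi)) (pow_ne_zero _ (hα k hk)))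
  refine Few.mono (T := {d : ℤ | Squarefree d ∧ BadV (PCo h P) (cc0 P) L ∅ d}) hmain ?_
  rintro d ⟨hd, x, w, y, ⟨hy, hxy⟩, hnc⟩
  refine ⟨hd, ?_⟩
  have hd0 : (d : ℚ) ≠ 0 := by exact_mod_cast hd.ne_zero
  by_cases hxw : x = 0 ∧ w = 0
  · -- then `K` is empty, and `d = 1`
    obtain ⟨rfl, rfl⟩ := hxw
    have hK : IsEmpty K := by
      by_contra hne
      rw [not_isEmpty_iff] at hne
      obtain ⟨k⟩ := hne
      have h1 : (d : ℚ) * y ^ 2 = 0 := by
        rw [hxy]
        refine prod_eq_zero (mem_univ k) ?_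
        have h2 := FF_smul h P k 0 0 0
        have h3 : 0 < (P k).natDegree := by
          have e1 : ((P k).map (Int.castRingHom ℚ)).natDegree = (P k).natDegree :=
            natDegree_map_eq_of_injective (RingHom.injective_int (Int.castRingHom ℚ)) _
          have e2 : 0 < ((P k).map (Int.castRingHom ℚ)).natDegree := (H.irr k).natDegree_pos
          omega
        rw [zero_mul, zero_pow H.pos.ne', zero_pow h3.ne', zero_mul] at h2
        exact h2
      exact mul_ne_zero hd0 (pow_ne_zero 2 hy) h1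
    have h1 : (d : ℚ) * y ^ 2 = ((1 : ℤ) : ℚ) := by
      rw [hxy, Finset.univ_eq_empty, prod_empty, Int.cast_one]
    obtain ⟨y', hy'⟩ := Pool.Agent.TH213.SP.int_of hd h1
    refine ⟨_, y', ⟨1, 0, isCoprime_one_left, rfl⟩, ?_, ?_, ?_⟩
    · rintro rfl
      rw [Int.cast_zero] at hy'
      exact hy hy'
    · rw [hy'] at h1
      rw [Finset.univ_eq_empty, prod_empty]
      exact_mod_cast h1
    · intro i _
      exact (hK.false i).elim
  obtain ⟨x', w', c, hc, hx, hw, hco⟩ := coprime_coords hxw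
  -- the total degree is even
  obtain ⟨m, hm⟩ := H.even
  have hprod : ∏ k, FF h P k x w = ((c ^ m) ^ ∑ k, (P k).natDegree) ^ 2 *
      ((∏ k, hom (P k) (hom h x' w') (w' ^ h.natDegree) : ℤ) : ℚ) := by
    rw [hx, hw]
    simp_rw [FF_smul, FF_cast]
    rw [prod_mul_distrib, prod_pow_eq_pow_sum, hm, pow_add]
    push_cast
    ring
  have hcn : (c ^ m) ^ ∑ k, (P k).natDegree ≠ 0 := pow_ne_zero _ (pow_ne_zero _ hc)
  have h1 : (d : ℚ) * (y / (c ^ m) ^ ∑ k, (P k).natDegree) ^ 2 =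
      ((∏ k, hom (P k) (hom h x' w') (w' ^ h.natDegree) : ℤ) : ℚ) := by
    rw [div_pow, mul_div_assoc', hxy, hprod, mul_div_cancel_left₀]
    exact pow_ne_zero 2 hcn
  obtain ⟨y', hy'⟩ := Pool.Agent.TH213.SP.int_of hd h1
  refine ⟨_, y', ⟨x', w', hco, rfl⟩, ?_, ?_, ?_⟩
  · rintro rfl
    rw [Int.cast_zero, div_eq_zero_iff] at hy'
    exact hy'.elim hy hcn
  · rw [hy'] at h1
    exact_mod_cast h1
  · intro i hi
    by_contra hne
    push Not at hne
    apply hnc
    refine ⟨i, hi, fun k hk => ?_⟩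
    have h2 := hne {k} (by rw [mem_singleton]; exact hk.symm) (by simp)
    rw [prod_singleton, ← Rat.isSquare_intCast_iff, Int.cast_mul, cc0_eq P (H.lin i hi),
      ← FF_cast] at h2
    have e : FF h P k (x' : ℚ) (w' : ℚ) * ((((P i).coeff 1 : ℚ) ^ (P k).natDegree) ^ 2 *
        aeval (rt (P i)) (P k)) = (((P i).coeff 1 : ℚ) ^ (P k).natDegree) ^ 2 *
        (FF h P k (x' : ℚ) (w' : ℚ) * aeval (rt (P i)) (P k)) := by ring
    rw [e, isSquare_mul_sq (pow_ne_zero _ (hα i hi))] at h2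
    have e2 : FF h P k x w * aeval (rt (P i)) (P k) =
        ((c ^ m) ^ (P k).natDegree) ^ 2 * (FF h P k (x' : ℚ) (w' : ℚ) * aeval (rt (P i)) (P k)) := by
      rw [hx, hw, FF_smul, hm, pow_add]
      ring
    rw [e2, isSquare_mul_sq (pow_ne_zero _ (pow_ne_zero _ hc))]
    exact h2

end K

end Pool.Agent.NH93.QT
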