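import Mathlib
import Pool.Agent.TH213.SP.Red
import Pool.Agent.Helper653.CubFermat

/-!
# The curve `y⁴ = x⁴ + d`: two descents
-/

set_option autoImplicit false

namespace Pool.Agent.NH93.QT

/-- coprime integral coordinates -/
lemma coprime_coords {x w : ℚ} (hxw : ¬ (x = 0 ∧ w = 0)) : ∃ (x' w' : ℤ) (c : ℚ), c ≠ 0 ∧
    x = c * x' ∧ w = c * w' ∧ IsCoprime x' w' := by
  have hxd : (x.den : ℚ) ≠ 0 := by exact_mod_cast x.den_nz
  have hwd : (w.den : ℚ) ≠ 0 := by exact_mod_cast w.den_nz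
  have hx : x * x.den = x.num := Rat.mul_den_eq_num x
  have hw : w * w.den = w.num := Rat.mul_den_eq_num w
  have hg : 0 < Int.gcd (x.num * w.den) (w.num * x.den) := by
    rw [Nat.pos_iff_ne_zero, Ne, Int.gcd_eq_zero_iff]
    rintro ⟨h1, h2⟩
    apply hxw
    have h3 : (w.den : ℤ) ≠ 0 := by exact_mod_cast w.den_nz
    have h4 : (x.den : ℤ) ≠ 0 := by exact_mod_cast x.den_nz
    refine ⟨?_, ?_⟩
    · rw [← Rat.num_eq_zero]
      exact (mul_eq_zero.1 h1).resolve_right h3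
    · rw [← Rat.num_eq_zero]
      exact (mul_eq_zero.1 h2).resolve_right h4
  obtain ⟨x', w', h1, h2, h3⟩ := Int.exists_gcd_one hg
  generalize hgd : Int.gcd (x.num * w.den) (w.num * x.den) = g at *
  have hg0 : (g : ℚ) ≠ 0 := by exact_mod_cast hg.ne'
  have h2q : (x.num : ℚ) * w.den = x' * g := by exact_mod_cast h2
  have h3q : (w.num : ℚ) * x.den = w' * g := by exact_mod_cast h3
  refine ⟨x', w', g / (x.den * w.den), div_ne_zero hg0 (mul_ne_zero hxd hwd), ?_, ?_,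
    Int.isCoprime_iff_gcd_eq_one.2 h1⟩
  · field_simp
    rw [← hx] at h2q
    linear_combination h2q
  · field_simp
    rw [← hw] at h3q
    linear_combination h3q

/-- integral form of a point -/
lemma integral4 {d m : ℤ} (hd : Squarefree d) (hm : m ≠ 0) {x y : ℚ}
    (h : y ^ 4 = x ^ 4 + d * m ^ 2) : ∃ (t r y₁ : ℤ) (σ : ℚ), IsCoprime t r ∧ y₁ ≠ 0 ∧
      d * y₁ ^ 2 = t ^ 4 - r ^ 4 ∧ (y₁ : ℚ) = m * σ ^ 2 := by
  have hd0 : (d : ℚ) ≠ 0 := by exact_mod_cast hd.ne_zero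
  have hm0 : (m : ℚ) ≠ 0 := by exact_mod_cast hm
  have hxy : ¬ (y = 0 ∧ x = 0) := by
    rintro ⟨rfl, rfl⟩
    have h1 : (d : ℚ) * m ^ 2 = 0 := by linear_combination -h
    exact mul_ne_zero hd0 (pow_ne_zero 2 hm0) h1
  obtain ⟨t, r, c, hc, hy, hx, hco⟩ := coprime_coords hxy
  have h1 : (d : ℚ) * (m * c⁻¹ ^ 2) ^ 2 = ((t ^ 4 - r ^ 4 : ℤ) : ℚ) := by
    rw [hy, hx] at h
    push_cast
    field_simp
    linear_combination -h
  obtain ⟨y₁, hy₁⟩ := Pool.Agent.TH213.SP.int_of hd h1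
  refine ⟨t, r, y₁, c⁻¹, hco, ?_, ?_, hy₁.symm⟩
  · rintro rfl
    rw [Int.cast_zero] at hy₁
    exact mul_ne_zero hm0 (pow_ne_zero 2 (inv_ne_zero hc)) hy₁
  · rw [hy₁] at h1
    exact_mod_cast h1

/-- the second descent -/
lemma second {d t r y₁ : ℤ} (hd : Squarefree d) (hco : IsCoprime t r) (hy : y₁ ≠ 0)
    (h : d * y₁ ^ 2 = t ^ 4 - r ^ 4) (hsq : IsSquare (2 * (t ^ 2 + r ^ 2))) :
    ∃ a b y₂ : ℤ, IsCoprime a b ∧ Odd (a ^ 2 + b ^ 2) ∧ y₂ ≠ 0 ∧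
      d * y₂ ^ 2 = a * b * (a - b) * (a + b) ∧ y₁ = 4 * (a ^ 2 + b ^ 2) * y₂ := by
  obtain ⟨s, hs⟩ := hsq
  have hse : Even s := by
    have h1 : Even (s * s) := ⟨t ^ 2 + r ^ 2, by rw [← hs]; ring⟩
    rcases Int.even_mul.1 h1 with h | h <;> exact h
  obtain ⟨v, rfl⟩ := hse
  have hv : t ^ 2 + r ^ 2 = 2 * v ^ 2 := by linarith [hs, sq v]
  have htr : Even (t + r) := by
    have h1 : Even (t ^ 2 + r ^ 2) := ⟨v ^ 2, by rw [hv]; ring⟩
    rw [Int.even_add, Int.even_pow' two_ne_zero, Int.even_pow' two_ne_zero] at h1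
    exact Int.even_add.2 h1
  obtain ⟨A, hA⟩ := htr
  obtain ⟨B, hB⟩ : ∃ B, B = t - A := ⟨_, rfl⟩
  have ht : t = A + B := by omega
  have hr : r = A - B := by omega
  subst ht
  subst hr
  have hAB : IsCoprime A B := by
    obtain ⟨p, q, hpq⟩ := hco
    exact ⟨p + q, p - q, by linear_combination hpq⟩
  have hpy : PythagoreanTriple A B v := by
    unfold PythagoreanTriple
    linarith [hv, sq A, sq B, sq v, show (A + B) ^ 2 + (A - B) ^ 2 = 2 * (A * A + B * B) by ring,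
      show v ^ 2 = v * v by ring]
  obtain ⟨a, b, hab, hvab, hgcd, hpar⟩ := PythagoreanTriple.coprime_classification.1
    ⟨hpy, Int.isCoprime_iff_gcd_eq_one.1 hAB⟩
  have hodd : Odd (a ^ 2 + b ^ 2) := by
    rw [Int.odd_add, Int.even_pow' two_ne_zero, Int.odd_pow' two_ne_zero, Int.odd_iff,
      Int.even_iff]
    omega
  have hAB2 : A * B = 2 * a * b * (a ^ 2 - b ^ 2) := by
    rcases hab with ⟨rfl, rfl⟩ | ⟨rfl, rfl⟩ <;> ring
  have hv2 : v ^ 2 = (a ^ 2 + b ^ 2) ^ 2 := by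
    rcases hvab with rfl | rfl <;> ring
  have hn : a ^ 2 + b ^ 2 ≠ 0 := by
    intro h0
    rw [h0] at hodd
    exact absurd hodd (by decide)
  have hnq : ((a ^ 2 + b ^ 2 : ℤ) : ℚ) ≠ 0 := by exact_mod_cast hn
  have h1 : d * y₁ ^ 2 = (4 * (a ^ 2 + b ^ 2)) ^ 2 * (a * b * (a - b) * (a + b)) := by
    rw [h]
    have e1 : (A + B) ^ 4 - (A - B) ^ 4 = 8 * (A * B) * (A ^ 2 + B ^ 2) := by ring
    have e2 : A ^ 2 + B ^ 2 = v ^ 2 := by
      have := hpy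
      unfold PythagoreanTriple at this
      linarith [sq A, sq B, sq v]
    rw [e1, e2, hAB2, hv2]
    ring
  have h2 : (d : ℚ) * ((y₁ : ℚ) / (4 * ((a ^ 2 + b ^ 2 : ℤ) : ℚ))) ^ 2 =
      ((a * b * (a - b) * (a + b) : ℤ) : ℚ) := by
    have h3 : (d : ℚ) * (y₁ : ℚ) ^ 2 =
        (4 * ((a ^ 2 + b ^ 2 : ℤ) : ℚ)) ^ 2 * ((a * b * (a - b) * (a + b) : ℤ) : ℚ) := by
      exact_mod_cast h1
    rw [div_pow, mul_div_assoc', h3, mul_div_cancel_left₀]
    exact pow_ne_zero 2 (mul_ne_zero (by norm_num) hnq)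
  obtain ⟨y₂, hy₂⟩ := Pool.Agent.TH213.SP.int_of hd h2
  rw [div_eq_iff (mul_ne_zero (by norm_num) hnq)] at hy₂
  have hy3 : y₁ = 4 * (a ^ 2 + b ^ 2) * y₂ := by
    have : (y₁ : ℚ) = ((4 * (a ^ 2 + b ^ 2) * y₂ : ℤ) : ℚ) := by
      rw [hy₂]
      push_cast
      ring
    exact_mod_cast this
  refine ⟨a, b, y₂, Int.isCoprime_iff_gcd_eq_one.2 hgcd, hodd, ?_, ?_, hy3⟩
  · rintro rfl
    apply hy
    rw [hy3, mul_zero]
  · have h4 : (4 * (a ^ 2 + b ^ 2)) ^ 2 * (d * y₂ ^ 2) =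
        (4 * (a ^ 2 + b ^ 2)) ^ 2 * (a * b * (a - b) * (a + b)) := by
      rw [← h1, hy3]
      ring
    exact mul_left_cancel₀ (pow_ne_zero 2 (mul_ne_zero (by norm_num) hn)) h4

/-- no point of constant type -/
lemma no_const {a b w : ℤ} (ha : a ≠ 0) (hb : b ≠ 0) (hab : a ^ 2 ≠ b ^ 2)
    (hw : a ^ 2 + b ^ 2 = w ^ 2) (h1 : IsSquare (b * (b - a))) (h2 : IsSquare (b * (b + a))) :
    False := by
  obtain ⟨r, hr⟩ := h1
  obtain ⟨s, hs⟩ := h2
  have h3 : b ^ 2 * (b ^ 2 - a ^ 2) = (r * s) ^ 2 := by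
    calc b ^ 2 * (b ^ 2 - a ^ 2) = (b * (b - a)) * (b * (b + a)) := by ring
      _ = (r * r) * (s * s) := by rw [hr, hs]
      _ = _ := by ring
  have h4 : b ∣ r * s := (Int.pow_dvd_pow_iff two_ne_zero).1 ⟨_, h3.symm⟩
  obtain ⟨j, hj⟩ := h4
  have h5 : b ^ 2 - a ^ 2 = j ^ 2 := by
    have : b ^ 2 * (b ^ 2 - a ^ 2) = b ^ 2 * j ^ 2 := by
      rw [h3, hj]
      ring
    exact mul_left_cancel₀ (pow_ne_zero 2 hb) this
  have h6 : w ^ 4 - j ^ 4 = (2 * a * b) ^ 2 := by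
    have e1 : w ^ 4 = (a ^ 2 + b ^ 2) ^ 2 := by rw [hw]; ring
    have e2 : j ^ 4 = (b ^ 2 - a ^ 2) ^ 2 := by rw [h5]; ring
    rw [e1, e2]
    ring
  rcases _root_.cub_fermat_sub w j (2 * a * b) h6 with h | h
  · rw [h] at h5
    apply hab
    linarith [h5]
  · exact mul_ne_zero (mul_ne_zero two_ne_zero ha) hb h

/-- the primes dividing the squarefree part of `a² + b²` -/
lemma dvd_m {d m a b y₂ : ℤ} {σ : ℚ} {k : ℕ} {w : ℤ} (hco : IsCoprime a b)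
    (hodd : Odd (a ^ 2 + b ^ 2))
    (hd : d * y₂ ^ 2 = a * b * (a - b) * (a + b)) (hk : Squarefree k)
    (hw : a ^ 2 + b ^ 2 = k * w ^ 2)
    (hσ : ((4 * (a ^ 2 + b ^ 2) * y₂ : ℤ) : ℚ) = m * σ ^ 2) : k ∣ m.natAbs := by
  have hn : a ^ 2 + b ^ 2 ≠ 0 := by
    intro h0
    rw [h0] at hodd
    exact absurd hodd (by decide)
  have hw0 : w ≠ 0 := by
    rintro rfl
    apply hn
    rw [hw]
    ring
  have hsq : IsSquare (m * k * y₂) := by
    rw [← Rat.isSquare_intCast_iff]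
    refine ⟨m * σ / (2 * w), ?_⟩
    have hwq : (w : ℚ) ≠ 0 := by exact_mod_cast hw0
    rw [hw] at hσ
    push_cast at hσ ⊢
    field_simp
    linear_combination (m : ℚ) * hσ
  have hkz : Squarefree (k : ℤ) := Int.squarefree_natCast.2 hk
  have hprime : ∀ p : ℕ, p.Prime → p ∣ k → (p : ℤ) ∣ m := by
    intro p hp hpk
    have hpz := Nat.prime_iff_prime_int.1 hp
    by_contra hpm
    have hpk' : (p : ℤ) ∣ k := by exact_mod_cast hpk
    have hpn : (p : ℤ) ∣ a ^ 2 + b ^ 2 := by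
      rw [hw]
      exact Dvd.dvd.mul_right hpk' _
    have hp2 : ¬ (p : ℤ) ∣ 2 := by
      intro h2
      have h3 : (p : ℕ) ∣ 2 := by exact_mod_cast h2
      have h4 : p = 2 := (Nat.prime_dvd_prime_iff_eq hp Nat.prime_two).1 h3
      rw [h4] at hpn
      rw [← Int.not_even_iff_odd, even_iff_two_dvd] at hodd
      exact hodd hpn
    have hab : ¬ ((p : ℤ) ∣ a ∧ (p : ℤ) ∣ b) := fun h =>
      hpz.not_isUnit (hco.isUnit_of_dvd' h.1 h.2)
    have hpy : ¬ (p : ℤ) ∣ y₂ := by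
      intro h1
      have h2 : (p : ℤ) ∣ a * b * (a - b) * (a + b) := by
        rw [← hd]
        exact Dvd.dvd.mul_left (Dvd.dvd.pow h1 two_ne_zero) _
      have hpa : (p : ℤ) ∣ a → False := by
        intro h
        apply hab
        refine ⟨h, ?_⟩
        have h3 : (p : ℤ) ∣ b ^ 2 := by
          have := dvd_sub hpn (Dvd.dvd.pow h two_ne_zero)
          have e : a ^ 2 + b ^ 2 - a ^ 2 = b ^ 2 := by ring
          rwa [e] at this
        exact hpz.dvd_of_dvd_pow h3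
      have hpb : (p : ℤ) ∣ b → False := by
        intro h
        apply hab
        refine ⟨?_, h⟩
        have h3 : (p : ℤ) ∣ a ^ 2 := by
          have := dvd_sub hpn (Dvd.dvd.pow h two_ne_zero)
          have e : a ^ 2 + b ^ 2 - b ^ 2 = a ^ 2 := by ring
          rwa [e] at this
        exact hpz.dvd_of_dvd_pow h3
      have hpc : (p : ℤ) ∣ (a - b) * (a + b) → False := by
        intro h
        have h3 : (p : ℤ) ∣ 2 * a ^ 2 := by
          have := dvd_add hpn h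
          have e : a ^ 2 + b ^ 2 + (a - b) * (a + b) = 2 * a ^ 2 := by ring
          rwa [e] at this
        rcases hpz.dvd_or_dvd h3 with h4 | h4
        · exact hp2 h4
        · exact hpa (hpz.dvd_of_dvd_pow h4)
      rw [mul_assoc] at h2
      rcases hpz.dvd_or_dvd h2 with h3 | h3
      · rcases hpz.dvd_or_dvd h3 with h4 | h4
        · exact hpa h4
        · exact hpb h4
      · exact hpc h3
    obtain ⟨s, hs⟩ := hsq
    have h1 : (p : ℤ) ∣ s * s := by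
      rw [← hs]
      exact Dvd.dvd.mul_right (Dvd.dvd.mul_left hpk' _) _
    have h2 : (p : ℤ) ∣ s := by
      rcases hpz.dvd_or_dvd h1 with h | h <;> exact h
    have h3 : (p : ℤ) * p ∣ (m * y₂) * k := by
      have e : m * y₂ * k = s * s := by rw [← hs]; ring
      rw [e]
      exact mul_dvd_mul h2 h2
    have h4 : IsCoprime ((p : ℤ) * p) (m * y₂) := by
      have h5 : IsCoprime (p : ℤ) m := (hpz.coprime_iff_not_dvd).2 hpm
      have h6 : IsCoprime (p : ℤ) y₂ := (hpz.coprime_iff_not_dvd).2 hpy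
      exact (h5.mul_right h6).mul_left (h5.mul_right h6)
    have h5 : (p : ℤ) * p ∣ k := h4.dvd_of_dvd_mul_left h3
    exact hpz.not_isUnit (hkz _ h5)
  rw [← Nat.prod_primeFactors_of_squarefree hk]
  apply Finset.prod_primes_dvd
  · intro p hp
    exact (Nat.prime_of_mem_primeFactors hp).prime
  · intro p hp
    exact Int.natCast_dvd.1 (hprime p (Nat.prime_of_mem_primeFactors hp)
      (Nat.dvd_of_mem_primeFactors hp))

/-- the three kinds of points -/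
theorem three {d m : ℤ} (hd : Squarefree d) (hm : m ≠ 0) {x y : ℚ}
    (h : y ^ 4 = x ^ 4 + d * m ^ 2) :
    (∃ t r y : ℤ, IsCoprime t r ∧ y ≠ 0 ∧ d * y ^ 2 = t ^ 4 - r ^ 4 ∧
      ¬ IsSquare (2 * (t ^ 2 + r ^ 2))) ∨
    (∃ k ∈ m.natAbs.divisors, Odd (k : ℤ) ∧ ¬ IsSquare (k : ℤ) ∧ ∃ a b w y : ℤ, IsCoprime a b ∧
      y ≠ 0 ∧ a ^ 2 + b ^ 2 = k * w ^ 2 ∧ d * y ^ 2 = a * b * (a - b) * (a + b)) ∨
    (∃ a b w y : ℤ, IsCoprime a b ∧ y ≠ 0 ∧
      a ^ 2 + b ^ 2 = w ^ 2 ∧ d * y ^ 2 = a * b * (a - b) * (a + b) ∧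
      ¬ (IsSquare (b * (b - a)) ∧ IsSquare (b * (b + a))) ∧
      ¬ (IsSquare (a * (a - b)) ∧ IsSquare (a * (a + b)))) := by
  obtain ⟨t, r, y₁, σ, hco, hy1, h1, hσ⟩ := integral4 hd hm h
  by_cases hsq : IsSquare (2 * (t ^ 2 + r ^ 2))
  swap
  · exact Or.inl ⟨t, r, y₁, hco, hy1, h1, hsq⟩
  right
  obtain ⟨a, b, y₂, hab, hodd, hy2, h2, h3⟩ := second hd hco hy1 h1 hsq
  obtain ⟨k, w, hkw, hk⟩ := Nat.sq_mul_squarefree (a ^ 2 + b ^ 2).natAbs
  have hpos : 0 ≤ a ^ 2 + b ^ 2 := by positivity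
  have hw : a ^ 2 + b ^ 2 = k * (w : ℤ) ^ 2 := by
    have h5 : ((a ^ 2 + b ^ 2).natAbs : ℤ) = a ^ 2 + b ^ 2 := Int.natAbs_of_nonneg hpos
    rw [← h5, ← hkw]
    push_cast
    ring
  have hkm : k ∣ m.natAbs := by
    refine dvd_m hab hodd h2 hk hw (σ := σ) ?_
    rw [← h3]
    exact hσ
  have hkodd : Odd (k : ℤ) := by
    rw [hw] at hodd
    exact (Int.odd_mul.1 hodd).1
  have hprod : a * b * (a - b) * (a + b) ≠ 0 := by
    rw [← h2]
    exact mul_ne_zero hd.ne_zero (pow_ne_zero 2 hy2)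
  have ha : a ≠ 0 := fun h => hprod (by rw [h]; ring)
  have hb : b ≠ 0 := fun h => hprod (by rw [h]; ring)
  have hne : a ^ 2 ≠ b ^ 2 := by
    intro h
    apply hprod
    have : a * b * (a - b) * (a + b) = a * b * (a ^ 2 - b ^ 2) := by ring
    rw [this, h]
    ring
  by_cases hk1 : k = 1
  · right
    have hw' : a ^ 2 + b ^ 2 = (w : ℤ) ^ 2 := by rw [hw, hk1]; push_cast; ring
    refine ⟨a, b, w, y₂, hab, hy2, hw', h2, ?_, ?_⟩
    · rintro ⟨g1, g2⟩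
      exact no_const ha hb hne hw' g1 g2
    · rintro ⟨g1, g2⟩
      refine no_const hb ha hne.symm (by rw [add_comm]; exact hw') g1 g2
  · left
    refine ⟨k, Nat.mem_divisors.2 ⟨hkm, Int.natAbs_ne_zero.2 hm⟩, hkodd, ?_, a, b, w, y₂, hab, hy2,
      hw, h2⟩
    rintro ⟨j, hj⟩
    apply hk1
    have h5 : Squarefree (k : ℤ) := Int.squarefree_natCast.2 hk
    have h6 : IsUnit j := h5 j ⟨1, by rw [hj]; ring⟩
    rcases Int.isUnit_iff.1 h6 with rfl | rfl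
    · exact_mod_cast hj
    · have : (k : ℤ) = 1 := by rw [hj]; norm_num
      exact_mod_cast this

end Pool.Agent.NH93.QT
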