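import Mathlib

/-!
# Sets with `O(X (log X)^(-δ))` elements up to `X`, and density zero
-/

set_option autoImplicit false

namespace Pool.Agent.NH93.QT

open Finset Filter Topology

/-- at most `C X (log X)^(-δ)` elements of absolute value at most `X` -/
def Few (S : Set ℤ) : Prop := ∃ δ : ℝ, 0 < δ ∧ ∃ C : ℝ, ∀ X : ℕ, 3 ≤ X →
  ({d : ℤ | d.natAbs ≤ X ∧ d ∈ S}.ncard : ℝ) ≤ C * X * (Real.log X) ^ (-δ)

lemma fin_few (X : ℕ) (S : Set ℤ) : {d : ℤ | d.natAbs ≤ X ∧ d ∈ S}.Finite := by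
  apply (Set.finite_Icc (-(X : ℤ)) X).subset
  intro d hd
  have h1 : d.natAbs ≤ X := hd.1
  rw [Set.mem_Icc]
  omega

lemma one_le_log {X : ℕ} (hX : 3 ≤ X) : 1 ≤ Real.log X := by
  have h3 : (3 : ℝ) ≤ X := by exact_mod_cast hX
  rw [Real.le_log_iff_exp_le (by linarith)]
  have := Real.exp_one_lt_d9
  linarith

lemma Few.mono {S T : Set ℤ} (hT : Few T) (h : S ⊆ T) : Few S := by
  obtain ⟨δ, hδ, C, hC⟩ := hT
  refine ⟨δ, hδ, C, fun X hX => le_trans ?_ (hC X hX)⟩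
  refine Nat.cast_le.2 (Set.ncard_le_ncard ?_ (fin_few X T))
  rintro d ⟨h1, h2⟩
  exact ⟨h1, h h2⟩

lemma Few.union {S T : Set ℤ} (hS : Few S) (hT : Few T) : Few (S ∪ T) := by
  obtain ⟨δ, hδ, C, hC⟩ := hS
  obtain ⟨ε, hε, D, hD⟩ := hT
  refine ⟨min δ ε, lt_min hδ hε, |C| + |D|, fun X hX => ?_⟩
  have hl := one_le_log hX
  have hX0 : (0 : ℝ) ≤ X := Nat.cast_nonneg _
  have h1 : ({d : ℤ | d.natAbs ≤ X ∧ d ∈ S ∪ T}.ncard : ℝ) ≤
      ({d : ℤ | d.natAbs ≤ X ∧ d ∈ S}.ncard : ℝ) + ({d : ℤ | d.natAbs ≤ X ∧ d ∈ T}.ncard : ℝ) := by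
    have e : {d : ℤ | d.natAbs ≤ X ∧ d ∈ S ∪ T} =
        {d : ℤ | d.natAbs ≤ X ∧ d ∈ S} ∪ {d : ℤ | d.natAbs ≤ X ∧ d ∈ T} := by
      ext d
      simp only [Set.mem_ofPred_eq, Set.mem_union]
      tauto
    rw [e]
    exact_mod_cast Set.ncard_union_le _ _
  have key : ∀ (E α : ℝ), min δ ε ≤ α →
      E * X * (Real.log X) ^ (-α) ≤ |E| * X * (Real.log X) ^ (-min δ ε) := by
    intro E α hα
    have h2 : (Real.log X) ^ (-α) ≤ (Real.log X) ^ (-min δ ε) :=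
      Real.rpow_le_rpow_of_exponent_le hl (by linarith)
    have h3 : 0 ≤ (Real.log X) ^ (-α) := Real.rpow_nonneg (by linarith) _
    calc E * X * (Real.log X) ^ (-α) ≤ |E| * X * (Real.log X) ^ (-α) := by
          refine mul_le_mul_of_nonneg_right ?_ h3
          exact mul_le_mul_of_nonneg_right (le_abs_self E) hX0
      _ ≤ _ := mul_le_mul_of_nonneg_left h2 (by positivity)
  have h4 := (hC X hX).trans (key C δ (min_le_left _ _))
  have h5 := (hD X hX).trans (key D ε (min_le_right _ _))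
  linarith

lemma few_empty : Few ∅ := ⟨1, one_pos, 0, fun X _ => by simp⟩

lemma few_biUnion {ι : Type*} (s : Finset ι) (S : ι → Set ℤ) (h : ∀ i ∈ s, Few (S i)) :
    Few (⋃ i ∈ s, S i) := by
  classical
  induction s using Finset.induction_on with
  | empty =>
    have e : (⋃ i ∈ (∅ : Finset ι), S i) = ∅ := by simp
    rw [e]
    exact few_empty
  | insert a t ha ih =>
    have e : (⋃ i ∈ insert a t, S i) = S a ∪ ⋃ i ∈ t, S i := by
      ext d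
      simp
    rw [e]
    exact (h a (mem_insert_self _ _)).union (ih fun i hi => h i (mem_insert_of_mem hi))

/-- `Few` implies density zero -/
lemma Few.tendsto {S : Set ℤ} (h : Few S) :
    Tendsto (fun X : ℕ => ({d : ℤ | d.natAbs ≤ X ∧ d ∈ S}.ncard : ℝ) / X) atTop (𝓝 0) := by
  obtain ⟨δ, hδ, C, hC⟩ := h
  have h1 : Tendsto (fun X : ℕ => |C| * (Real.log X) ^ (-δ)) atTop (𝓝 0) := by
    have h2 : Tendsto (fun X : ℕ => (Real.log (X : ℝ)) ^ (-δ)) atTop (𝓝 0) :=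
      (tendsto_rpow_neg_atTop hδ).comp (Real.tendsto_log_atTop.comp tendsto_natCast_atTop_atTop)
    simpa using h2.const_mul |C|
  refine squeeze_zero' (Eventually.of_forall fun X => by positivity) ?_ h1
  filter_upwards [eventually_ge_atTop 3] with X hX
  have hX0 : (0 : ℝ) < X := by
    have : 0 < X := by omega
    exact_mod_cast this
  rw [div_le_iff₀ hX0]
  refine (hC X hX).trans ?_
  have h3 : 0 ≤ (Real.log X) ^ (-δ) := Real.rpow_nonneg (by linarith [one_le_log hX]) _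
  have h4 : C * X ≤ |C| * X := mul_le_mul_of_nonneg_right (le_abs_self C) hX0.le
  nlinarith

/-- integers divisible by a large square -/
lemma sq_dvd_card {M : ℕ} (hM : 0 < M) (X : ℕ) :
    ({d : ℤ | d.natAbs ≤ X ∧ d ≠ 0 ∧ ∃ m : ℕ, M < m ∧ (m : ℤ) ^ 2 ∣ d}.ncard : ℝ) ≤
      2 * X / M := by
  classical
  have hsub : {d : ℤ | d.natAbs ≤ X ∧ d ≠ 0 ∧ ∃ m : ℕ, M < m ∧ (m : ℤ) ^ 2 ∣ d} ⊆
      (((Ioc M (max M X)).biUnion (fun m => ((Icc (-((X / m ^ 2 : ℕ) : ℤ))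
        ((X / m ^ 2 : ℕ) : ℤ)).erase 0).image (fun e => e * (m : ℤ) ^ 2)) : Finset ℤ) : Set ℤ) := by
    rintro d ⟨h1, h2, m, hm, e, he⟩
    rw [mem_coe, mem_biUnion]
    have hm0 : 0 < m := by omega
    have he0 : e ≠ 0 := by
      rintro rfl
      apply h2
      rw [he, mul_zero]
    have h3 : d.natAbs = m ^ 2 * e.natAbs := by
      rw [he, Int.natAbs_mul, Int.natAbs_pow, Int.natAbs_natCast]
    have h4 : 0 < e.natAbs := Int.natAbs_pos.2 he0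
    have h5 : e.natAbs ≤ X / m ^ 2 := by
      rw [Nat.le_div_iff_mul_le (by positivity), mul_comm, ← h3]
      exact h1
    have h6 : m ≤ X := by
      calc m ≤ m ^ 2 := Nat.le_self_pow two_ne_zero m
        _ ≤ m ^ 2 * e.natAbs := Nat.le_mul_of_pos_right _ h4
        _ = d.natAbs := h3.symm
        _ ≤ X := h1
    refine ⟨m, mem_Ioc.2 ⟨hm, h6.trans (le_max_right _ _)⟩, ?_⟩
    rw [mem_image]
    refine ⟨e, mem_erase.2 ⟨he0, mem_Icc.2 ?_⟩, ?_⟩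
    · omega
    · rw [he, mul_comm]
  have h1 : {d : ℤ | d.natAbs ≤ X ∧ d ≠ 0 ∧ ∃ m : ℕ, M < m ∧ (m : ℤ) ^ 2 ∣ d}.ncard ≤
      ∑ m ∈ Ioc M (max M X), 2 * (X / m ^ 2) := by
    refine (Set.ncard_le_ncard hsub (Finset.finite_toSet _)).trans ?_
    rw [Set.ncard_coe_finset]
    refine card_biUnion_le.trans (sum_le_sum fun m _ => card_image_le.trans ?_)
    have hq : (0 : ℤ) ≤ ((X / m ^ 2 : ℕ) : ℤ) := Int.natCast_nonneg _
    rw [card_erase_of_mem (mem_Icc.2 ⟨by linarith, hq⟩), Int.card_Icc]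
    generalize ((X / m ^ 2 : ℕ)) = q at *
    omega
  have h2 : ((∑ m ∈ Ioc M (max M X), 2 * (X / m ^ 2) : ℕ) : ℝ) ≤
      2 * X * ∑ m ∈ Ioc M (max M X), ((m : ℝ) ^ 2)⁻¹ := by
    push_cast
    rw [mul_sum]
    refine sum_le_sum fun m _ => ?_
    have : ((X / m ^ 2 : ℕ) : ℝ) ≤ X / (m : ℝ) ^ 2 := by
      have := @Nat.cast_div_le ℝ _ _ _ X (m ^ 2)
      rwa [Nat.cast_pow] at this
    rw [div_eq_mul_inv] at this
    nlinarith
  have h3 := sum_Ioc_inv_sq_le_sub (α := ℝ) hM.ne' (le_max_left M X)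
  have h4 : (0 : ℝ) ≤ ((max M X : ℕ) : ℝ)⁻¹ := by positivity
  have h5 : (0 : ℝ) ≤ 2 * X := by positivity
  calc _ ≤ ((∑ m ∈ Ioc M (max M X), 2 * (X / m ^ 2) : ℕ) : ℝ) := by exact_mod_cast h1
    _ ≤ 2 * X * ∑ m ∈ Ioc M (max M X), ((m : ℝ) ^ 2)⁻¹ := h2
    _ ≤ 2 * X * (M : ℝ)⁻¹ := mul_le_mul_of_nonneg_left (by linarith) h5
    _ = _ := by rw [div_eq_mul_inv]

/-- from the squarefree parts to all integers: if for every `m ≥ 1` the set of the squarefree `d`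
with `m² d ∈ S` has density zero, then `S` has density zero -/
theorem dens_zero {S : Set ℤ}
    (h : ∀ m : ℕ, 0 < m → Few {d : ℤ | Squarefree d ∧ d * (m : ℤ) ^ 2 ∈ S}) :
    Tendsto (fun X : ℕ => ({d : ℤ | d.natAbs ≤ X ∧ d ∈ S}.ncard : ℝ) / X) atTop (𝓝 0) := by
  classical
  rw [Metric.tendsto_atTop]
  intro ε hε
  obtain ⟨M, hM⟩ := exists_nat_gt (8 / ε)
  have hM0 : (0 : ℝ) < M := lt_trans (by positivity) hM
  have hMpos : 0 < M := by exact_mod_cast hM0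
  -- the small squares
  have hsum : Tendsto (fun X : ℕ => ∑ m ∈ Icc 1 M,
      ({d : ℤ | d.natAbs ≤ X ∧ d ∈ {d : ℤ | Squarefree d ∧ d * (m : ℤ) ^ 2 ∈ S}}.ncard : ℝ) / X)
      atTop (𝓝 0) := by
    have : (0 : ℝ) = ∑ m ∈ Icc 1 M, (0 : ℝ) := by simp
    rw [this]
    refine tendsto_finsetSum _ fun m hm => (h m ?_).tendsto
    exact (mem_Icc.1 hm).1
  rw [Metric.tendsto_atTop] at hsum
  obtain ⟨N, hN⟩ := hsum (ε / 4) (by positivity)
  obtain ⟨N2, hN2⟩ := exists_nat_gt (8 / ε)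
  refine ⟨max (max N N2) 1, fun X hX => ?_⟩
  have hXN : N ≤ X := (le_max_left _ _).trans ((le_max_left _ _).trans hX)
  have hXN2 : N2 ≤ X := (le_max_right _ _).trans ((le_max_left _ _).trans hX)
  have hX1 : 1 ≤ X := (le_max_right _ _).trans hX
  have hX0 : (0 : ℝ) < X := by exact_mod_cast hX1
  have h1 := hN X hXN
  rw [Real.dist_eq, sub_zero] at h1 ⊢
  have h1' := (abs_lt.1 h1).2
  rw [abs_of_nonneg (by positivity)]
  have hsub : {d : ℤ | d.natAbs ≤ X ∧ d ∈ S} ⊆ {0} ∪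
      ({d : ℤ | d.natAbs ≤ X ∧ d ≠ 0 ∧ ∃ m : ℕ, M < m ∧ (m : ℤ) ^ 2 ∣ d} ∪
      ⋃ m ∈ Icc 1 M, (fun e : ℤ => e * (m : ℤ) ^ 2) ''
        {d : ℤ | d.natAbs ≤ X ∧ d ∈ {d : ℤ | Squarefree d ∧ d * (m : ℤ) ^ 2 ∈ S}}) := by
    rintro d ⟨g1, g2⟩
    by_cases hd : d = 0
    · left
      exact hd
    right
    obtain ⟨k, w, hkw, hk⟩ := Nat.sq_mul_squarefree d.natAbs
    have hdw : d = (d.sign * k) * (w : ℤ) ^ 2 := by
      have e1 : d = d.sign * d.natAbs := (Int.sign_mul_natAbs d).symm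
      rw [← hkw] at e1
      push_cast at e1
      rw [mul_comm ((w : ℤ) ^ 2) (k : ℤ), ← mul_assoc] at e1
      exact e1
    have hw0 : 0 < w := by
      rcases Nat.eq_zero_or_pos w with h0 | h0
      · rw [h0] at hdw
        exfalso
        apply hd
        rw [hdw]
        simp
      · exact h0
    by_cases hMw : M < w
    · left
      exact ⟨g1, hd, w, hMw, ⟨d.sign * k, by rw [mul_comm]; exact hdw⟩⟩
    · right
      rw [Set.mem_iUnion₂]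
      refine ⟨w, mem_Icc.2 ⟨hw0, not_lt.1 hMw⟩, d.sign * k, ⟨?_, ?_, ?_⟩, hdw.symm⟩
      · have e2 : (d.sign * k).natAbs ≤ d.natAbs := by
          conv_rhs => rw [hdw, Int.natAbs_mul, Int.natAbs_pow, Int.natAbs_natCast]
          exact Nat.le_mul_of_pos_right _ (by positivity)
        exact e2.trans g1
      · have e3 : Squarefree (k : ℤ) := Int.squarefree_natCast.2 hk
        rcases lt_trichotomy d 0 with g | g | g
        · rw [Int.sign_eq_neg_one_of_neg g, neg_one_mul]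
          intro x hx
          exact e3 x (by rwa [dvd_neg] at hx)
        · exact absurd g hd
        · rw [Int.sign_eq_one_of_pos g, one_mul]
          exact e3
      · rw [← hdw]
        exact g2
  have hfin : ∀ m : ℕ, ({d : ℤ | d.natAbs ≤ X ∧
      d ∈ {d : ℤ | Squarefree d ∧ d * (m : ℤ) ^ 2 ∈ S}}).Finite := fun m => fin_few X _
  have hfin2 : {d : ℤ | d.natAbs ≤ X ∧ d ≠ 0 ∧ ∃ m : ℕ, M < m ∧ (m : ℤ) ^ 2 ∣ d}.Finite :=
    fin_few X _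
  have hle : ({d : ℤ | d.natAbs ≤ X ∧ d ∈ S}.ncard : ℝ) ≤ 1 + (2 * X / M +
      ∑ m ∈ Icc 1 M, ({d : ℤ | d.natAbs ≤ X ∧
        d ∈ {d : ℤ | Squarefree d ∧ d * (m : ℤ) ^ 2 ∈ S}}.ncard : ℝ)) := by
    have e1 := Set.ncard_le_ncard hsub ((Set.finite_singleton 0).union (hfin2.union
      ((Icc 1 M).finite_toSet.biUnion fun m _ => (hfin m).image _)))
    have e2 := e1.trans (Set.ncard_union_le _ _)
    have e3 := Set.ncard_union_le
      {d : ℤ | d.natAbs ≤ X ∧ d ≠ 0 ∧ ∃ m : ℕ, M < m ∧ (m : ℤ) ^ 2 ∣ d}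
      (⋃ m ∈ Icc 1 M, (fun e : ℤ => e * (m : ℤ) ^ 2) ''
        {d : ℤ | d.natAbs ≤ X ∧ d ∈ {d : ℤ | Squarefree d ∧ d * (m : ℤ) ^ 2 ∈ S}})
    have e4 : (⋃ m ∈ Icc 1 M, (fun e : ℤ => e * (m : ℤ) ^ 2) ''
        {d : ℤ | d.natAbs ≤ X ∧ d ∈ {d : ℤ | Squarefree d ∧ d * (m : ℤ) ^ 2 ∈ S}}).ncard ≤
        ∑ m ∈ Icc 1 M, {d : ℤ | d.natAbs ≤ X ∧
          d ∈ {d : ℤ | Squarefree d ∧ d * (m : ℤ) ^ 2 ∈ S}}.ncard := by
      have : ∀ s : Finset ℕ, (⋃ m ∈ s, (fun e : ℤ => e * (m : ℤ) ^ 2) ''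
          {d : ℤ | d.natAbs ≤ X ∧ d ∈ {d : ℤ | Squarefree d ∧ d * (m : ℤ) ^ 2 ∈ S}}).ncard ≤
          ∑ m ∈ s, {d : ℤ | d.natAbs ≤ X ∧
            d ∈ {d : ℤ | Squarefree d ∧ d * (m : ℤ) ^ 2 ∈ S}}.ncard := by
        intro s
        induction s using Finset.induction_on with
        | empty => simp
        | insert a t ha ih =>
          rw [sum_insert ha]
          have e : (⋃ m ∈ insert a t, (fun e : ℤ => e * (m : ℤ) ^ 2) ''
              {d : ℤ | d.natAbs ≤ X ∧ d ∈ {d : ℤ | Squarefree d ∧ d * (m : ℤ) ^ 2 ∈ S}}) =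
              ((fun e : ℤ => e * (a : ℤ) ^ 2) ''
              {d : ℤ | d.natAbs ≤ X ∧ d ∈ {d : ℤ | Squarefree d ∧ d * (a : ℤ) ^ 2 ∈ S}}) ∪
              ⋃ m ∈ t, (fun e : ℤ => e * (m : ℤ) ^ 2) ''
              {d : ℤ | d.natAbs ≤ X ∧ d ∈ {d : ℤ | Squarefree d ∧ d * (m : ℤ) ^ 2 ∈ S}} := by
            rw [Finset.set_biUnion_insert]
          rw [e]
          refine (Set.ncard_union_le _ _).trans ?_
          exact Nat.add_le_add (Set.ncard_image_le (hfin a)) ih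
      exact this _
    rw [Set.ncard_singleton] at e2
    have e5 := sq_dvd_card hMpos X
    have e6 : ({d : ℤ | d.natAbs ≤ X ∧ d ∈ S}.ncard : ℝ) ≤ 1 +
        (({d : ℤ | d.natAbs ≤ X ∧ d ≠ 0 ∧ ∃ m : ℕ, M < m ∧ (m : ℤ) ^ 2 ∣ d}.ncard : ℝ) +
        ∑ m ∈ Icc 1 M, ({d : ℤ | d.natAbs ≤ X ∧
          d ∈ {d : ℤ | Squarefree d ∧ d * (m : ℤ) ^ 2 ∈ S}}.ncard : ℝ)) := by
      exact_mod_cast e2.trans (Nat.add_le_add_left (e3.trans (Nat.add_le_add_left e4 _)) _)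
    linarith
  have h2 : ({d : ℤ | d.natAbs ≤ X ∧ d ∈ S}.ncard : ℝ) / X ≤ 1 / X + (2 / M +
      ∑ m ∈ Icc 1 M, ({d : ℤ | d.natAbs ≤ X ∧
        d ∈ {d : ℤ | Squarefree d ∧ d * (m : ℤ) ^ 2 ∈ S}}.ncard : ℝ) / X) := by
    rw [← sum_div, div_le_iff₀ hX0]
    refine hle.trans (le_of_eq ?_)
    field_simp
  have h3 : (1 : ℝ) / X ≤ ε / 8 := by
    rw [div_le_iff₀ hX0]
    have : (N2 : ℝ) ≤ X := by exact_mod_cast hXN2
    have h4 : 8 / ε < X := lt_of_lt_of_le hN2 this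
    rw [div_lt_iff₀ hε] at h4
    linarith
  have h4 : (2 : ℝ) / M ≤ ε / 4 := by
    rw [div_le_iff₀ hM0]
    rw [div_lt_iff₀ hε] at hM
    linarith
  linarith

end Pool.Agent.NH93.QT
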