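import Pool.Agent.Y488.TM.Stm
import Pool.Agent.Y488.TM.Reg
import Pool.Agent.Y488.TM.Key
import Pool.Agent.W262.TW.Full
import Pool.Agent.W500.TW.Reds

/-!
# Quadratic twists by values with controlled signs at large primes: the general estimate

Adapted from `Pool.Agent.Y488.TM.redm` and `Pool.Agent.Y488.TM.finm`: the vector of the values of
the factors is replaced by an arbitrary vector `v` with a property `P v`.
-/

set_option autoImplicit false

namespace Pool.Agent.NH93.QT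

open Finset Filter Pool.Agent.W262.RK Pool.Agent.W262.TW Pool.Agent.W500.TW Pool.Agent.Y488.TM

section K

variable {K : Type} [Fintype K] [DecidableEq K]

/-- `d y² = ∏ k, v k` for a vector `v` with `P v` of nonconstant type -/
def BadV (P : (K → ℤ) → Prop) (c : K → K → ℤ) (L O : Finset K) (d : ℤ) : Prop :=
  ∃ (v : K → ℤ) (y : ℤ), P v ∧ y ≠ 0 ∧ d * y ^ 2 = ∏ k, v k ∧ NCG c L O v

/-- behaviour at large primes -/
def Loc (P : (K → ℤ) → Prop) (Θ : K → ℕ → Finset (Finset K)) : Prop :=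
  ∃ z0 : ℕ, ∀ p : ℕ, p.Prime → z0 < p → ∀ v, P v → ∀ i, (p : ℤ) ∣ v i →
    (∀ k, k ≠ i → ¬ (p : ℤ) ∣ v k) ∧ ngs v i p ∈ Θ i p

/-- the weights of the sign patterns -/
def Mean (Θ : K → ℕ → Finset (Finset K)) (c : K → K → ℤ) (L O : Finset K) : Prop :=
  ∃ η : ℝ, 0 < η ∧ η ≤ 1 ∧ ∃ z0 : ℕ, ∀ z, z0 ≤ z → ∃ C : ℝ, 0 ≤ C ∧
    ∀ κ ∈ Fintype.piFinset (fun _ : K => EE z), ∀ (Y V : ℕ) (I : Finset K),
    3 ≤ Y → 1 ≤ V → I.Nonempty → ∀ u ∈ UG z V c L O κ I,
    ∑ i : {k // k ∈ I}, ∑ p ∈ PS z Y, ((ThG Θ κ u I i p).card : ℝ) / p ≤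
      ((1 - η) * Real.log (Real.log Y) + C * (1 + Real.log (Real.log (V + 3)))) *
        2 ^ (Fintype.card {k // k ∈ I} - 1)

theorem redv {P : (K → ℤ) → Prop} {Θ : K → ℕ → Finset (Finset K)} (c : K → K → ℤ)
    (L O : Finset K) (h : Loc P Θ) :
    ∃ z0 : ℕ, ∀ z, z0 ≤ z → ∀ X : ℕ,
    {d : ℤ | d.natAbs ≤ X ∧ Squarefree d ∧ BadV P c L O d}.ncard ≤
      (EE z).card * ∑ κ ∈ Fintype.piFinset (fun _ : K => EE z), cntG z X κ Θ c L O := by
  obtain ⟨z0, hloc⟩ := h
  refine ⟨z0, fun z hz X => ?_⟩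
  classical
  set F : (K → ℤ) → Finset (K → ℕ) := fun κ =>
    (Fintype.piFinset (fun _ : K => Icc 1 X)).filter (fun D => (∀ i, Rg z (D i)) ∧
    (∀ i j, i ≠ j → (D i).Coprime (D j)) ∧ ∏ i, D i ≤ X ∧
    (∀ i, ∀ p ∈ (D i).primeFactors, ngs (fun k => κ k * D k) i p ∈ Θ i p) ∧
    NCG c L O (fun k => κ k * D k)) with hF
  set S : Finset (ℤ × (Σ _ : K → ℤ, K → ℕ)) :=
    (EE z) ×ˢ ((Fintype.piFinset (fun _ : K => EE z)).sigma F) with hS
  have hsub : {d : ℤ | d.natAbs ≤ X ∧ Squarefree d ∧ BadV P c L O d} ⊆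
      ((S.image (fun q => q.1 * ((∏ k, q.2.2 k : ℕ) : ℤ)) : Finset ℤ) : Set ℤ) := by
    rintro d ⟨hdX, hdsf, v, y, hPv, hy, hd, hNC⟩
    have hd0 : d ≠ 0 := hdsf.ne_zero
    have hX0 : ∀ k, v k ≠ 0 := by
      intro k hk
      have h1 : d * y ^ 2 = 0 := by
        rw [hd]; exact Finset.prod_eq_zero (Finset.mem_univ k) hk
      rcases mul_eq_zero.mp h1 with h | h
      · exact hd0 h
      · exact hy (pow_eq_zero_iff (two_ne_zero) |>.mp h)
    choose κ hκ D hD t ht hX using fun k => decomp z _ (hX0 k)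
    obtain ⟨d0, hd0E, D', hD', hdd⟩ := decomp_sf z d hdsf
    have hDX : ∀ i : K, ∀ p : ℕ, p ∣ D i → (p : ℤ) ∣ v i := by
      intro i p hp
      rw [hX i]
      exact Dvd.dvd.mul_right (Dvd.dvd.mul_left (by exact_mod_cast hp) _) _
    have hnd : ∀ i : K, ∀ p : ℕ, p.Prime → p ∣ D i → ∀ k, k ≠ i → ¬ (p : ℤ) ∣ v k := by
      intro i p hp hpd
      exact (hloc p hp (lt_of_le_of_lt hz ((hD i).2 p hp hpd)) v hPv i (hDX i p hpd)).1
    have hcop : ∀ i j, i ≠ j → (D i).Coprime (D j) := by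
      intro i j hij
      apply Nat.coprime_of_dvd
      intro p hp h1 h2
      exact hnd i p hp h1 j hij.symm (hDX j p h2)
    have hP : Rg z (∏ k, D k) := Rg_prod D hD hcop
    have hDP : D' = ∏ k, D k := by
      have h1 : d0 * D' * y ^ 2 = (∏ k, κ k) * (∏ k, D k : ℕ) * (∏ k, t k) ^ 2 := by
        rw [← hdd, hd, Finset.prod_congr rfl (fun k _ => hX k), Finset.prod_mul_distrib,
          Finset.prod_mul_distrib, Finset.prod_pow]
        push_cast
        ring
      have h2 := congrArg Int.natAbs h1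
      rw [Int.natAbs_mul, Int.natAbs_mul, Int.natAbs_mul, Int.natAbs_mul, Int.natAbs_pow,
        Int.natAbs_pow, Int.natAbs_natCast, Int.natAbs_natCast] at h2
      refine rough_unique (Int.natAbs_ne_zero.mpr (EE_ne hd0E))
        (Int.natAbs_ne_zero.mpr (Finset.prod_ne_zero_iff.mpr fun k _ => EE_ne (hκ k)))
        (fun p hp hz => EE_prime hd0E hp hz) ?_ hD' hP (Int.natAbs_ne_zero.mpr hy)
        (Int.natAbs_ne_zero.mpr (Finset.prod_ne_zero_iff.mpr fun k _ => ht k)) h2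
      intro p hp hz hpd
      have h3 : (p : ℤ) ∣ ∏ k, κ k := Int.natCast_dvd.mpr hpd
      rw [(Nat.prime_iff_prime_int.mp hp).dvd_finsetProd_iff] at h3
      obtain ⟨k, _, hk⟩ := h3
      exact EE_prime (hκ k) hp hz (Int.natCast_dvd.mp hk)
    have hPX : ∏ k, D k ≤ X := by
      rw [← hDP]
      refine le_trans ?_ hdX
      rw [hdd, Int.natAbs_mul, Int.natAbs_natCast]
      exact Nat.le_mul_of_pos_left _ (Int.natAbs_pos.mpr (EE_ne hd0E))
    have hDpos : ∀ k, 1 ≤ D k := fun k => Nat.one_le_iff_ne_zero.mpr (hD k).1.ne_zero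
    have hDle : ∀ k, D k ≤ X := fun k =>
      (Nat.le_of_dvd (Finset.prod_pos fun k _ => hDpos k)
        (Finset.dvd_prod_of_mem D (Finset.mem_univ k))).trans hPX
    rw [Finset.coe_image]
    refine ⟨⟨d0, ⟨κ, D⟩⟩, ?_, ?_⟩
    · rw [Finset.mem_coe, hS, Finset.mem_product, Finset.mem_sigma]
      refine ⟨hd0E, Fintype.mem_piFinset.mpr hκ, ?_⟩
      rw [hF]
      simp only [Finset.mem_filter, Fintype.mem_piFinset, Finset.mem_Icc]
      refine ⟨fun k => ⟨hDpos k, hDle k⟩, hD, hcop, hPX, ?_, ?_⟩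
      · intro i p hp
        have hpp : p.Prime := Nat.prime_of_mem_primeFactors hp
        have hpd : p ∣ D i := Nat.dvd_of_mem_primeFactors hp
        have hzp : z0 < p := lt_of_le_of_lt hz ((hD i).2 p hpp hpd)
        have : Fact p.Prime := ⟨hpp⟩
        obtain ⟨h1, h2⟩ := hloc p hpp hzp v hPv i (hDX i p hpd)
        have h3 : ngs (fun k => κ k * D k) i p = ngs v i p := by
          unfold ngs
          apply Finset.filter_congr
          intro k _
          by_cases hk : k = i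
          · simp [hk]
          · have hpt : ¬ (p : ℤ) ∣ t k := by
              intro h
              refine h1 k hk ?_
              rw [hX k]
              exact Dvd.dvd.mul_left (Dvd.dvd.pow h two_ne_zero) _
            have h4 : jacobiSym (v k) p = jacobiSym (κ k * D k) p := by
              rw [hX k, jacobiSym.mul_left _ (t k ^ 2), jacobiSym.sq_one', mul_one]
              rw [Int.isCoprime_iff_gcd_eq_one.symm]
              exact ((Nat.prime_iff_prime_int.mp hpp).irreducible.coprime_iff_not_dvd.mpr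
                hpt).symm
            rw [h4]
        rw [h3]
        exact h2
      · intro i hi
        obtain ⟨T, hT1, hT2, hns⟩ := hNC i hi
        refine ⟨T, hT1, hT2, ?_⟩
        rintro ⟨r, hr⟩
        apply hns
        refine ⟨r * ∏ k ∈ T, t k, ?_⟩
        have h5 : ∏ k ∈ T, (v k * c i k) =
            (∏ k ∈ T, (κ k * D k * c i k)) * (∏ k ∈ T, t k) ^ 2 := by
          rw [← Finset.prod_pow, ← Finset.prod_mul_distrib]
          refine Finset.prod_congr rfl fun k _ => ?_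
          rw [hX k]
          ring
        simp only at hr ⊢
        rw [h5, hr]
        ring
    · simp only
      rw [← hDP, hdd]
  calc {d : ℤ | d.natAbs ≤ X ∧ Squarefree d ∧ BadV P c L O d}.ncard
      ≤ ((S.image (fun q => q.1 * ((∏ k, q.2.2 k : ℕ) : ℤ)) : Finset ℤ) : Set ℤ).ncard :=
        Set.ncard_le_ncard hsub (Finset.finite_toSet _)
    _ = (S.image (fun q => q.1 * ((∏ k, q.2.2 k : ℕ) : ℤ))).card := Set.ncard_coe_finset _
    _ ≤ S.card := Finset.card_image_le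
    _ = (EE z).card * ∑ κ ∈ Fintype.piFinset (fun _ : K => EE z), (F κ).card := by
        rw [hS, Finset.card_product, Finset.card_sigma]
    _ = _ := by
        rfl

/-- few squarefree `d` have a point of nonconstant type -/
theorem gen {P : (K → ℤ) → Prop} {Θ : K → ℕ → Finset (Finset K)} {c : K → K → ℤ}
    {L O : Finset K} (hsub : ∀ i p, Θ i p ⊆ (univ.erase i).powerset) (hloc : Loc P Θ)
    (hmean : Mean Θ c L O) :
    ∃ δ : ℝ, 0 < δ ∧ ∃ C : ℝ, ∀ X : ℕ, 3 ≤ X →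
    ({d : ℤ | d.natAbs ≤ X ∧ Squarefree d ∧ BadV P c L O d}.ncard : ℝ) ≤
      C * X * (Real.log X) ^ (-δ) := by
  classical
  obtain ⟨z1, hz1⟩ := redv c L O hloc
  obtain ⟨η, hη, hη1, z2, hz2⟩ := hmean
  set z := max (max z1 z2) 2 with hz
  have hz1' : z1 ≤ z := (le_max_left _ _).trans (le_max_left _ _)
  have hz2' : z2 ≤ z := (le_max_right _ _).trans (le_max_left _ _)
  have hz3' : 2 ≤ z := le_max_right _ _
  obtain ⟨C4, hC4, hP⟩ := hz2 z hz2'
  have hkey : ∀ κ : K → ℤ, ∃ C : ℝ, 0 ≤ C ∧ (κ ∈ Fintype.piFinset (fun _ : K => EE z) →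
      ∀ᶠ X : ℕ in atTop, (cntG z X κ Θ c L O : ℝ) ≤
        C * X * (Real.log X) ^ (-(η / 5))) := by
    intro κ
    by_cases hκ : κ ∈ Fintype.piFinset (fun _ : K => EE z)
    · obtain ⟨C, hC0, hC⟩ := (keyg abs1_all regg) K Θ c L O z C4 η κ hz3' hC4 hη hη1 hκ
        hsub (hP κ hκ)
      exact ⟨C, hC0, fun _ => hC⟩
    · exact ⟨0, le_rfl, fun h => absurd h hκ⟩
  choose Cκ hC0 hCκ using hkey
  set C1 : ℝ := (EE z).card * ∑ κ ∈ Fintype.piFinset (fun _ : K => EE z), Cκ κ with hC1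
  have hC10 : 0 ≤ C1 := mul_nonneg (Nat.cast_nonneg _) (Finset.sum_nonneg fun κ _ => hC0 κ)
  have hev : ∀ᶠ X : ℕ in atTop,
      ({d : ℤ | d.natAbs ≤ X ∧ Squarefree d ∧ BadV P c L O d}.ncard : ℝ) ≤
        C1 * X * (Real.log X) ^ (-(η / 5)) := by
    have hall : ∀ᶠ X : ℕ in atTop, ∀ κ ∈ Fintype.piFinset (fun _ : K => EE z),
        (cntG z X κ Θ c L O : ℝ) ≤ Cκ κ * X * (Real.log X) ^ (-(η / 5)) := by
      rw [Filter.eventually_all_finset]
      exact fun κ hκ => hCκ κ hκ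
    filter_upwards [hall] with X hX
    have e1 := hz1 z hz1' X
    have e2 : ({d : ℤ | d.natAbs ≤ X ∧ Squarefree d ∧ BadV P c L O d}.ncard : ℝ) ≤
        (EE z).card * ∑ κ ∈ Fintype.piFinset (fun _ : K => EE z),
          (cntG z X κ Θ c L O : ℝ) := by
      exact_mod_cast e1
    refine e2.trans ?_
    calc _ ≤ ((EE z).card : ℝ) * ∑ κ ∈ Fintype.piFinset (fun _ : K => EE z),
          Cκ κ * X * (Real.log X) ^ (-(η / 5)) :=
          mul_le_mul_of_nonneg_left (Finset.sum_le_sum hX) (Nat.cast_nonneg _)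
      _ = C1 * X * (Real.log X) ^ (-(η / 5)) := by
          rw [← Finset.sum_mul, ← Finset.sum_mul, hC1]
          ring
  obtain ⟨X0, hX0⟩ := eventually_atTop.mp hev
  set D : ℝ := (Real.log (X0 + 3)) ^ (η / 5) with hD
  have hD0 : 0 ≤ D := Real.rpow_nonneg (Real.log_nonneg (by
    have : (0 : ℝ) ≤ X0 := Nat.cast_nonneg _
    linarith)) _
  refine ⟨η / 5, by positivity, C1 + 3 * D, fun X hX3 => ?_⟩
  have hX3' : (3 : ℝ) ≤ X := by exact_mod_cast hX3
  have hlog : 0 < Real.log (X : ℝ) := Real.log_pos (by linarith)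
  have hlp : 0 < Real.log (X : ℝ) ^ (-(η / 5)) := Real.rpow_pos_of_pos hlog _
  rcases le_or_gt X0 X with h | h
  · refine (hX0 X h).trans ?_
    have : 0 ≤ 3 * D * X * (Real.log X) ^ (-(η / 5)) := by positivity
    nlinarith
  · have e1 : {d : ℤ | d.natAbs ≤ X ∧ Squarefree d ∧ BadV P c L O d} ⊆
        (Finset.Icc (-(X : ℤ)) X : Finset ℤ) := by
      intro d hd
      have h5 : d.natAbs ≤ X := hd.1
      rw [Finset.coe_Icc, Set.mem_Icc]
      omega
    have e2 := Set.ncard_le_ncard e1 (Finset.finite_toSet _)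
    rw [Set.ncard_coe_finset, Int.card_Icc] at e2
    have e3 : ({d : ℤ | d.natAbs ≤ X ∧ Squarefree d ∧ BadV P c L O d}.ncard : ℝ) ≤ 3 * X := by
      have : {d : ℤ | d.natAbs ≤ X ∧ Squarefree d ∧ BadV P c L O d}.ncard ≤ 3 * X := by omega
      exact_mod_cast this
    refine e3.trans ?_
    have e4 : 1 ≤ D * Real.log (X : ℝ) ^ (-(η / 5)) := by
      rw [Real.rpow_neg hlog.le, ← div_eq_mul_inv, le_div_iff₀ (Real.rpow_pos_of_pos hlog _),
        one_mul, hD]
      apply Real.rpow_le_rpow hlog.le _ (by positivity)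
      apply Real.log_le_log (by linarith)
      have : (X : ℝ) ≤ X0 := by exact_mod_cast h.le
      linarith
    have e5 : 0 ≤ C1 * X * (Real.log X) ^ (-(η / 5)) := by positivity
    have e6 : 3 * (X : ℝ) * 1 ≤ 3 * X * (D * Real.log (X : ℝ) ^ (-(η / 5))) :=
      mul_le_mul_of_nonneg_left e4 (by positivity)
    calc 3 * (X : ℝ) = 3 * X * 1 := by ring
      _ ≤ 3 * X * (D * Real.log (X : ℝ) ^ (-(η / 5))) := e6
      _ ≤ (C1 + 3 * D) * X * (Real.log X) ^ (-(η / 5)) := by nlinarith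

end K

end Pool.Agent.NH93.QT
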