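import Pool.Agent.NH93.QT.Pr

/-!
# Half of the primes, and patterns of values congruent to multiples of given numbers
-/

set_option autoImplicit false

namespace Pool.Agent.NH93.QT

open Finset Pool.Agent.W262.RK Pool.Agent.W262.TW Pool.Agent.W554.TW Pool.Agent.Y488.TM

lemma half {q : ℤ} (hq : ¬ IsSquare q) : ∃ C : ℝ, ∀ z x : ℕ, 3 ≤ x →
    ∑ p ∈ PS z x, (if jacobiSym q p = 1 then (1 : ℝ) else 0) / p ≤
      (1 - 1 / 2) * Real.log (Real.log x) + C := by
  obtain ⟨C0, hC0, hM⟩ := mert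
  obtain ⟨C1, hC1⟩ := Pool.Agent.W578.TW.UBQ.ubq 2 le_rfl
  refine ⟨C0 / 2 + (Real.log (Real.log (q.natAbs + 3)) + C1) / 2 + 1, fun z x hx => ?_⟩
  have h0 : ∀ p : ℕ, (0 : ℝ) ≤ (if jacobiSym q p = 1 then (1 : ℝ) else 0) / p := by
    intro p
    split_ifs <;> positivity
  have h1 : ∑ p ∈ PS z x, (if jacobiSym q p = 1 then (1 : ℝ) else 0) / p ≤
      ∑ p ∈ PS 2 x ∪ {2}, (if jacobiSym q p = 1 then (1 : ℝ) else 0) / p := by
    refine sum_le_sum_of_subset_of_nonneg ?_ fun p _ _ => h0 p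
    intro p hp
    unfold PS at hp ⊢
    rw [mem_filter, mem_Ioc] at hp
    rw [mem_union, mem_filter, mem_Ioc, mem_singleton]
    have := hp.2.two_le
    by_cases h2 : p = 2
    · exact Or.inr h2
    · exact Or.inl ⟨⟨by omega, hp.1.2⟩, hp.2⟩
  have h2 : ∑ p ∈ PS 2 x ∪ {2}, (if jacobiSym q p = 1 then (1 : ℝ) else 0) / p ≤
      ∑ p ∈ PS 2 x, (if jacobiSym q p = 1 then (1 : ℝ) else 0) / p + 1 := by
    have hdis : Disjoint (PS 2 x) {2} := by
      rw [disjoint_singleton_right]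
      unfold PS
      rw [mem_filter, mem_Ioc]
      omega
    rw [sum_union hdis, sum_singleton]
    have : (if jacobiSym q 2 = 1 then (1 : ℝ) else 0) / ((2 : ℕ) : ℝ) ≤ 1 := by
      split_ifs <;> norm_num
    linarith
  have h3 : ∑ p ∈ PS 2 x, (if jacobiSym q p = 1 then (1 : ℝ) else 0) / p ≤
      ∑ p ∈ PS 2 x, (1 / 2 * (1 / (p : ℝ)) + 1 / 2 * (Jr q p / p) ) +
      ∑ p ∈ PS 2 x, (if jacobiSym q p = 0 then (0 : ℝ) else 0) / p := by
    rw [← sum_add_distrib]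
    refine sum_le_sum fun p hp => ?_
    have hp0 : (0 : ℝ) < p := by exact_mod_cast (PS_prime hp).1.pos
    have : (if jacobiSym q p = 1 then (1 : ℝ) else 0) ≤ 1 / 2 * (1 + Jr q p) := by
      unfold Jr
      rcases jacobiSym.trichotomy q p with h | h | h <;> rw [h] <;> norm_num
    have h4 := div_le_div_of_nonneg_right this hp0.le
    have h5 : (if jacobiSym q p = 0 then (0 : ℝ) else 0) / (p : ℝ) = 0 := by simp
    rw [h5, add_zero]
    refine h4.trans (le_of_eq ?_)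
    ring
  have h6 : ∑ p ∈ PS 2 x, (if jacobiSym q p = 0 then (0 : ℝ) else 0) / (p : ℝ) = 0 :=
    sum_eq_zero fun p _ => by simp
  rw [h6, add_zero, sum_add_distrib, ← mul_sum, ← mul_sum] at h3
  have h7 := hM 2 x hx
  have h8 := hC1 q hq x
  linarith

lemma jac_unit' {p : ℕ} (hp : p.Prime) {a : ℤ} (ha : ¬ (p : ℤ) ∣ a) :
    jacobiSym a p = 1 ∨ jacobiSym a p = -1 := by
  apply jacobiSym.eq_one_or_neg_one
  rw [← Int.isCoprime_iff_gcd_eq_one]
  exact ((Nat.prime_iff_prime_int.1 hp).coprime_iff_not_dvd.2 ha).symm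

lemma jac_dvd {p : ℕ} {a b : ℤ} (h : (p : ℤ) ∣ a - b) : jacobiSym a p = jacobiSym b p := by
  apply jacobiSym.mod_left'
  exact (Int.emod_emod_of_dvd _ dvd_rfl).symm.trans
    (by rw [Int.emod_emod_of_dvd _ dvd_rfl]; exact Int.ModEq.symm ((Int.modEq_iff_dvd).2 h))

lemma jac_sq {p : ℕ} (hp : p.Prime) {t : ℤ} (ht : ¬ (p : ℤ) ∣ t) : jacobiSym (t ^ 2) p = 1 := by
  apply jacobiSym.sq_one'
  rw [Int.isCoprime_iff_gcd_eq_one.symm]
  exact ((Nat.prime_iff_prime_int.mp hp).irreducible.coprime_iff_not_dvd.mpr ht).symm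

lemma jq {p : ℕ} (hp : p.Prime) {a b t : ℤ} (h : (p : ℤ) ∣ a - b * t ^ 2)
    (ht : ¬ (p : ℤ) ∣ t) : jacobiSym a p = jacobiSym b p := by
  rw [jac_dvd h, jacobiSym.mul_left, jac_sq hp ht, mul_one]

/-- the pattern of values which are all congruent to the multiples `s * c l` -/
lemma tog_mem {K : Type} [Fintype K] [DecidableEq K] {p : ℕ} (hp : p.Prime) {v c : K → ℤ}
    {i : K} {s : ℤ} (hs : ¬ (p : ℤ) ∣ s) (hc : ∀ l, l ≠ i → ¬ (p : ℤ) ∣ c l)
    (h : ∀ l, l ≠ i → (p : ℤ) ∣ v l - s * c l) :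
    ngs v i p = ngs c i p ∨ ngs v i p = symmDiff (ngs c i p) (univ.erase i) := by
  have h1 : ∀ l, l ≠ i → jacobiSym (v l) p = jacobiSym s p * jacobiSym (c l) p := by
    intro l hl
    rw [jac_dvd (h l hl), jacobiSym.mul_left]
  rcases jac_unit' hp hs with h2 | h2
  · left
    ext l
    unfold ngs
    simp only [mem_filter, mem_univ, true_and]
    constructor
    · rintro ⟨a, b⟩
      rw [h1 l a, h2, one_mul] at b
      exact ⟨a, b⟩
    · rintro ⟨a, b⟩
      rw [h1 l a, h2, one_mul]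
      exact ⟨a, b⟩
  · right
    ext l
    rw [mem_symmDiff]
    unfold ngs
    simp only [mem_filter, mem_univ, true_and, mem_erase]
    by_cases hl : l = i
    · simp [hl]
    · rw [h1 l hl, h2]
      rcases jac_unit' hp (hc l hl) with h3 | h3
      · rw [h3]
        simp [hl]
      · rw [h3]
        simp [hl]

lemma nf_nat {p : ℕ} (hp : p.Prime) {n : ℕ} (hn : 0 < n) (hnp : n < p) : ¬ (p : ℤ) ∣ (n : ℤ) := by
  intro h
  have := Nat.le_of_dvd hn (by exact_mod_cast h)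
  omega

end Pool.Agent.NH93.QT
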