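import Pool.Agent.Y488.TM.Pr
import Pool.Agent.W578.TW.UBQ
import Pool.Agent.NH93.QT.Gen

/-!
# The weights of the sign patterns, general form

Adapted from `Pool.Agent.Y488.TM.prg`.
-/

set_option autoImplicit false

namespace Pool.Agent.NH93.QT

open Finset Pool.Agent.W262.RK Pool.Agent.W262.TW Pool.Agent.W554.TW Pool.Agent.Y488.TM

lemma prL0 {K : Type} [Fintype K] [DecidableEq K] (Θ0 : K → ℕ → Finset (Finset K)) (κ : K → ℤ)
    (u : K → ℕ) (I : Finset K) (i : {k // k ∈ I}) (p : ℕ) :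
    (ThG (Tog ∅ Θ0) κ u I i p).card ≤ (Θ0 i p).card := by
  refine (ThG_le ∅ Θ0 κ u I i p).trans ?_
  unfold Fl
  refine (card_filter_le _ _).trans ?_
  have : Tog ∅ Θ0 i p = Θ0 i p := by
    unfold Tog
    rw [erase_eq_of_notMem (notMem_empty _)]
    have h1 : (Θ0 i p).image (fun N => symmDiff N ∅) = Θ0 i p := by
      ext N
      rw [mem_image]
      constructor
      · rintro ⟨M, hM, rfl⟩
        have e : symmDiff M ∅ = M := symmDiff_bot M
        rw [e]
        exact hM
      · intro hN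
        exact ⟨N, hN, symmDiff_bot N⟩
    rw [h1, union_self]
  rw [this]

/-- `prg` without `L ⊆ O`, and for `O = ∅` -/
theorem meang {K : Type} [Fintype K] [DecidableEq K] (Θ0 : K → ℕ → Finset (Finset K))
    (c : K → K → ℤ) (L O : Finset K) (hO4 : O = ∅ ∨ 4 ≤ O.card)
    (hpair : ∀ i ∈ L, ∀ k ∈ L, i ≠ k → ∃ T : Finset K, i ∉ T ∧ k ∉ T ∧ Even (T ∩ O).card ∧
      ¬ IsSquare (∏ l ∈ T, (c i l * c k l)))
    (h4 : O.card = 4 → O ⊆ L → ∃ i ∈ O, ∃ k ∈ O, ∃ T : Finset K, Disjoint T O ∧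
      ¬ IsSquare (∏ l ∈ T, (c i l * c k l)))
    (hnl : ∀ i, i ∉ L → ∃ η : ℝ, 0 < η ∧ ∃ C : ℝ, ∀ z x : ℕ, 3 ≤ x →
      ∑ p ∈ PS z x, ((Θ0 i p).card : ℝ) / p ≤ (1 - η) * Real.log (Real.log x) + C)
    (hlin : ∃ z1 : ℕ, ∀ i ∈ L, ∀ p : ℕ, p.Prime → z1 < p → (Θ0 i p).card ≤ 1 ∧
      ∀ N ∈ Θ0 i p, ∃ s : ℤ, (s = 1 ∨ s = -1) ∧ ∀ l, l ≠ i →
        (if l ∈ N then (-1 : ℤ) else 1) = (if l ∈ O then s else 1) * jacobiSym (c i l) p) :
    Mean (Tog O Θ0) c L O := by
  classical
  obtain ⟨z1, hlin⟩ := hlin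
  rcases isEmpty_or_nonempty K with hK0 | hKne
  · refine ⟨1, one_pos, le_rfl, 0, fun z _ => ⟨0, le_rfl, ?_⟩⟩
    intro κ _ Y V I _ _ hI
    obtain ⟨k, -⟩ := hI
    exact (hK0.false k).elim
  have h : UBQ := Pool.Agent.W578.TW.UBQ.ubq
  -- uniform constants for the nonlinear indices
  obtain ⟨η1, C3, hη1, hη1', hC3, hnl'⟩ : ∃ η1 C3 : ℝ, 0 < η1 ∧ η1 ≤ 1 ∧ 0 ≤ C3 ∧
      ∀ i, i ∉ L → ∀ z x : ℕ, 3 ≤ x →
        ∑ p ∈ PS z x, ((Θ0 i p).card : ℝ) / p ≤ (1 - η1) * Real.log (Real.log x) + C3 := by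
    have h1 : ∀ i, ∃ (η : ℝ) (C : ℝ), 0 < η ∧ (i ∉ L → ∀ z x : ℕ, 3 ≤ x →
        ∑ p ∈ PS z x, ((Θ0 i p).card : ℝ) / p ≤ (1 - η) * Real.log (Real.log x) + C) := by
      intro i
      by_cases hi : i ∈ L
      · exact ⟨1, 0, one_pos, fun h => absurd hi h⟩
      · obtain ⟨η, hη, C, hC⟩ := hnl i hi
        exact ⟨η, C, hη, fun _ => hC⟩
    choose η C hη hC using h1
    obtain ⟨i0, hi0⟩ := Finite.exists_min η
    refine ⟨min (η i0) 1, ∑ i, |C i|, lt_min (hη i0) one_pos, min_le_right _ _,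
      sum_nonneg fun i _ => abs_nonneg _, fun i hi z x hx => ?_⟩
    refine (hC i hi z x hx).trans ?_
    have h2 : 0 ≤ Real.log (Real.log x) := by
      apply Real.log_nonneg
      have h3 : Real.log 3 ≤ Real.log x :=
        Real.log_le_log (by norm_num) (by exact_mod_cast hx)
      linarith [one_le_log3]
    have h3 : C i ≤ ∑ i, |C i| :=
      (le_abs_self _).trans (single_le_sum (f := fun i => |C i|) (fun i _ => abs_nonneg _)
        (mem_univ i))
    have h4 : min (η i0) 1 ≤ η i := (min_le_left _ _).trans (hi0 i)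
    have h5 : (1 - η i) * Real.log (Real.log x) ≤ (1 - min (η i0) 1) * Real.log (Real.log x) :=
      mul_le_mul_of_nonneg_right (by linarith) h2
    linarith
  set η : ℝ := min (1 / 8) (η1 / 4) with hηdef
  have hη0 : 0 < η := lt_min (by norm_num) (by linarith)
  have hηa : η ≤ 1 / 8 := min_le_left _ _
  have hηb : η ≤ η1 / 4 := min_le_right _ _
  refine ⟨η, hη0, by linarith, max 2 z1, fun z hz => ?_⟩
  have hz2 : 2 ≤ z := le_trans (le_max_left _ _) hz
  have hz1 : z1 ≤ z := le_trans (le_max_right _ _) hz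
  -- the bound for the values
  set Cc : ℕ := 1 + ∑ i, ∑ k, (c i k).natAbs with hCc
  have hcc : ∀ i k, (c i k).natAbs ≤ Cc := by
    intro i k
    have s1 : (c i k).natAbs ≤ ∑ k, (c i k).natAbs :=
      single_le_sum (f := fun k => (c i k).natAbs) (fun _ _ => Nat.zero_le _) (mem_univ k)
    have s2 : ∑ k, (c i k).natAbs ≤ ∑ i, ∑ k, (c i k).natAbs :=
      single_le_sum (f := fun i => ∑ k, (c i k).natAbs) (fun _ _ => Nat.zero_le _) (mem_univ i)
    omega
  have hCc1 : 1 ≤ Cc := by omega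
  have hprim : 1 ≤ primorial z := primorial_pos z
  obtain ⟨C0, hC0, hM⟩ := mert
  obtain ⟨C1, hC1⟩ := h z hz2
  obtain ⟨C2, hC2, hS⟩ := size_logG (P := ((primorial z * Cc : ℕ) : ℝ))
    (by exact_mod_cast Nat.one_le_iff_ne_zero.2 (by positivity)) (Fintype.card K)
  refine ⟨C0 + |C1| + C2 + C3 + 1, by positivity, ?_⟩
  intro κ hκ Y V I hY hV hI u hu
  have hκ' : ∀ k, κ k ∈ EE z := fun k => Fintype.mem_piFinset.1 hκ k
  unfold UG at hu
  rw [mem_filter, Fintype.mem_piFinset] at hu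
  obtain ⟨hu1, hu2, hu3⟩ := hu
  have huV : ∀ k, k ∉ I → 1 ≤ u k ∧ u k ≤ V := by
    intro k hk
    have := hu1 k
    rw [if_neg hk, mem_Icc] at this
    exact this
  -- sizes
  have hlY : 0 ≤ Real.log (Real.log Y) := by
    apply Real.log_nonneg
    have h3 : Real.log 3 ≤ Real.log Y :=
      Real.log_le_log (by norm_num) (by exact_mod_cast hY)
    linarith [one_le_log3]
  have hlV : 0 ≤ Real.log (Real.log ((V : ℝ) + 3)) := by
    apply Real.log_nonneg
    have hV1 : (1 : ℝ) ≤ V := by exact_mod_cast hV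
    have h3 : Real.log 3 ≤ Real.log ((V : ℝ) + 3) :=
      Real.log_le_log (by norm_num) (by linarith)
    linarith [one_le_log3]
  have hMY := hM z Y hY
  have hnlY : ∀ i, i ∉ L → ∑ p ∈ PS z Y, ((Θ0 i p).card : ℝ) / p ≤
      (1 - η1) * Real.log (Real.log Y) + C3 := fun i hi => hnl' i hi z Y hY
  set LY := Real.log (Real.log Y) with hLY
  set LV := Real.log (Real.log ((V : ℝ) + 3)) with hLV
  set C : ℝ := C0 + |C1| + C2 + C3 + 1 with hC
  set E : ℝ := C * (1 + LV) with hE
  have habs : C1 ≤ |C1| := le_abs_self _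
  have habs0 : 0 ≤ |C1| := abs_nonneg _
  have hE1 : C + LV ≤ E := by
    have h1 : LV ≤ C * LV := by
      have : (1 : ℝ) ≤ C := by rw [hC]; linarith
      nlinarith
    rw [hE]
    linarith
  have hEa : C0 ≤ E := by linarith
  have hEb : C3 ≤ E := by linarith
  have hEc : C0 + C2 + LV + C1 ≤ E := by linarith
  have hE0 : 0 ≤ E := by linarith
  -- the sums
  let S : {k // k ∈ I} → ℝ := fun i =>
    ∑ p ∈ PS z Y, ((ThG (Tog O Θ0) κ u I i p).card : ℝ) / p
  have hPz : ∀ p ∈ PS z Y, p.Prime ∧ z1 < p := fun p hp =>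
    ⟨(PS_prime hp).1, lt_of_le_of_lt hz1 (PS_prime hp).2⟩
  -- bounds by the patterns
  have hgen : ∀ (i : {k // k ∈ I}) (B : ℕ),
      (∀ p ∈ PS z Y, (ThG (Tog O Θ0) κ u I i p).card ≤ B * (Θ0 i p).card) →
      S i ≤ B * ∑ p ∈ PS z Y, ((Θ0 i p).card : ℝ) / p := by
    intro i B hb
    rw [mul_sum]
    refine sum_le_sum fun p hp => ?_
    rw [← mul_div_assoc]
    refine div_le_div_of_nonneg_right ?_ (Nat.cast_nonneg _)
    exact_mod_cast hb p hp
  have hlinS : ∀ i ∈ L, ∑ p ∈ PS z Y, ((Θ0 i p).card : ℝ) / p ≤ LY + E := by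
    intro i hi
    calc ∑ p ∈ PS z Y, ((Θ0 i p).card : ℝ) / p ≤ ∑ p ∈ PS z Y, 1 / (p : ℝ) := by
          refine sum_le_sum fun p hp => ?_
          refine div_le_div_of_nonneg_right ?_ (Nat.cast_nonneg _)
          exact_mod_cast (hlin i hi p (hPz p hp).1 (hPz p hp).2).1
      _ ≤ LY + C0 := hMY
      _ ≤ LY + E := by linarith
  have hallS : ∀ i, ∑ p ∈ PS z Y, ((Θ0 i p).card : ℝ) / p ≤ LY + E := by
    intro i
    by_cases hi : i ∈ L
    · exact hlinS i hi
    · have h1 := hnlY i hi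
      nlinarith
  have hB2 : ∀ i : {k // k ∈ I}, S i ≤ 2 * (LY + E) := by
    intro i
    have h1 := hgen i 2 fun p _ => prL1 O Θ0 κ u I i p
    have h2 := hallS i
    push_cast at h1
    linarith
  have hB2n : ∀ i : {k // k ∈ I}, (i : K) ∉ L → S i ≤ 2 * ((1 - η1) * LY + E) := by
    intro i hi
    have h1 := hgen i 2 fun p _ => prL1 O Θ0 κ u I i p
    have h2 := hnlY i hi
    push_cast at h1
    linarith
  have hL2' : (O = ∅ ∨ ∃ l ∈ O, l ∉ I) → ∀ (j : {k // k ∈ I}) (p : ℕ),
      (ThG (Tog O Θ0) κ u I j p).card ≤ (Θ0 j p).card := by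
    rintro (h0 | ⟨l, hlO, hlI⟩) j p
    · rw [h0]
      exact prL0 Θ0 κ u I j p
    · exact prL2 O Θ0 κ u I j p hlO hlI
  have hB1 : (O = ∅ ∨ ∃ l ∈ O, l ∉ I) → ∀ i : {k // k ∈ I}, S i ≤ LY + E := by
    intro hor i
    have h1 := hgen i 1 fun p _ => by rw [one_mul]; exact hL2' hor i p
    have h2 := hallS i
    push_cast at h1
    linarith
  have hB1n : (O = ∅ ∨ ∃ l ∈ O, l ∉ I) → ∀ i : {k // k ∈ I}, (i : K) ∉ L →
      S i ≤ (1 - η1) * LY + E := by
    intro hor i hi
    have h1 := hgen i 1 fun p _ => by rw [one_mul]; exact hL2' hor i p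
    have h2 := hnlY i hi
    push_cast at h1
    linarith
  -- the bound by characters
  have hchar : ∀ (i : {k // k ∈ I}) (B : ℕ) (T : Finset K), (i : K) ∈ L → (∀ k ∈ T, k ∉ I) →
      Even (T ∩ O).card → ¬ IsSquare (∏ k ∈ T, (κ k * u k * c i k)) →
      (∀ p ∈ PS z Y, (ThG (Tog O Θ0) κ u I i p).card ≤ B * (Θ0 i p).card) →
      S i ≤ B / 2 * (LY + E) := by
    intro i B T hiL hT he hsq hb
    set q : ℤ := ∏ k ∈ T, (κ k * u k * c i k) with hq
    have hqs : (q.natAbs : ℝ) ≤ (((primorial z * Cc : ℕ) : ℝ) * V) ^ Fintype.card K := by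
      have h1 : q.natAbs ≤ ∏ k ∈ T, (primorial z * Cc * V) := by
        rw [hq, ← Int.natAbsHom_apply, map_prod]
        refine prod_le_prod' fun k hk => ?_
        rw [Int.natAbsHom_apply, Int.natAbs_mul, Int.natAbs_mul, Int.natAbs_natCast]
        have a1 := (EE_abs (hκ' k)).1
        have a2 := (huV k (hT k hk)).2
        have a3 := hcc i k
        calc (κ k).natAbs * u k * (c i k).natAbs ≤ primorial z * V * Cc := by gcongr
          _ = primorial z * Cc * V := by ring
      have h2 : q.natAbs ≤ (primorial z * Cc * V) ^ Fintype.card K := by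
        refine h1.trans ?_
        rw [prod_const]
        refine Nat.pow_le_pow_right ?_ (card_le_univ T)
        positivity
      calc (q.natAbs : ℝ) ≤ (((primorial z * Cc * V) ^ Fintype.card K : ℕ) : ℝ) := by
            exact_mod_cast h2
        _ = _ := by push_cast; ring
    have h1 := hS V q hV hqs
    have h2 := hC1 q hsq Y
    have hB0 : (0 : ℝ) ≤ B := Nat.cast_nonneg _
    have h5 : S i ≤ ∑ p ∈ PS z Y, ((B : ℝ) / 2 * (1 / (p : ℝ)) + B / 2 * (Jr q p / (p : ℝ))) := by
      refine sum_le_sum fun p hp => ?_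
      have hpp := (hPz p hp).1
      have hl := hlin i hiL p hpp (hPz p hp).2
      have hp0 : (0 : ℝ) < p := by exact_mod_cast hpp.pos
      have h3 : ((ThG (Tog O Θ0) κ u I i p).card : ℝ) ≤ B / 2 * (1 + Jr q p) := by
        by_cases hb0 : (ThG (Tog O Θ0) κ u I i p).card = 0
        · rw [hb0, Nat.cast_zero]
          have h4 : (-1 : ℝ) ≤ Jr q p := by
            unfold Jr
            rcases jacobiSym.trichotomy q p with h | h | h <;> rw [h] <;> norm_num
          have : 0 ≤ 1 + Jr q p := by linarith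
          positivity
        · have h4 := prL4 O Θ0 c κ u I i hl.2 hT he hb0
          have h6 : Jr q p = 1 := by
            unfold Jr
            rw [hq, h4]
            norm_num
          rw [h6]
          have h7 : (ThG (Tog O Θ0) κ u I i p).card ≤ B := by
            refine (hb p hp).trans ?_
            have := Nat.mul_le_mul_left B hl.1
            simpa using this
          have h8 : ((ThG (Tog O Θ0) κ u I i p).card : ℝ) ≤ B := by exact_mod_cast h7
          linarith
      calc ((ThG (Tog O Θ0) κ u I i p).card : ℝ) / p ≤ (B / 2 * (1 + Jr q p)) / p :=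
            div_le_div_of_nonneg_right h3 hp0.le
        _ = _ := by ring
    rw [sum_add_distrib, ← mul_sum, ← mul_sum] at h5
    have h6 : ∑ p ∈ PS z Y, Jr q p / (p : ℝ) ≤ C2 + LV + C1 := by linarith
    have h7 : (B : ℝ) / 2 * ∑ p ∈ PS z Y, 1 / (p : ℝ) ≤ B / 2 * (LY + C0) :=
      mul_le_mul_of_nonneg_left hMY (by positivity)
    have h8 : (B : ℝ) / 2 * ∑ p ∈ PS z Y, Jr q p / (p : ℝ) ≤ B / 2 * (C2 + LV + C1) :=
      mul_le_mul_of_nonneg_left h6 (by positivity)
    have h9 : (B : ℝ) / 2 * (LY + C0) + B / 2 * (C2 + LV + C1) ≤ B / 2 * (LY + E) := by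
      rw [← mul_add]
      exact mul_le_mul_of_nonneg_left (by linarith) (by positivity)
    linarith
  have hm0 : ∀ T : Finset K, (∀ k ∈ T, k ∉ I) → ∀ l ∈ T, κ l * (u l : ℤ) ≠ 0 := by
    intro T hT l hl
    have b1 := (EE_abs (hκ' l)).2
    have b2 : (u l : ℤ) ≠ 0 := by
      have := (huV l (hT l hl)).1
      have : 0 < u l := by omega
      exact_mod_cast this.ne'
    exact mul_ne_zero b1 b2
  show ∑ i : {k // k ∈ I}, S i ≤ ((1 - η) * LY + E) * 2 ^ (Fintype.card {k // k ∈ I} - 1)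
  have hcardI : Fintype.card {k // k ∈ I} = I.card := Fintype.card_coe I
  have hIpos : 1 ≤ I.card := card_pos.2 hI
  have h0 : 0 ≤ LY + E := by linarith
  have hηLY : 3 / 4 * (LY + E) ≤ (1 - η) * LY + E := by nlinarith
  have hsumle : ∀ A : ℝ, (∀ i, S i ≤ A) → ∑ i, S i ≤ I.card * A := by
    intro A hA
    calc ∑ i, S i ≤ ∑ _i : {k // k ∈ I}, A := sum_le_sum fun i _ => hA i
      _ = I.card * A := by rw [sum_const, card_univ, hcardI, nsmul_eq_mul]
  rw [hcardI]
  rcases Nat.lt_or_ge 4 I.card with h5 | h5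
  · calc ∑ i, S i ≤ I.card * (2 * (LY + E)) := hsumle _ hB2
      _ = 2 * I.card * (LY + E) := by ring
      _ ≤ 3 / 4 * 2 ^ (I.card - 1) * (LY + E) := by
          have := pow_a (N := I.card) (by omega)
          nlinarith
      _ = 3 / 4 * (LY + E) * 2 ^ (I.card - 1) := by ring
      _ ≤ _ := mul_le_mul_of_nonneg_right hηLY (by positivity)
  by_cases hOI' : O = I
  · have hOI : O ⊆ I := hOI'.le
    have hI4 : I.card = 4 := by
      rcases hO4 with h0 | h0
      · rw [h0] at hOI'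
        rw [← hOI', card_empty] at hIpos
        omega
      · rw [hOI'] at h0
        omega
    by_cases hex : ∃ i ∈ O, i ∉ L
    · obtain ⟨i, hiO, hiL⟩ := hex
      have hs := sum_special S _ _ ⟨i, hOI hiO⟩ hB2 (hB2n ⟨i, hOI hiO⟩ hiL)
      rw [hcardI, hI4] at hs
      rw [hI4]
      norm_num at hs ⊢
      nlinarith
    · push Not at hex
      obtain ⟨i, hiO, k, hkO, T, hTO, hTs⟩ := h4 (by rw [hOI']; exact hI4) hex
      have hT : ∀ l ∈ T, l ∉ I := fun l hl hlI =>
        (disjoint_left.1 hTO hl) (by rw [hOI']; exact hlI)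
      have he : Even (T ∩ O).card := by
        rw [disjoint_iff_inter_eq_empty.1 hTO, card_empty]
        exact Even.zero
      have hfin : ∀ j : {k // k ∈ I}, (j : K) ∈ L →
          ¬ IsSquare (∏ l ∈ T, (κ l * u l * c j l)) →
          ∑ i, S i ≤ ((1 - η) * LY + E) * 2 ^ (I.card - 1) := by
        intro j hj hq
        have h1 := hchar j 2 T hj hT he hq fun p _ => prL1 O Θ0 κ u I j p
        have hs := sum_special S _ _ j hB2 h1
        rw [hcardI, hI4] at hs
        rw [hI4]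
        norm_num at hs ⊢
        nlinarith
      rcases prSq c κ u T i k (hm0 T hT) hTs with hq | hq
      · exact hfin ⟨i, hOI hiO⟩ (hex i hiO) hq
      · exact hfin ⟨k, hOI hkO⟩ (hex k hkO) hq
  · have hex : O = ∅ ∨ ∃ l ∈ O, l ∉ I := by
      rcases hO4 with h0 | h0
      · exact Or.inl h0
      · right
        by_contra hcon
        push Not at hcon
        exact hOI' (eq_of_subset_of_card_le hcon (by omega))
    have hL2 : ∀ (j : {k // k ∈ I}), ∀ p ∈ PS z Y,
        (ThG (Tog O Θ0) κ u I j p).card ≤ 1 * (Θ0 j p).card := fun j p _ => by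
      rw [one_mul]
      exact hL2' hex j p
    have hone := hB1 hex
    have honen := hB1n hex
    rcases Nat.lt_or_ge 2 I.card with h3 | h3
    · calc ∑ i, S i ≤ I.card * (LY + E) := hsumle _ hone
        _ ≤ 3 / 4 * 2 ^ (I.card - 1) * (LY + E) := by
            have := pow_b (r := I.card) (by omega)
            nlinarith
        _ = 3 / 4 * (LY + E) * 2 ^ (I.card - 1) := by ring
        _ ≤ _ := mul_le_mul_of_nonneg_right hηLY (by positivity)
    rcases Nat.lt_or_ge 1 I.card with h2 | h2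
    · -- two large variables
      have hcard2 : I.card = 2 := by omega
      by_cases hex : ∃ i ∈ I, i ∉ L
      · obtain ⟨i, hiI, hiL⟩ := hex
        have hs := sum_special S _ _ ⟨i, hiI⟩ hone (honen ⟨i, hiI⟩ hiL)
        rw [hcardI, hcard2] at hs
        rw [hcard2]
        norm_num at hs ⊢
        nlinarith
      · push Not at hex
        obtain ⟨i, k, hik, hIik⟩ := card_eq_two.1 hcard2
        have hi : i ∈ I := by rw [hIik]; simp
        have hk : k ∈ I := by rw [hIik]; simp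
        obtain ⟨T, hiT, hkT, he, hTs⟩ := hpair i (hex i hi) k (hex k hk) hik
        have hT : ∀ l ∈ T, l ∉ I := by
          intro l hl hlI
          rw [hIik, mem_insert, mem_singleton] at hlI
          rcases hlI with rfl | rfl
          · exact hiT hl
          · exact hkT hl
        have hfin : ∀ j : {k // k ∈ I}, (j : K) ∈ L →
            ¬ IsSquare (∏ l ∈ T, (κ l * u l * c j l)) →
            ∑ i, S i ≤ ((1 - η) * LY + E) * 2 ^ (I.card - 1) := by
          intro j hj hq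
          have h1 := hchar j 1 T hj hT he hq (hL2 j)
          have hs := sum_special S _ _ j hone h1
          rw [hcardI, hcard2] at hs
          rw [hcard2]
          norm_num at hs ⊢
          nlinarith
        rcases prSq c κ u T i k (hm0 T hT) hTs with hq | hq
        · exact hfin ⟨i, hi⟩ (hex i hi) hq
        · exact hfin ⟨k, hk⟩ (hex k hk) hq
    · -- one large variable
      have hcard1 : I.card = 1 := by omega
      obtain ⟨i, hIi⟩ := card_eq_one.1 hcard1
      have hi : i ∈ I := by rw [hIi]; simp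
      by_cases hiL : i ∈ L
      · obtain ⟨T, hiT, he, hq⟩ := hu3 i hiL hIi
        have hT : ∀ l ∈ T, l ∉ I := by
          intro l hl hlI
          rw [hIi, mem_singleton] at hlI
          exact hiT (hlI ▸ hl)
        have h1 := hchar ⟨i, hi⟩ 1 T hiL hT he hq (hL2 ⟨i, hi⟩)
        have hs := sum_special S _ _ ⟨i, hi⟩ hone h1
        rw [hcardI, hcard1] at hs
        rw [hcard1]
        norm_num at hs ⊢
        nlinarith
      · have hs := sum_special S _ _ ⟨i, hi⟩ hone (honen ⟨i, hi⟩ hiL)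
        rw [hcardI, hcard1] at hs
        rw [hcard1]
        norm_num at hs ⊢
        nlinarith

end Pool.Agent.NH93.QT
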