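import Pool.Agent.NH93.QT.Half
import Pool.Agent.TH213.SP.Red
import Pool.Agent.TH213.SP.Gen
import Pool.Agent.Y488.TM.Fin

/-!
# Step 1: `d y² = t⁴ - r⁴` with `2 (t² + r²)` not a square
-/

set_option autoImplicit false

namespace Pool.Agent.NH93.QT

open Finset Pool.Agent.W262.RK Pool.Agent.W262.TW Pool.Agent.W554.TW Pool.Agent.Y488.TM

/-- the vectors -/
def P1 (v : Fin 2 → ℤ) : Prop := ∃ t r : ℤ, IsCoprime t r ∧ v = ![t ^ 2 - r ^ 2, t ^ 2 + r ^ 2]

/-- the sign patterns -/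
def Th1 (i : Fin 2) (p : ℕ) : Finset (Finset (Fin 2)) :=
  if i = 0 then {ngs (fun _ => (2 : ℤ)) 0 p} else
    if jacobiSym (-1) p = 1 then {ngs (fun _ => (2 : ℤ)) 1 p} else ∅

lemma not_dvd_both {p : ℕ} (hp : p.Prime) {t r : ℤ} (h : IsCoprime t r) (h1 : (p : ℤ) ∣ t)
    (h2 : (p : ℤ) ∣ r) : False :=
  (Nat.prime_iff_prime_int.1 hp).not_isUnit (h.isUnit_of_dvd' h1 h2)

lemma dvd_of_two {p : ℕ} (hp : p.Prime) (h2 : 2 < p) {a : ℤ} (h : (p : ℤ) ∣ 2 * a) :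
    (p : ℤ) ∣ a := by
  rcases (Nat.prime_iff_prime_int.1 hp).dvd_or_dvd h with h | h
  · exact absurd h (by exact_mod_cast nf_nat hp (n := 2) (by norm_num) h2)
  · exact h

lemma dvd_of_sq {p : ℕ} (hp : p.Prime) {a : ℤ} (h : (p : ℤ) ∣ a ^ 2) : (p : ℤ) ∣ a :=
  (Nat.prime_iff_prime_int.1 hp).dvd_of_dvd_pow h

lemma loc1 : Loc P1 (Tog ∅ Th1) := by
  refine ⟨2, ?_⟩
  rintro p hp h2 v ⟨t, r, hco, rfl⟩ i hi
  have hboth : ¬ ((p : ℤ) ∣ t ^ 2 - r ^ 2 ∧ (p : ℤ) ∣ t ^ 2 + r ^ 2) := by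
    rintro ⟨h3, h4⟩
    have h5 : (p : ℤ) ∣ 2 * t ^ 2 := by
      have := dvd_add h3 h4
      have e : t ^ 2 - r ^ 2 + (t ^ 2 + r ^ 2) = 2 * t ^ 2 := by ring
      rwa [e] at this
    have h6 : (p : ℤ) ∣ 2 * r ^ 2 := by
      have := dvd_sub h4 h3
      have e : t ^ 2 + r ^ 2 - (t ^ 2 - r ^ 2) = 2 * r ^ 2 := by ring
      rwa [e] at this
    exact not_dvd_both hp hco (dvd_of_sq hp (dvd_of_two hp h2 h5))
      (dvd_of_sq hp (dvd_of_two hp h2 h6))
  fin_cases i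
  · have h3 : (p : ℤ) ∣ t ^ 2 - r ^ 2 := hi
    have ht : ¬ (p : ℤ) ∣ t := by
      intro h4
      have h5 : (p : ℤ) ∣ r ^ 2 := by
        have h6 : (p : ℤ) ∣ t ^ 2 := Dvd.dvd.pow h4 two_ne_zero
        have := dvd_sub h6 h3
        have e : t ^ 2 - (t ^ 2 - r ^ 2) = r ^ 2 := by ring
        rwa [e] at this
      exact not_dvd_both hp hco h4 (dvd_of_sq hp h5)
    refine ⟨?_, ?_⟩
    · intro k hk
      fin_cases k
      · exact absurd rfl hk
      · exact fun h4 => hboth ⟨h3, h4⟩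
    · refine mem_union_left _ ?_
      have e1 : Th1 ((fun i => i) ⟨0, by decide⟩) p = {ngs (fun _ => (2 : ℤ)) 0 p} := rfl
      rw [e1, mem_singleton]
      unfold ngs
      refine filter_congr fun k _ => ?_
      fin_cases k
      · simp
      · have e2 : jacobiSym (t ^ 2 + r ^ 2) p = jacobiSym 2 p := by
          refine jq (t := t) hp ?_ ht
          have e : t ^ 2 + r ^ 2 - 2 * t ^ 2 = -(t ^ 2 - r ^ 2) := by ring
          rw [e]
          exact (dvd_neg).2 h3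
        show ((1 : Fin 2) ≠ 0 ∧ jacobiSym (t ^ 2 + r ^ 2) p = -1) ↔
          ((1 : Fin 2) ≠ 0 ∧ jacobiSym 2 p = -1)
        rw [e2]
  · have h3 : (p : ℤ) ∣ t ^ 2 + r ^ 2 := hi
    have ht : ¬ (p : ℤ) ∣ t := by
      intro h4
      have h5 : (p : ℤ) ∣ r ^ 2 := by
        have h6 : (p : ℤ) ∣ t ^ 2 := Dvd.dvd.pow h4 two_ne_zero
        have := dvd_sub h3 h6
        have e : t ^ 2 + r ^ 2 - t ^ 2 = r ^ 2 := by ring
        rwa [e] at this
      exact not_dvd_both hp hco h4 (dvd_of_sq hp h5)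
    have hr : ¬ (p : ℤ) ∣ r := by
      intro h4
      have h5 : (p : ℤ) ∣ t ^ 2 := by
        have h6 : (p : ℤ) ∣ r ^ 2 := Dvd.dvd.pow h4 two_ne_zero
        have := dvd_sub h3 h6
        have e : t ^ 2 + r ^ 2 - r ^ 2 = t ^ 2 := by ring
        rwa [e] at this
      exact ht (dvd_of_sq hp h5)
    have hm1 : jacobiSym (-1) p = 1 := by
      have h4 : jacobiSym (t ^ 2) p = jacobiSym (-1) p := by
        refine jq (t := r) hp ?_ hr
        have e : t ^ 2 - -1 * r ^ 2 = t ^ 2 + r ^ 2 := by ring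
        rw [e]
        exact h3
      rw [← h4, jac_sq hp ht]
    refine ⟨?_, ?_⟩
    · intro k hk
      fin_cases k
      · exact fun h4 => hboth ⟨h4, h3⟩
      · exact absurd rfl hk
    · refine mem_union_left _ ?_
      have e1 : Th1 ((fun i => i) ⟨1, by decide⟩) p = {ngs (fun _ => (2 : ℤ)) 1 p} := by
        unfold Th1
        rw [if_neg (by decide), if_pos hm1]
      rw [e1, mem_singleton]
      unfold ngs
      refine filter_congr fun k _ => ?_
      fin_cases k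
      · have e2 : jacobiSym (t ^ 2 - r ^ 2) p = jacobiSym 2 p := by
          refine jq (t := t) hp ?_ ht
          have e : t ^ 2 - r ^ 2 - 2 * t ^ 2 = -(t ^ 2 + r ^ 2) := by ring
          rw [e]
          exact (dvd_neg).2 h3
        show ((0 : Fin 2) ≠ 1 ∧ jacobiSym (t ^ 2 - r ^ 2) p = -1) ↔
          ((0 : Fin 2) ≠ 1 ∧ jacobiSym 2 p = -1)
        rw [e2]
      · simp

lemma Th1_sub (i : Fin 2) (p : ℕ) : Th1 i p ⊆ (univ.erase i).powerset := by
  intro N hN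
  unfold Th1 at hN
  rw [mem_powerset]
  fin_cases i
  · simp only [Fin.zero_eta, Fin.isValue, if_true, mem_singleton] at hN
    rw [hN]
    exact ngs_sub _ _ _
  · have h1 : ((fun i => i) (⟨1, by decide⟩ : Fin 2)) ≠ 0 := by decide
    rw [if_neg h1] at hN
    split_ifs at hN
    · rw [mem_singleton] at hN
      rw [hN]
      exact ngs_sub _ _ _
    · simp at hN

lemma not_sq_neg {a : ℤ} (ha : a < 0) : ¬ IsSquare a := by
  rintro ⟨r, hr⟩
  have := mul_self_nonneg r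
  omega

lemma mean1 : Mean (Tog ∅ Th1) (fun _ _ => (2 : ℤ)) {0} ∅ := by
  refine meang Th1 _ {0} ∅ (Or.inl rfl) ?_ ?_ ?_ ?_
  · intro i hi k hk hik
    rw [mem_singleton] at hi hk
    exact absurd (hi.trans hk.symm) hik
  · intro h
    rw [card_empty] at h
    omega
  · intro i hi
    rw [mem_singleton] at hi
    obtain ⟨C, hC⟩ := half (not_sq_neg (a := -1) (by norm_num))
    refine ⟨1 / 2, by norm_num, C, fun z x hx => ?_⟩
    refine le_trans (sum_le_sum fun p _ => ?_) (hC z x hx)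
    refine div_le_div_of_nonneg_right ?_ (Nat.cast_nonneg _)
    unfold Th1
    rw [if_neg hi]
    split_ifs
    · simp
    · simp
  · refine ⟨2, fun i hi p hp h2 => ?_⟩
    rw [mem_singleton] at hi
    subst hi
    have e1 : Th1 0 p = {ngs (fun _ => (2 : ℤ)) 0 p} := rfl
    rw [e1, card_singleton]
    refine ⟨le_rfl, fun N hN => ⟨1, Or.inl rfl, fun l hl => ?_⟩⟩
    rw [mem_singleton] at hN
    subst hN
    rw [if_neg (notMem_empty l), one_mul]
    have h3 : ¬ (p : ℤ) ∣ 2 := by exact_mod_cast nf_nat hp (n := 2) (by norm_num) h2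
    have h4 : l ∈ ngs (fun _ => (2 : ℤ)) 0 p ↔ jacobiSym 2 p = -1 := by
      unfold ngs
      simp [hl]
    rcases jac_unit' hp h3 with h | h
    · rw [if_neg (by rw [h4, h]; norm_num), h]
    · rw [if_pos (by rw [h4, h]), h]

/-- few `d` with a point for which `2 (t² + r²)` is not a square -/
theorem step1 : ∃ δ : ℝ, 0 < δ ∧ ∃ C : ℝ, ∀ X : ℕ, 3 ≤ X →
    ({d : ℤ | d.natAbs ≤ X ∧ Squarefree d ∧ ∃ t r y : ℤ, IsCoprime t r ∧ y ≠ 0 ∧
      d * y ^ 2 = t ^ 4 - r ^ 4 ∧ ¬ IsSquare (2 * (t ^ 2 + r ^ 2))}.ncard : ℝ) ≤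
      C * X * (Real.log X) ^ (-δ) := by
  obtain ⟨δ, hδ, C, hC⟩ := gen (P := P1) (Θ := Tog ∅ Th1) (c := fun _ _ => (2 : ℤ)) (L := {0})
    (O := ∅) (Tog_sub ∅ Th1 Th1_sub) loc1 mean1
  refine ⟨δ, hδ, C, fun X hX => le_trans ?_ (hC X hX)⟩
  refine Nat.cast_le.2 (Set.ncard_le_ncard ?_ (Pool.Agent.TH213.SP.fin_le X _))
  rintro d ⟨h1, h2, t, r, y, hco, hy, hd, hns⟩
  refine ⟨h1, h2, ![t ^ 2 - r ^ 2, t ^ 2 + r ^ 2], y, ⟨t, r, hco, rfl⟩, hy, ?_, ?_⟩
  · rw [hd, Fin.prod_univ_two]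
    simp only [Matrix.cons_val_zero, Matrix.cons_val_one]
    ring
  · intro i hi
    rw [mem_singleton] at hi
    subst hi
    refine ⟨{1}, by decide, by simp, ?_⟩
    rw [prod_singleton]
    simp only [Matrix.cons_val_one]
    rw [mul_comm]
    exact hns

end Pool.Agent.NH93.QT
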