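import Mathlib

/-!
# `x⁴ + x² w² + w⁴ = 3 z²` only for `x² = w²`
-/

set_option autoImplicit false

namespace Pool.Agent.NH93.QT

lemma sq_mod_four (n : ℤ) : n ^ 2 % 4 = 0 ∧ n % 2 = 0 ∨ n ^ 2 % 4 = 1 ∧ n % 2 = 1 := by
  rcases Int.even_or_odd n with ⟨m, hm⟩ | ⟨m, hm⟩
  · left
    refine ⟨?_, by omega⟩
    have : n ^ 2 = 4 * (m ^ 2) := by rw [hm]; ring
    omega
  · right
    refine ⟨?_, by omega⟩
    have : n ^ 2 = 4 * (m ^ 2 + m) + 1 := by rw [hm]; ring
    omega

lemma sq_mod_three (n : ℤ) : n ^ 2 % 3 = 0 ∧ n % 3 = 0 ∨ n ^ 2 % 3 = 1 ∧ n % 3 ≠ 0 := by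
  have h : n % 3 = 0 ∨ n % 3 = 1 ∨ n % 3 = 2 := by omega
  rcases h with h | h | h
  · left
    refine ⟨?_, h⟩
    rw [pow_two, Int.mul_emod, h]; rfl
  · right
    refine ⟨?_, by omega⟩
    rw [pow_two, Int.mul_emod, h]; rfl
  · right
    refine ⟨?_, by omega⟩
    rw [pow_two, Int.mul_emod, h]; rfl

/-- `6 n²` is not a difference of two squares for odd `n` -/
lemma no_six {n u v : ℤ} (h : v ^ 2 - u ^ 2 = 6 * n ^ 2) : n % 2 = 0 := by
  rcases sq_mod_four n with h1 | h1 <;> rcases sq_mod_four u with h2 | h2 <;>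
    rcases sq_mod_four v with h3 | h3 <;> omega

/-- factorisation of `X Y = m τ²` -/
lemma facto {m X Y τ : ℤ} (hm : 0 < m) (hco : IsCoprime X Y) (hτ : τ ≠ 0) (h : X * Y = m * τ ^ 2)
    (hd : m ∣ X ∨ m ∣ Y) :
    ∃ a b ε : ℤ, (ε = 1 ∨ ε = -1) ∧ Y - X = ε * (b ^ 2 - m * a ^ 2) ∧ τ ^ 2 = (a * b) ^ 2 ∧
      IsCoprime (m * a) b := by
  have key : ∀ X Y : ℤ, IsCoprime X Y → X * Y = m * τ ^ 2 → m ∣ X →
      ∃ a b ε : ℤ, (ε = 1 ∨ ε = -1) ∧ Y - X = ε * (b ^ 2 - m * a ^ 2) ∧ τ ^ 2 = (a * b) ^ 2 ∧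
      IsCoprime (m * a) b := by
    rintro X Y hco h ⟨Z, rfl⟩
    have h1 : Z * Y = τ ^ 2 := by
      have : m * (Z * Y) = m * τ ^ 2 := by rw [← h]; ring
      exact mul_left_cancel₀ hm.ne' this
    have hZY : IsCoprime Z Y := hco.of_mul_left_right
    obtain ⟨a, ha⟩ := Int.sq_of_isCoprime hZY h1
    obtain ⟨b, hb⟩ := Int.sq_of_isCoprime hZY.symm (by rw [mul_comm]; exact h1)
    have hpos : 0 < τ ^ 2 := by positivity
    have ha0 : a ≠ 0 := by
      rintro rfl
      rcases ha with ha | ha <;> rw [ha] at h1 <;> simp at h1 <;> exact hτ (by simpa using h1.symm)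
    have hb0 : b ≠ 0 := by
      rintro rfl
      rcases hb with hb | hb <;> rw [hb] at h1 <;> simp at h1 <;> exact hτ (by simpa using h1.symm)
    have ha2 : 0 < a ^ 2 := by positivity
    have hb2 : 0 < b ^ 2 := by positivity
    have hab : 0 < a ^ 2 * b ^ 2 := mul_pos ha2 hb2
    have hdvd : IsCoprime (m * a) b := by
      have e1 : m * a ∣ m * Z := by
        rcases ha with ha | ha
        · rw [ha]; exact mul_dvd_mul_left _ (Dvd.intro _ (by ring : a * a = a ^ 2))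
        · rw [ha]; exact mul_dvd_mul_left _ (Dvd.intro _ (by ring : a * -a = -a ^ 2))
      have e2 : b ∣ Y := by
        rcases hb with hb | hb
        · rw [hb]; exact Dvd.intro _ (by ring : b * b = b ^ 2)
        · rw [hb]; exact Dvd.intro _ (by ring : b * -b = -b ^ 2)
      exact (hco.of_isCoprime_of_dvd_left e1).of_isCoprime_of_dvd_right e2
    rcases ha with ha | ha <;> rcases hb with hb | hb
    · refine ⟨a, b, 1, Or.inl rfl, by rw [ha, hb]; ring, by rw [← h1, ha, hb]; ring, hdvd⟩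
    · exfalso
      rw [ha, hb] at h1
      nlinarith
    · exfalso
      rw [ha, hb] at h1
      nlinarith
    · refine ⟨a, b, -1, Or.inr rfl, by rw [ha, hb]; ring, by rw [← h1, ha, hb]; ring, hdvd⟩
  rcases hd with hd | hd
  · exact key X Y hco h hd
  · obtain ⟨a, b, ε, h1, h2, h3, h4⟩ := key Y X hco.symm (by rw [mul_comm]; exact h) hd
    refine ⟨a, b, -ε, ?_, ?_, h3, h4⟩
    · rcases h1 with rfl | rfl
      · right; rfl
      · left; rfl
    · linear_combination -h2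

/-- `s² + 3 t²` and `s² + 27 t²` are both squares only for `t = 0` -/
theorem desc (n : ℕ) : ∀ s t u v : ℤ, t.natAbs = n → IsCoprime s (3 * t) →
    s ^ 2 + 3 * t ^ 2 = u ^ 2 → s ^ 2 + 27 * t ^ 2 = v ^ 2 → t = 0 := by
  induction n using Nat.strong_induction_on with
  | _ n ih =>
  intro s t u v hn hco hu hv
  by_contra ht
  have hs3 : IsCoprime s 3 := hco.of_mul_right_left
  have hst : IsCoprime s t := hco.of_mul_right_right
  have hnb : ¬ (s % 2 = 0 ∧ t % 2 = 0) := by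
    rintro ⟨h1, h2⟩
    have := hst.isUnit_of_dvd' (Int.dvd_of_emod_eq_zero h1) (Int.dvd_of_emod_eq_zero h2)
    exact absurd this (by decide)
  -- `t` is even
  have hte : t % 2 = 0 := by
    by_contra hto
    have hto' : t % 2 = 1 := by omega
    rcases sq_mod_four t with h1 | h1
    · omega
    rcases sq_mod_four s with h2 | h2
    · rcases sq_mod_four u with h3 | h3 <;> omega
    · rcases sq_mod_four u with h3 | h3
      · rcases sq_mod_four v with h4 | h4
        · obtain ⟨u', hu'⟩ := Int.dvd_of_emod_eq_zero h3.2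
          obtain ⟨v', hv'⟩ := Int.dvd_of_emod_eq_zero h4.2
          have h5 : v' ^ 2 - u' ^ 2 = 6 * t ^ 2 := by
            rw [hu'] at hu
            rw [hv'] at hv
            nlinarith
          have := no_six h5
          omega
        · omega
      · omega
  have hso : s % 2 = 1 := by omega
  obtain ⟨τ, rfl⟩ := Int.dvd_of_emod_eq_zero hte
  have hτ : τ ≠ 0 := by
    rintro rfl
    exact ht (by ring)
  have hsτ : IsCoprime s τ := hst.of_mul_right_right
  have huo : u % 2 = 1 := by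
    have h1 : u ^ 2 = s ^ 2 + 4 * (3 * τ ^ 2) := by rw [← hu]; ring
    rcases sq_mod_four u with h3 | h3 <;> rcases sq_mod_four s with h2 | h2 <;> omega
  have hvo : v % 2 = 1 := by
    have h1 : v ^ 2 = s ^ 2 + 4 * (27 * τ ^ 2) := by rw [← hv]; ring
    rcases sq_mod_four v with h3 | h3 <;> rcases sq_mod_four s with h2 | h2 <;> omega
  -- the factorisations
  have split : ∀ (m w : ℤ), w % 2 = 1 → s ^ 2 + m * (2 * τ) ^ 2 = w ^ 2 → IsCoprime s m →
      ∃ X Y : ℤ, w = X + Y ∧ s = Y - X ∧ X * Y = m * τ ^ 2 ∧ IsCoprime X Y := by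
    intro m w hw h hsm
    obtain ⟨X, hX⟩ : ∃ X : ℤ, w - s = 2 * X := ⟨(w - s) / 2, by omega⟩
    refine ⟨X, X + s, by linarith, by ring, ?_, ?_⟩
    · have h1 : w = s + 2 * X := by linarith
      rw [h1] at h
      nlinarith
    · have h2 : X * (X + s) = m * τ ^ 2 := by
        have h1 : w = s + 2 * X := by linarith
        rw [h1] at h
        nlinarith
      have h3 : IsCoprime s (m * τ ^ 2) := hsm.mul_right (hsτ.pow_right)
      have h4 : IsCoprime s X := h3.of_isCoprime_of_dvd_right ⟨X + s, h2.symm⟩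
      obtain ⟨p, q, hpq⟩ := h4
      exact ⟨q - p, p, by linear_combination hpq⟩
  obtain ⟨X, Y, -, hsX, hXY, hcoX⟩ := split 3 u huo hu hs3
  obtain ⟨X', Y', -, hsX', hXY', hcoX'⟩ := split 27 v hvo hv (by
    have : (27 : ℤ) = 3 ^ 3 := by norm_num
    rw [this]
    exact hs3.pow_right)
  have h3p : Prime (3 : ℤ) := Int.prime_three
  have hd1 : (3 : ℤ) ∣ X ∨ (3 : ℤ) ∣ Y := h3p.dvd_or_dvd ⟨τ ^ 2, hXY⟩
  have hd2 : (27 : ℤ) ∣ X' ∨ (27 : ℤ) ∣ Y' := by
    have h27 : (27 : ℤ) ∣ X' * Y' := ⟨τ ^ 2, hXY'⟩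
    have h3 : (3 : ℤ) ∣ X' * Y' := Dvd.dvd.trans ⟨9, by norm_num⟩ h27
    rcases h3p.dvd_or_dvd h3 with h | h
    · left
      have h1 : IsCoprime (3 : ℤ) Y' := (hcoX'.of_isCoprime_of_dvd_left h)
      have h2 : IsCoprime (27 : ℤ) Y' := by
        have e : (27 : ℤ) = 3 ^ 3 := by norm_num
        rw [e]
        exact h1.pow_left
      exact h2.dvd_of_dvd_mul_right h27
    · right
      have h1 : IsCoprime (3 : ℤ) X' := (hcoX'.symm.of_isCoprime_of_dvd_left h)
      have h2 : IsCoprime (27 : ℤ) X' := by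
        have e : (27 : ℤ) = 3 ^ 3 := by norm_num
        rw [e]
        exact h1.pow_left
      exact h2.dvd_of_dvd_mul_left h27
  obtain ⟨a, b, ε, hε, hab, hτ1, hco1⟩ := facto (by norm_num) hcoX hτ hXY hd1
  obtain ⟨c, e, ε', hε', hce, hτ2, hco2⟩ := facto (by norm_num) hcoX' hτ hXY' hd2
  rw [← hsX] at hab
  rw [← hsX'] at hce
  -- nonvanishing
  have ha0 : a ≠ 0 := by
    rintro rfl
    apply hτ
    have : τ ^ 2 = 0 := by rw [hτ1]; ring
    exact pow_eq_zero_iff two_ne_zero |>.1 this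
  have hb0 : b ≠ 0 := by
    rintro rfl
    apply hτ
    have : τ ^ 2 = 0 := by rw [hτ1]; ring
    exact pow_eq_zero_iff two_ne_zero |>.1 this
  -- the signs
  have hb3 : b % 3 ≠ 0 := by
    intro h
    have h1 : (3 : ℤ) ∣ b := Int.dvd_of_emod_eq_zero h
    have h2 : IsCoprime (3 : ℤ) b := hco1.of_mul_left_left
    exact h3p.not_isUnit (h2.isUnit_of_dvd' dvd_rfl h1)
  have he3 : e % 3 ≠ 0 := by
    intro h
    have h1 : (3 : ℤ) ∣ e := Int.dvd_of_emod_eq_zero h
    have h2 : IsCoprime (27 : ℤ) e := hco2.of_mul_left_left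
    exact h3p.not_isUnit (h2.isUnit_of_dvd' ⟨9, by norm_num⟩ h1)
  have hεε : b ^ 2 - 3 * a ^ 2 = e ^ 2 - 27 * c ^ 2 := by
    have hb := (sq_mod_three b).resolve_left (fun h => hb3 h.2)
    have he := (sq_mod_three e).resolve_left (fun h => he3 h.2)
    rcases hε with rfl | rfl <;> rcases hε' with rfl | rfl
    · linarith
    · exfalso
      omega
    · exfalso
      omega
    · linarith
  -- `a b = c e` after a change of sign
  obtain ⟨c', hc2, hce'⟩ : ∃ c' : ℤ, c' ^ 2 = c ^ 2 ∧ a * b = c' * e := by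
    have h1 : (a * b) ^ 2 = (c * e) ^ 2 := by rw [← hτ1, hτ2]
    rcases sq_eq_sq_iff_eq_or_eq_neg.1 h1 with h2 | h2
    · exact ⟨c, rfl, h2⟩
    · exact ⟨-c, by ring, by rw [h2]; ring⟩
  rw [← hc2] at hεε
  obtain ⟨p, q, ⟨r, hr⟩, ⟨h, hh⟩, hpq⟩ := exists_dvd_and_dvd_of_dvd_mul (Dvd.intro _ hce')
  have hp0 : p ≠ 0 := by rintro rfl; exact ha0 (by rw [hpq]; ring)
  have hq0 : q ≠ 0 := by rintro rfl; exact ha0 (by rw [hpq]; ring)
  have hbr : b = r * h := by
    have h1 : (p * q) * b = (p * q) * (r * h) := by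
      have h0 : a * b = (p * r) * (q * h) := by rw [hce', hr, hh]
      rw [hpq] at h0
      rw [h0]
      ring
    exact mul_left_cancel₀ (mul_ne_zero hp0 hq0) h1
  have hmain : r ^ 2 * (h ^ 2 + 27 * p ^ 2) = q ^ 2 * (h ^ 2 + 3 * p ^ 2) := by
    rw [hpq, hbr, hr, hh] at hεε
    linear_combination hεε
  have hab' : IsCoprime a b := hco1.of_mul_left_right
  have hqr : IsCoprime (q ^ 2) (r ^ 2) := by
    refine IsCoprime.pow ?_
    exact (hab'.of_isCoprime_of_dvd_left ⟨p, by rw [hpq]; ring⟩).of_isCoprime_of_dvd_right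
      ⟨h, hbr⟩
  obtain ⟨k, hk⟩ : q ^ 2 ∣ h ^ 2 + 27 * p ^ 2 :=
    hqr.dvd_of_dvd_mul_left ⟨_, hmain⟩
  have hk2 : h ^ 2 + 3 * p ^ 2 = k * r ^ 2 := by
    have h1 : q ^ 2 * (h ^ 2 + 3 * p ^ 2) = q ^ 2 * (k * r ^ 2) := by
      rw [← hmain, hk]; ring
    exact mul_left_cancel₀ (pow_ne_zero 2 hq0) h1
  have hp3h : IsCoprime (3 * p) h :=
    (hco1.of_isCoprime_of_dvd_left ⟨q, by rw [hpq]; ring⟩).of_isCoprime_of_dvd_right
      ⟨r, by rw [hbr]; ring⟩
  have hk8 : k ∣ 8 := by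
    have h1 : k ∣ 24 * p ^ 2 := ⟨q ^ 2 - r ^ 2, by linear_combination hk - hk2⟩
    have h2 : k ∣ 8 * h ^ 2 := ⟨9 * r ^ 2 - q ^ 2, by linear_combination 9 * hk2 - hk⟩
    have h3 : IsCoprime (3 * p ^ 2) (h ^ 2) := by
      have h4 : IsCoprime (3 : ℤ) h := hp3h.of_mul_left_left
      have h5 : IsCoprime p h := hp3h.of_mul_left_right
      exact (h4.pow_right).mul_left (h5.pow)
    obtain ⟨α, β, hαβ⟩ := h3
    have h4 : (8 : ℤ) = α * (24 * p ^ 2) + β * (8 * h ^ 2) := by linear_combination -8 * hαβ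
    rw [h4]
    exact dvd_add (Dvd.dvd.mul_left h1 _) (Dvd.dvd.mul_left h2 _)
  have hkpos : 0 < k := by
    have h1 : 0 < h ^ 2 + 27 * p ^ 2 := by positivity
    rw [hk] at h1
    by_contra hc
    have : q ^ 2 * k ≤ 0 := mul_nonpos_of_nonneg_of_nonpos (by positivity) (not_lt.1 hc)
    omega
  have hkle : k ≤ 8 := Int.le_of_dvd (by norm_num) hk8
  have hh3 : h % 3 ≠ 0 := by
    intro h'
    have h1 : (3 : ℤ) ∣ h := Int.dvd_of_emod_eq_zero h'
    have h2 : IsCoprime (3 : ℤ) h := hp3h.of_mul_left_left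
    exact h3p.not_isUnit (h2.isUnit_of_dvd' dvd_rfl h1)
  have hk3 : k % 3 = 1 := by
    have h1 := (sq_mod_three h).resolve_left (fun h => hh3 h.2)
    have h2 : (k * r ^ 2) % 3 = 1 := by rw [← hk2]; omega
    rw [Int.mul_emod] at h2
    rcases sq_mod_three r with h3 | h3
    · rw [h3.1] at h2
      simp at h2
    · rw [h3.1] at h2
      omega
  have hk14 : k = 1 ∨ k = 4 := by
    have : k = 1 ∨ k = 4 ∨ k = 7 := by omega
    rcases this with h | h | h
    · exact Or.inl h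
    · exact Or.inr h
    · exfalso
      rw [h] at hk8
      revert hk8
      decide
  rcases hk14 with rfl | rfl
  · -- descent
    have h1 : h ^ 2 + 3 * p ^ 2 = r ^ 2 := by rw [hk2]; ring
    have h2 : h ^ 2 + 27 * p ^ 2 = q ^ 2 := by rw [hk]; ring
    have hlt : p.natAbs < n := by
      rw [← hn]
      have e1 : τ.natAbs = a.natAbs * b.natAbs := by
        have := Int.natAbs_eq_iff_sq_eq.2 hτ1
        rw [this, Int.natAbs_mul]
      have e2 : a.natAbs = p.natAbs * q.natAbs := by rw [hpq, Int.natAbs_mul]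
      have e3 : 0 < q.natAbs := Int.natAbs_pos.2 hq0
      have e4 : 0 < b.natAbs := Int.natAbs_pos.2 hb0
      have e5 : 0 < p.natAbs := Int.natAbs_pos.2 hp0
      have e6 : p.natAbs ≤ τ.natAbs := by
        rw [e1, e2]
        calc p.natAbs ≤ p.natAbs * q.natAbs := Nat.le_mul_of_pos_right _ e3
          _ ≤ _ := Nat.le_mul_of_pos_right _ e4
      rw [Int.natAbs_mul]
      have : (2 : ℤ).natAbs = 2 := rfl
      rw [this]
      omega
    exact hp0 (ih p.natAbs hlt h p r q rfl hp3h.symm h1 h2)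
  · -- `k = 4`
    have h1 : q ^ 2 - r ^ 2 = 6 * p ^ 2 := by linarith
    have h2 := no_six h1
    have h3 : h % 2 = 0 := by
      rcases sq_mod_four h with h4 | h4
      · exact h4.2
      · rcases sq_mod_four p with h5 | h5 <;> omega
    have h4 := (hp3h.of_mul_left_right).isUnit_of_dvd' (Int.dvd_of_emod_eq_zero h2)
      (Int.dvd_of_emod_eq_zero h3)
    exact absurd h4 (by decide)

/-- `x⁴ + x² w² + w⁴ = 3 z²` only for `x² = w²` -/
theorem sextic_const {x w z : ℤ} (hco : IsCoprime x w)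
    (h : x ^ 4 + x ^ 2 * w ^ 2 + w ^ 4 = 3 * z ^ 2) : x ^ 2 = w ^ 2 := by
  have key : ∀ x w : ℤ, IsCoprime x w → x ^ 4 + x ^ 2 * w ^ 2 + w ^ 4 = 3 * z ^ 2 →
      (3 : ℤ) ∣ x ^ 2 + x * w + w ^ 2 → x = w := by
    intro x w hco h h3
    have hodd : (x ^ 2 + x * w + w ^ 2) % 2 = 1 := by
      by_contra hne
      have he : (x ^ 2 + x * w + w ^ 2) % 2 = 0 := by omega
      have hb : x % 2 = 0 ∧ w % 2 = 0 := by
        rcases Int.even_or_odd' x with ⟨m, hm | hm⟩ <;> rcases Int.even_or_odd' w with ⟨n, hn | hn⟩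
        · omega
        · exfalso
          have : x ^ 2 + x * w + w ^ 2 = 2 * (2 * m ^ 2 + m * w + 2 * n ^ 2 + 2 * n) + 1 := by
            rw [hm, hn]; ring
          omega
        · exfalso
          have : x ^ 2 + x * w + w ^ 2 = 2 * (2 * m ^ 2 + 2 * m + x * n + 2 * n ^ 2) + 1 := by
            rw [hn, hm]; ring
          omega
        · exfalso
          have : x ^ 2 + x * w + w ^ 2 =
              2 * (2 * m ^ 2 + 2 * m + 2 * m * n + m + n + 2 * n ^ 2 + 2 * n + 1) + 1 := by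
            rw [hn, hm]; ring
          omega
      have := hco.isUnit_of_dvd' (Int.dvd_of_emod_eq_zero hb.1) (Int.dvd_of_emod_eq_zero hb.2)
      exact absurd this (by decide)
    have hAB : IsCoprime (x ^ 2 + x * w + w ^ 2) (x ^ 2 - x * w + w ^ 2) := by
      have h1 : IsCoprime (x ^ 2 + x * w + w ^ 2) x := by
        obtain ⟨p, q, hpq⟩ := (hco.symm.pow_left (m := 2))
        exact ⟨p, q - p * (x + w), by linear_combination hpq⟩
      have h2 : IsCoprime (x ^ 2 + x * w + w ^ 2) w := by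
        obtain ⟨p, q, hpq⟩ := (hco.pow_left (m := 2))
        exact ⟨p, q - p * (x + w), by linear_combination hpq⟩
      have h4 : IsCoprime (x ^ 2 + x * w + w ^ 2) 2 :=
        ⟨1, -((x ^ 2 + x * w + w ^ 2) / 2), by omega⟩
      obtain ⟨p, q, hpq⟩ := (h4.mul_right (h1.mul_right h2))
      exact ⟨p + q, -q, by linear_combination hpq⟩
    have hprod : (x ^ 2 + x * w + w ^ 2) * (x ^ 2 - x * w + w ^ 2) = 3 * z ^ 2 := by
      rw [← h]; ring
    obtain ⟨A, hA⟩ := h3
    have hAz : A * (x ^ 2 - x * w + w ^ 2) = z ^ 2 := by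
      have : 3 * (A * (x ^ 2 - x * w + w ^ 2)) = 3 * z ^ 2 := by rw [← hprod, hA]; ring
      omega
    have hxw : ¬ (x = 0 ∧ w = 0) := by
      rintro ⟨rfl, rfl⟩
      have := hco.isUnit_of_dvd' (dvd_refl 0) (dvd_refl 0)
      simp at this
    have hBpos : 0 < x ^ 2 - x * w + w ^ 2 := by
      have h1 : 0 < x ^ 2 + w ^ 2 := by
        rcases not_and_or.1 hxw with h | h <;> positivity
      nlinarith [sq_nonneg (x - w)]
    have hApos : 0 < A := by
      have h1 : 0 < x ^ 2 + w ^ 2 := by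
        rcases not_and_or.1 hxw with h | h <;> positivity
      nlinarith [sq_nonneg (x + w)]
    have hcoA : IsCoprime A (x ^ 2 - x * w + w ^ 2) := by
      rw [hA] at hAB
      exact hAB.of_mul_left_right
    obtain ⟨u, hu⟩ : ∃ u : ℤ, A = u ^ 2 := by
      obtain ⟨u, hu | hu⟩ := Int.sq_of_isCoprime hcoA hAz
      · exact ⟨u, hu⟩
      · exfalso
        have := sq_nonneg u
        omega
    obtain ⟨v, hv⟩ : ∃ v : ℤ, x ^ 2 - x * w + w ^ 2 = v ^ 2 := by
      obtain ⟨v, hv | hv⟩ := Int.sq_of_isCoprime hcoA.symm (by rw [mul_comm]; exact hAz)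
      · exact ⟨v, hv⟩
      · exfalso
        have := sq_nonneg v
        omega
    rw [hu] at hA
    have h3x : (3 : ℤ) ∣ x - w := by
      have h1 : (3 : ℤ) ∣ (x - w) ^ 2 := ⟨u ^ 2 - x * w, by linear_combination hA⟩
      exact Int.prime_three.dvd_of_dvd_pow h1
    obtain ⟨n, hn⟩ := h3x
    have hxn : x = w + 3 * n := by linarith
    have h6 : v ^ 2 - u ^ 2 = 6 * n ^ 2 := by
      rw [hxn] at hA hv
      nlinarith
    have hne := no_six h6
    obtain ⟨t, ht⟩ := Int.dvd_of_emod_eq_zero hne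
    have hs : x = (w + 3 * t) + 3 * t := by rw [hxn, ht]; ring
    have ht0 : t = 0 := by
      refine desc t.natAbs (w + 3 * t) t u v rfl ?_ ?_ ?_
      · obtain ⟨p, q, hpq⟩ := hco
        refine ⟨p + q, p - q, ?_⟩
        rw [hs] at hpq
        linear_combination hpq
      · rw [hs] at hA
        nlinarith
      · rw [hs] at hv
        nlinarith
    rw [hs, ht0]
    ring
  have h3 : (3 : ℤ) ∣ (x ^ 2 + x * w + w ^ 2) * (x ^ 2 - x * w + w ^ 2) :=
    ⟨z ^ 2, by rw [← h]; ring⟩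
  rcases Int.prime_three.dvd_or_dvd h3 with h4 | h4
  · rw [key x w hco h h4]
  · have h5 := key x (-w) hco.neg_right (by rw [← h]; ring) (by
      have e : x ^ 2 + x * -w + (-w) ^ 2 = x ^ 2 - x * w + w ^ 2 := by ring
      rw [e]; exact h4)
    rw [h5]
    ring

end Pool.Agent.NH93.QT
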