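import Pool.Agent.NH93.QT.Comp
import Pool.Agent.NH93.QT.Sextic
import Pool.Agent.NH93.QT.El
import Pool.Agent.NH93.QT.Fam

/-!
# `y⁶ = x⁶ + d`
-/

set_option autoImplicit false

namespace Pool.Agent.NH93.QT

open Finset Polynomial Pool.Agent.W262.RK Pool.Agent.W262.TW Pool.Agent.W554.TW Pool.Agent.Y488.TM

/-- `u - 1` and `u² + u + 1` -/
noncomputable def P6 : Fin 2 → ℤ[X] := ![X - C 1, X ^ 2 + X + 1]

lemma P6_0 : P6 0 = X - C 1 := rfl

lemma P6_1 : P6 1 = X ^ 2 + X + 1 := rfl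

lemma P6_deg0 : (P6 0).natDegree = 1 := by rw [P6_0]; exact natDegree_X_sub_C 1

lemma P6_deg1 : (P6 1).natDegree = 2 := by
  rw [P6_1]
  compute_degree!

lemma P6_hom0 (a b : ℤ) : hom (P6 0) a b = a - b := by
  unfold hom
  rw [P6_deg0, P6_0]
  rw [sum_range_succ, sum_range_one]
  simp [coeff_one, coeff_X]
  ring

lemma P6_hom1 (a b : ℤ) : hom (P6 1) a b = a ^ 2 + a * b + b ^ 2 := by
  unfold hom
  rw [P6_deg1, P6_1]
  rw [sum_range_succ, sum_range_succ, sum_range_one]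
  simp [coeff_one, coeff_X, coeff_X_pow]
  ring

lemma hom_X2 (a b : ℤ) : hom ((X : ℤ[X]) ^ 2) a b = a ^ 2 := by
  unfold hom
  rw [natDegree_X_pow]
  rw [sum_range_succ, sum_range_succ, sum_range_one]
  simp [coeff_X_pow]

lemma P6_irr (k : Fin 2) : Irreducible ((P6 k).map (Int.castRingHom ℚ)) := by
  fin_cases k
  · show Irreducible ((P6 0).map (Int.castRingHom ℚ))
    rw [P6_0, Polynomial.map_sub, map_X, map_C]
    exact irreducible_X_sub_C _
  · show Irreducible ((P6 1).map (Int.castRingHom ℚ))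
    rw [P6_1, ← cyclotomic_three, map_cyclotomic_int]
    exact cyclotomic.irreducible_rat (by norm_num)

lemma P6_ass (k l : Fin 2) (h : k ≠ l) :
    ¬ Associated ((P6 k).map (Int.castRingHom ℚ)) ((P6 l).map (Int.castRingHom ℚ)) := by
  intro ha
  have h1 := natDegree_eq_of_degree_eq (degree_eq_degree_of_associated ha)
  rw [natDegree_map_eq_of_injective (RingHom.injective_int (Int.castRingHom ℚ)),
    natDegree_map_eq_of_injective (RingHom.injective_int (Int.castRingHom ℚ))] at h1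
  fin_cases k <;> fin_cases l
  · exact h rfl
  · have h2 : (P6 0).natDegree = (P6 1).natDegree := h1
    rw [P6_deg0, P6_deg1] at h2
    omega
  · have h2 : (P6 1).natDegree = (P6 0).natDegree := h1
    rw [P6_deg0, P6_deg1] at h2
    omega
  · exact h rfl

lemma P6_cc : cc0 P6 0 1 = 3 := by
  unfold cc0 Pool.Agent.Y488.TM.val
  rw [P6_hom1, P6_0]
  simp [coeff_one, coeff_X]

/-- few `d` with a point for which `3 (x⁴ + x² w² + w⁴)` is not a square -/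
theorem step6 : Few {d : ℤ | Squarefree d ∧ ∃ x w y : ℤ, IsCoprime x w ∧ y ≠ 0 ∧
    d * y ^ 2 = x ^ 6 - w ^ 6 ∧ ¬ IsSquare (3 * (x ^ 4 + x ^ 2 * w ^ 2 + w ^ 4))} := by
  have hmain := comp_few (K := Fin 2) (X ^ 2) (by rw [natDegree_X_pow]; exact even_two)
    (by rw [natDegree_X_pow]; norm_num) P6 P6_irr P6_ass {0}
    (by
      intro i hi
      rw [mem_singleton] at hi
      subst hi
      unfold Ln
      rw [mem_filter]
      exact ⟨mem_univ _, P6_deg0⟩)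
    (by
      intro i hi hi0
      exfalso
      unfold Ln at hi
      rw [mem_filter] at hi
      fin_cases i
      · exact hi0 (mem_singleton_self _)
      · have h2 : (P6 1).natDegree = 1 := hi.2
        rw [P6_deg1] at h2
        omega)
    (by
      intro i hi k hk hik
      rw [mem_singleton] at hi hk
      exact absurd (hi.trans hk.symm) hik)
  refine Few.mono (T := {d : ℤ | Squarefree d ∧ BadV (PCo (X ^ 2) P6) (cc0 P6) {0} ∅ d}) hmain ?_
  rintro d ⟨hd, x, w, y, hco, hy, hxy, hns⟩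
  refine ⟨hd, _, y, ⟨x, w, hco, rfl⟩, hy, ?_, ?_⟩
  · rw [Fin.prod_univ_two, natDegree_X_pow, hom_X2]
    show d * y ^ 2 = hom (P6 0) (x ^ 2) (w ^ 2) * hom (P6 1) (x ^ 2) (w ^ 2)
    rw [P6_hom0, P6_hom1, hxy]
    ring
  · intro i hi
    rw [mem_singleton] at hi
    subst hi
    refine ⟨{1}, by decide, by simp, ?_⟩
    rw [prod_singleton, natDegree_X_pow, hom_X2]
    show ¬ IsSquare (hom (P6 1) (x ^ 2) (w ^ 2) * cc0 P6 0 1)
    rw [P6_hom1, P6_cc]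
    have e : ((x ^ 2) ^ 2 + x ^ 2 * w ^ 2 + (w ^ 2) ^ 2) * 3 =
        3 * (x ^ 4 + x ^ 2 * w ^ 2 + w ^ 4) := by ring
    rw [e]
    exact hns

/-- a point on `y⁶ = x⁶ + d m²` -/
theorem point6 {d m : ℤ} (hd : Squarefree d) (hm : m ≠ 0) {x y : ℚ}
    (h : y ^ 6 = x ^ 6 + d * m ^ 2) : ∃ t r y₁ : ℤ, IsCoprime t r ∧ y₁ ≠ 0 ∧
      d * y₁ ^ 2 = t ^ 6 - r ^ 6 ∧ ¬ IsSquare (3 * (t ^ 4 + t ^ 2 * r ^ 2 + r ^ 4)) := by
  have hd0 : (d : ℚ) ≠ 0 := by exact_mod_cast hd.ne_zero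
  have hm0 : (m : ℚ) ≠ 0 := by exact_mod_cast hm
  have hxy : ¬ (y = 0 ∧ x = 0) := by
    rintro ⟨rfl, rfl⟩
    have h1 : (d : ℚ) * m ^ 2 = 0 := by linear_combination -h
    exact mul_ne_zero hd0 (pow_ne_zero 2 hm0) h1
  obtain ⟨t, r, c, hc, hy, hx, hco⟩ := coprime_coords hxy
  have h1 : (d : ℚ) * (m * c⁻¹ ^ 3) ^ 2 = ((t ^ 6 - r ^ 6 : ℤ) : ℚ) := by
    rw [hy, hx] at h
    push_cast
    field_simp
    linear_combination -h
  obtain ⟨y₁, hy₁⟩ := Pool.Agent.TH213.SP.int_of hd h1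
  have hy0 : y₁ ≠ 0 := by
    rintro rfl
    rw [Int.cast_zero] at hy₁
    exact mul_ne_zero hm0 (pow_ne_zero 3 (inv_ne_zero hc)) hy₁
  rw [hy₁] at h1
  have h2 : d * y₁ ^ 2 = t ^ 6 - r ^ 6 := by exact_mod_cast h1
  refine ⟨t, r, y₁, hco, hy0, h2, ?_⟩
  rintro ⟨s, hs⟩
  have h3 : (3 : ℤ) ∣ s := by
    have h4 : (3 : ℤ) ∣ s * s := ⟨_, hs.symm⟩
    rcases Int.prime_three.dvd_or_dvd h4 with h | h <;> exact h
  obtain ⟨z, rfl⟩ := h3
  have h4 : t ^ 4 + t ^ 2 * r ^ 2 + r ^ 4 = 3 * z ^ 2 := by linarith [hs, sq z]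
  have h5 := sextic_const hco h4
  have h6 : d * y₁ ^ 2 = 0 := by
    rw [h2]
    have e : t ^ 6 - r ^ 6 = (t ^ 2) ^ 3 - (r ^ 2) ^ 3 := by ring
    rw [e, h5]
    ring
  exact mul_ne_zero hd.ne_zero (pow_ne_zero 2 hy0) h6

end Pool.Agent.NH93.QT
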